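import Pool.Agent.U416.WR.Lower

/-! Exact local values: `k = 2, 4`, `k = 3 ^ j` and `k = 2 * 3 ^ j`. -/

set_option autoImplicit false

namespace Pool.Agent.U416.WR

open Finset

/-- `n` is a sum of `s` `k`-th powers of integers modulo `m` -/
def SumMod (m : ℤ) (k s : ℕ) (n : ℤ) : Prop := ∃ x : Fin s → ℤ, m ∣ (∑ i, x i ^ k) - n

theorem SumMod.succ {m : ℤ} {k s : ℕ} {n : ℤ} (h : SumMod m k s n) (y : ℤ) : SumMod m k (s + 1) (n + y ^ k) := by
  obtain ⟨x, hx⟩ := h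
  refine ⟨Fin.snoc x y, ?_⟩
  rw [Fin.sum_univ_castSucc]
  simp only [Fin.snoc_castSucc, Fin.snoc_last]
  have e : ∑ i, x i ^ k + y ^ k - (n + y ^ k) = ∑ i, x i ^ k - n := by ring
  rw [e]
  exact hx

theorem SumMod.congr {m : ℤ} {k s : ℕ} {n n' : ℤ} (h : SumMod m k s n) (hn : m ∣ n - n') : SumMod m k s n' := by
  obtain ⟨x, hx⟩ := h
  refine ⟨x, ?_⟩
  have e : ∑ i, x i ^ k - n' = (∑ i, x i ^ k - n) + (n - n') := by ring
  rw [e]
  exact dvd_add hx hn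

theorem SumMod.zero {m : ℤ} {k : ℕ} : SumMod m k 0 0 := ⟨fun _ => 0, by simp⟩

theorem SumMod.mono {m : ℤ} {k s s' : ℕ} {n : ℤ} (hk : 1 ≤ k) (h : SumMod m k s n) (hs : s ≤ s') : SumMod m k s' n := by
  obtain ⟨d, rfl⟩ := Nat.exists_eq_add_of_le hs
  clear hs
  induction d with
  | zero => exact h
  | succ d ih =>
    have h1 := ih.succ 0
    rw [zero_pow (by omega), add_zero] at h1
    exact h1

theorem SumMod.ones {m : ℤ} {k s : ℕ} {n : ℤ} (h : SumMod m k s n) (t : ℕ) : SumMod m k (s + t) (n + t) := by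
  induction t with
  | zero => simpa using h
  | succ t ih =>
    have h1 := ih.succ 1
    rw [one_pow] at h1
    have e : n + ((t + 1 : ℕ) : ℤ) = n + t + 1 := by push_cast; ring
    rw [e]
    exact h1

theorem SumMod.neg_ones {m : ℤ} {k s : ℕ} {n : ℤ} (hk : Odd k) (h : SumMod m k s n) (t : ℕ) :
    SumMod m k (s + t) (n - t) := by
  induction t with
  | zero => simpa using h
  | succ t ih =>
    have h1 := ih.succ (-1)
    rw [hk.neg_one_pow] at h1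
    have e : n - ((t + 1 : ℕ) : ℤ) = n - t + -1 := by push_cast; ring
    rw [e]
    exact h1

theorem SumMod.nat {Q k s : ℕ} (hQ : 1 ≤ Q) {a : ℕ} (h : SumMod Q k s a) : ∃ x : Fin s → ℕ, (∑ i, x i ^ k) ≡ a [MOD Q] := by
  obtain ⟨x, hx⟩ := h
  have hQz : (0 : ℤ) < Q := by exact_mod_cast hQ
  refine ⟨fun i => (x i % (Q : ℤ)).toNat, ?_⟩
  apply Nat.ModEq.symm
  rw [Nat.modEq_iff_dvd]
  push_cast
  have h1 : (Q : ℤ) ∣ ∑ i, ((((x i % (Q : ℤ)).toNat : ℕ) : ℤ) ^ k - x i ^ k) := by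
    apply dvd_sum
    intro i _
    rw [Int.toNat_of_nonneg (Int.emod_nonneg _ hQz.ne')]
    refine (Int.ModEq.dvd ?_)
    exact ((Int.mod_modEq (x i) Q).pow k).symm
  rw [sum_sub_distrib] at h1
  have h2 := dvd_add h1 hx
  have e : ∑ i, ((((x i % (Q : ℤ)).toNat : ℕ) : ℤ)) ^ k - ∑ i, x i ^ k + (∑ i, x i ^ k - (a : ℤ)) =
    ∑ i, ((((x i % (Q : ℤ)).toNat : ℕ) : ℤ)) ^ k - a := by ring
  rwa [e] at h2

/-- the Chinese remainder theorem for the local problem -/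
theorem loc_crt {k s : ℕ} (h : ∀ p j : ℕ, p.Prime → 0 < j → ∀ a : ℕ, ∃ x : Fin s → ℕ, (∑ i, x i ^ k) ≡ a [MOD p ^ j]) :
    Loc k s := by
  intro Q
  induction Q using Nat.recOnPosPrimePosCoprime with
  | zero => intro h; omega
  | one => exact fun _ a => ⟨fun _ => 0, Nat.modEq_one⟩
  | prime_pow p j hp hj =>
    intro _ a
    exact h p j hp hj a
  | coprime m n hm hn hmn ihm ihn =>
    intro _ a
    obtain ⟨x, hx⟩ := ihm (by omega) a
    obtain ⟨y, hy⟩ := ihn (by omega) a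
    refine ⟨fun i => (Nat.chineseRemainder hmn (x i) (y i) : ℕ), ?_⟩
    rw [← Nat.modEq_and_modEq_iff_modEq_mul hmn]
    constructor
    · refine Nat.ModEq.trans (Nat.ModEq.sum fun i _ => ?_) hx
      exact (Nat.chineseRemainder hmn (x i) (y i)).2.1.pow _
    · refine Nat.ModEq.trans (Nat.ModEq.sum fun i _ => ?_) hy
      exact (Nat.chineseRemainder hmn (x i) (y i)).2.2.pow _

theorem of_zmod {m k s : ℕ} [NeZero m] {a : ℕ} (h : ∃ x : Fin s → ZMod m, (a : ZMod m) = ∑ i, x i ^ k) :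
    ∃ x : Fin s → ℕ, (∑ i, x i ^ k) ≡ a [MOD m] := by
  obtain ⟨x, hx⟩ := h
  refine ⟨fun i => (x i).val, ?_⟩
  rw [← ZMod.natCast_eq_natCast_iff, hx]
  push_cast
  refine sum_congr rfl fun i _ => ?_
  rw [ZMod.natCast_zmod_val]

/-- odd primes: few powers are enough -/
theorem loc_odd {p k s j : ℕ} (hp : p.Prime) (hp2 : p ≠ 2) (hk : 1 ≤ k) (hj : 0 < j) (hs : p * k ≤ s * (p - 1)) (a : ℕ) :
    ∃ x : Fin s → ℕ, (∑ i, x i ^ k) ≡ a [MOD p ^ j] := by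
  have : NeZero (p ^ j) := ⟨pow_ne_zero _ hp.ne_zero⟩
  apply of_zmod
  refine cover_of_ker hk (by omega) (fun S hS => ker_odd hp hp2 hk j S hS) ?_ (a : ZMod (p ^ j))
  rw [Nat.totient_prime_pow hp hj]
  have hpj : p ^ j = p ^ (j - 1) * p := by rw [← pow_succ, Nat.sub_add_cancel hj]
  rw [hpj]
  calc p ^ (j - 1) * p * k = p ^ (j - 1) * (p * k) := by ring
    _ ≤ p ^ (j - 1) * (s * (p - 1)) := Nat.mul_le_mul_left _ hs
    _ = s * (p ^ (j - 1) * (p - 1)) := by ring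

/-- for odd `k`, four powers are enough modulo powers of two -/
theorem loc_two_odd {k s j : ℕ} (hk : Odd k) (hj : 0 < j) (hs : 4 ≤ s) (a : ℕ) :
    ∃ x : Fin s → ℕ, (∑ i, x i ^ k) ≡ a [MOD 2 ^ j] := by
  have : NeZero (2 ^ j) := ⟨pow_ne_zero _ two_ne_zero⟩
  apply of_zmod
  have h1 : ∀ S : Finset (ZMod (2 ^ j))ˣ, (∀ u ∈ S, u ^ k = 1) → #S ≤ 2 := by
    intro S hS
    have h2 := ker_two (τ := 0) hk j S (fun u hu => by rw [pow_zero, one_mul]; exact hS u hu)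
    simpa using h2
  refine cover_of_ker hk.pos (by norm_num) h1 ?_ (a : ZMod (2 ^ j))
  rw [Nat.totient_prime_pow Nat.prime_two hj]
  have hpj : 2 ^ j = 2 ^ (j - 1) * 2 := by rw [← pow_succ, Nat.sub_add_cancel hj]
  rw [hpj]
  calc 2 ^ (j - 1) * 2 * 2 = 4 * (2 ^ (j - 1) * (2 - 1)) := by ring
    _ ≤ s * (2 ^ (j - 1) * (2 - 1)) := Nat.mul_le_mul_right _ hs

/-! ### Fourth powers -/

theorem fourth_lift {n : ℤ} (hn : 16 ∣ n - 1) (f : ℕ) : ∃ x : ℤ, Odd x ∧ 16 * 2 ^ f ∣ x ^ 4 - n := by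
  induction f with
  | zero =>
    refine ⟨1, odd_one, ?_⟩
    rw [pow_zero, mul_one, one_pow]
    obtain ⟨t, ht⟩ := hn
    exact ⟨-t, by linarith⟩
  | succ f ih =>
    obtain ⟨x, hx, t, ht⟩ := ih
    rcases Int.even_or_odd t with ⟨u, hu⟩ | ⟨u, hu⟩
    · exact ⟨x, hx, u, by rw [ht, hu]; ring⟩
    · obtain ⟨v, hv⟩ := hx
      refine ⟨x + 4 * 2 ^ f, ?_, ?_⟩
      · refine ⟨v + 2 * 2 ^ f, by rw [hv]; ring⟩
      · have h3 : Odd (x ^ 3) := Odd.pow ⟨v, hv⟩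
        obtain ⟨w, hw⟩ := h3
        refine ⟨u + w + 1 + 3 * 2 ^ f * x ^ 2 + 8 * 2 ^ (2 * f) * x + 8 * 2 ^ (3 * f), ?_⟩
        have e1 : (2 : ℤ) ^ (2 * f) = (2 ^ f) ^ 2 := by rw [mul_comm, pow_mul]
        have e2 : (2 : ℤ) ^ (3 * f) = (2 ^ f) ^ 3 := by rw [mul_comm, pow_mul]
        rw [e1, e2, pow_succ (2 : ℤ) f]
        set P : ℤ := 2 ^ f with hP
        have h4 : (x + 4 * P) ^ 4 - n = (x ^ 4 - n) + 16 * P * x ^ 3 + 96 * P ^ 2 * x ^ 2 + 256 * P ^ 3 * x + 256 * P ^ 4 := by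
          ring
        rw [h4, ht, hu, hw]
        ring

theorem fourth_two (j : ℕ) : ∀ a : ℤ, SumMod (2 ^ j) 4 15 a := by
  induction j using Nat.strong_induction_on with
  | _ j ih =>
    intro a
    by_cases h : 16 ∣ a
    · obtain ⟨b, hb⟩ := h
      by_cases hj : j ≤ 4
      · refine (SumMod.zero.mono (by norm_num) (Nat.zero_le _)).congr ?_
        rw [zero_sub, dvd_neg, hb]
        have h1 : (2 : ℤ) ^ j ∣ 2 ^ 4 := pow_dvd_pow 2 hj
        exact (h1.trans (by norm_num)).mul_right b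
      · obtain ⟨x, hx⟩ := ih (j - 4) (by omega) b
        refine ⟨fun i => 2 * x i, ?_⟩
        have e1 : (2 : ℤ) ^ j = 16 * 2 ^ (j - 4) := by
          rw [show (16 : ℤ) = 2 ^ 4 by norm_num, ← pow_add]
          congr 1
          omega
        have e2 : ∑ i, (2 * x i) ^ 4 - a = 16 * (∑ i, x i ^ 4 - b) := by
          rw [hb, mul_sub, mul_sum]
          congr 1
          exact sum_congr rfl fun i _ => by ring
        rw [e1, e2]
        exact mul_dvd_mul_left 16 hx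
    · obtain ⟨t, ht1, ht2, ht3⟩ : ∃ t : ℕ, 1 ≤ t ∧ t ≤ 15 ∧ (16 : ℤ) ∣ a - t := by
        refine ⟨(a % 16).toNat, ?_, ?_, ?_⟩ <;> omega
      obtain ⟨x, _, hx⟩ := fourth_lift (n := a - (t - 1 : ℕ)) (by
        have : ((t - 1 : ℕ) : ℤ) = t - 1 := by push_cast [ht1]; ring
        rw [this]
        have e : a - ((t : ℤ) - 1) - 1 = a - t := by ring
        rwa [e]) j
      have h1 : SumMod (2 ^ j) 4 (0 + 1) (0 + x ^ 4) := SumMod.zero.succ x
      have h2 := (h1.ones (t - 1)).mono (s' := 15) (by norm_num) (by omega)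
      refine h2.congr ?_
      have e : 0 + x ^ 4 + ((t - 1 : ℕ) : ℤ) - a = x ^ 4 - (a - (t - 1 : ℕ)) := by ring
      rw [e]
      exact (dvd_mul_left _ _).trans hx

theorem loc_fourth : Loc 4 15 := by
  apply loc_crt
  intro p j hp hj a
  by_cases hp2 : p = 2
  · subst hp2
    apply SumMod.nat (Nat.one_le_two_pow)
    have := fourth_two j (a : ℤ)
    push_cast
    exact this
  · apply loc_odd hp hp2 (by norm_num) hj
    have h3 : 3 ≤ p := by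
      have := hp.two_le
      omega
    omega

/-! ### `k = 3 ^ j` -/

theorem three_step (j m : ℕ) (x t : ℤ) : (3 : ℤ) ^ (m + 1 + j + 1) ∣
    (x + 3 ^ (m + 1) * t) ^ 3 ^ j - (x ^ 3 ^ j + 3 ^ (m + 1 + j) * (x ^ (3 ^ j - 1) * t)) := by
  induction j with
  | zero => simp
  | succ j ih =>
    obtain ⟨w, hw⟩ := ih
    have h1 : (x + 3 ^ (m + 1) * t) ^ 3 ^ j = x ^ 3 ^ j + 3 ^ (m + 1 + j) * (x ^ (3 ^ j - 1) * t + 3 * w) := by
      have e : (3 : ℤ) ^ (m + 1 + j + 1) = 3 ^ (m + 1 + j) * 3 := pow_succ _ _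
      rw [e] at hw
      linarith
    have h2 : (x + 3 ^ (m + 1) * t) ^ 3 ^ (j + 1) = ((x + 3 ^ (m + 1) * t) ^ 3 ^ j) ^ 3 := by
      rw [pow_succ 3 j, pow_mul]
    have h3 : x ^ 3 ^ (j + 1) = (x ^ 3 ^ j) ^ 3 := by rw [pow_succ 3 j, pow_mul]
    have h4 : x ^ (3 ^ (j + 1) - 1) = (x ^ 3 ^ j) ^ 2 * x ^ (3 ^ j - 1) := by
      rw [← pow_mul, ← pow_add]
      congr 1
      have : 1 ≤ 3 ^ j := Nat.one_le_pow _ _ (by norm_num)
      rw [pow_succ]
      omega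
    rw [h2, h1, h3, h4]
    set A := x ^ 3 ^ j with hA
    set B := x ^ (3 ^ j - 1) with hB
    have e1 : (3 : ℤ) ^ (m + 1 + (j + 1) + 1) = 3 * 3 * (3 * 3 ^ (m + j)) := by ring
    have e2 : (3 : ℤ) ^ (m + 1 + j) = 3 * 3 ^ (m + j) := by ring
    have e3 : (3 : ℤ) ^ (m + 1 + (j + 1)) = 3 * (3 * 3 ^ (m + j)) := by ring
    rw [e1, e2, e3]
    set P : ℤ := 3 ^ (m + j) with hP
    refine ⟨A ^ 2 * w + P * A * (B * t + 3 * w) ^ 2 + P ^ 2 * (B * t + 3 * w) ^ 3, ?_⟩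
    ring

theorem three_lift (j : ℕ) {n : ℤ} (hn : (3 : ℤ) ^ (j + 1) ∣ n - 1) (m : ℕ) :
    ∃ x : ℤ, (3 : ℤ) ∣ x - 1 ∧ (3 : ℤ) ^ (m + 1 + j) ∣ x ^ 3 ^ j - n := by
  induction m with
  | zero =>
    refine ⟨1, by norm_num, ?_⟩
    rw [one_pow, ← dvd_neg, neg_sub]
    have e : 0 + 1 + j = j + 1 := by ring
    rw [e]
    exact hn
  | succ m ih =>
    obtain ⟨x, hx, t, ht⟩ := ih
    refine ⟨x + 3 ^ (m + 1) * (-t), ?_, ?_⟩
    · have e : x + 3 ^ (m + 1) * (-t) - 1 = (x - 1) + 3 * (3 ^ m * (-t)) := by ring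
      rw [e]
      exact dvd_add hx (dvd_mul_right _ _)
    · have h1 := three_step j m x (-t)
      have h2 : (3 : ℤ) ∣ x ^ (3 ^ j - 1) - 1 := by
        have h3 : x ≡ 1 [ZMOD 3] := (Int.modEq_iff_dvd.2 (by rw [← dvd_neg, neg_sub]; exact hx))
        have h4 := h3.pow (3 ^ j - 1)
        rw [one_pow] at h4
        have h5 := Int.modEq_iff_dvd.1 h4.symm
        exact h5
      obtain ⟨w, hw⟩ := h2
      have e : (3 : ℤ) ^ (m + 1 + 1 + j) = 3 ^ (m + 1 + j + 1) := by ring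
      rw [e]
      have e2 : (x + 3 ^ (m + 1) * (-t)) ^ 3 ^ j - n =
          ((x + 3 ^ (m + 1) * (-t)) ^ 3 ^ j - (x ^ 3 ^ j + 3 ^ (m + 1 + j) * (x ^ (3 ^ j - 1) * (-t)))) +
          3 ^ (m + 1 + j + 1) * (-(w * t)) := by
        have e3 : (3 : ℤ) ^ (m + 1 + j + 1) = 3 ^ (m + 1 + j) * 3 := pow_succ _ _
        have e4 : x ^ (3 ^ j - 1) = 1 + 3 * w := by linarith
        have e5 : n = x ^ 3 ^ j - 3 ^ (m + 1 + j) * t := by linarith
        rw [e3, e4, e5]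
        ring
      rw [e2]
      exact dvd_add h1 (dvd_mul_right _ _)

theorem three_sum {j e s : ℕ} (hj : 1 ≤ j) (hs : 3 * 3 ^ j ≤ 2 * s + 1) (n : ℤ) : SumMod (3 ^ e) (3 ^ j) s n := by
  obtain ⟨a, ha⟩ : ∃ a, 3 ^ (j + 1) = 2 * a + 1 := by
    have h1 : Odd (3 ^ (j + 1)) := Odd.pow (by decide)
    exact h1
  have ha' : (3 : ℤ) ^ (j + 1) = 2 * a + 1 := by exact_mod_cast ha
  have has : a ≤ s := by
    have : 3 ^ (j + 1) = 3 * 3 ^ j := by ring
    omega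
  have ha4 : 4 ≤ a := by
    have h1 : 3 ^ 2 ≤ 3 ^ (j + 1) := Nat.pow_le_pow_right (by norm_num) (by omega)
    omega
  have hodd : Odd (3 ^ j) := Odd.pow (by decide)
  have hk1 : 1 ≤ 3 ^ j := hodd.pos
  have hde : (3 : ℤ) ^ e ∣ 3 ^ (e + 1 + j) := pow_dvd_pow 3 (by omega)
  -- a residue of absolute value at most `a`
  obtain ⟨t, ht, ht1, ht2⟩ : ∃ t : ℤ, (3 : ℤ) ^ (j + 1) ∣ n - t ∧ -a ≤ t ∧ t ≤ a := by
    rw [ha']
    by_cases h : n % (2 * a + 1) ≤ a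
    · refine ⟨n % (2 * a + 1), Int.dvd_self_sub_emod, ?_, h⟩
      have := Int.emod_nonneg n (show (2 * (a : ℤ) + 1) ≠ 0 by omega)
      omega
    · refine ⟨n % (2 * a + 1) - (2 * a + 1), ?_, ?_, ?_⟩
      · have e1 : n - (n % (2 * a + 1) - (2 * a + 1)) = (n - n % (2 * a + 1)) + (2 * a + 1) := by ring
        rw [e1]
        exact dvd_add Int.dvd_self_sub_emod dvd_rfl
      · omega
      · have := Int.emod_lt_of_pos n (show (0 : ℤ) < 2 * (a : ℤ) + 1 by omega)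
        omega
  rcases lt_trichotomy t 0 with h | h | h
  · -- negative
    obtain ⟨u, hu⟩ : ∃ u : ℕ, (u : ℤ) = -t - 1 := ⟨(-t - 1).toNat, by omega⟩
    obtain ⟨x, _, hx⟩ := three_lift j (n := -(n + u)) (by
      have e1 : -(n + (u : ℤ)) - 1 = -(n - t) := by rw [hu]; ring
      rw [e1, dvd_neg]
      exact ht) e
    have h1 : SumMod (3 ^ e) (3 ^ j) (0 + 1) (0 + (-x) ^ 3 ^ j) := SumMod.zero.succ (-x)
    have h2 := (h1.neg_ones hodd u).mono (s' := s) hk1 (by omega)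
    refine h2.congr ?_
    rw [hodd.neg_pow]
    have e1 : 0 + -x ^ 3 ^ j - (u : ℤ) - n = -(x ^ 3 ^ j - -(n + u)) := by ring
    rw [e1, dvd_neg]
    exact hde.trans hx
  · -- zero
    subst h
    obtain ⟨x, _, hx⟩ := three_lift j (n := n + 1) (by
      have e1 : n + 1 - 1 = n - 0 := by ring
      rw [e1]
      exact ht) e
    have h1 : SumMod (3 ^ e) (3 ^ j) (0 + 1) (0 + x ^ 3 ^ j) := SumMod.zero.succ x
    have h2 := (h1.neg_ones hodd 1).mono (s' := s) hk1 (by omega)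
    refine h2.congr ?_
    have e1 : 0 + x ^ 3 ^ j - ((1 : ℕ) : ℤ) - n = x ^ 3 ^ j - (n + 1) := by push_cast; ring
    rw [e1]
    exact hde.trans hx
  · obtain ⟨u, hu⟩ : ∃ u : ℕ, (u : ℤ) = t - 1 := ⟨(t - 1).toNat, by omega⟩
    obtain ⟨x, _, hx⟩ := three_lift j (n := n - u) (by
      have e1 : n - (u : ℤ) - 1 = n - t := by rw [hu]; ring
      rw [e1]
      exact ht) e
    have h1 : SumMod (3 ^ e) (3 ^ j) (0 + 1) (0 + x ^ 3 ^ j) := SumMod.zero.succ x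
    have h2 := (h1.ones u).mono (s' := s) hk1 (by omega)
    refine h2.congr ?_
    have e1 : 0 + x ^ 3 ^ j + (u : ℤ) - n = x ^ 3 ^ j - (n - u) := by ring
    rw [e1]
    exact hde.trans hx

theorem loc_three {j s : ℕ} (hj : 1 ≤ j) (hs : 3 * 3 ^ j ≤ 2 * s + 1) : Loc (3 ^ j) s := by
  have hodd : Odd (3 ^ j) := Odd.pow (by decide)
  have h3j : 3 ^ 1 ≤ 3 ^ j := Nat.pow_le_pow_right (by norm_num) hj
  apply loc_crt
  intro p e hp he a
  by_cases hp2 : p = 2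
  · subst hp2
    exact loc_two_odd hodd he (by omega) a
  by_cases hp3 : p = 3
  · subst hp3
    apply SumMod.nat (Nat.one_le_pow _ _ (by norm_num))
    have := three_sum (e := e) hj hs (a : ℤ)
    push_cast
    exact this
  · apply loc_odd hp hp2 hodd.pos he
    have h5 : 5 ≤ p := by
      have h2 := hp.two_le
      have h4 : p ≠ 4 := by
        rintro rfl
        exact absurd hp (by norm_num)
      omega
    obtain ⟨q, rfl⟩ : ∃ q, p = q + 1 := ⟨p - 1, by omega⟩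
    rw [Nat.add_sub_cancel]
    have h6 : 4 * ((q + 1) * 3 ^ j) ≤ 4 * (s * q) := by
      calc 4 * ((q + 1) * 3 ^ j) = (4 * (q + 1)) * 3 ^ j := by ring
        _ ≤ (5 * q) * 3 ^ j := Nat.mul_le_mul_right _ (by omega)
        _ = q * (5 * 3 ^ j) := by ring
        _ ≤ q * (4 * s) := Nat.mul_le_mul_left _ (by omega)
        _ = 4 * (s * q) := by ring
    omega

/-! ### `k = 2 * 3 ^ j` -/

theorem not_loc_two_three {j s : ℕ} (hj : 1 ≤ j) (hs : s < 3 ^ (j + 1)) : ¬ Loc (2 * 3 ^ j) s := by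
  intro h
  obtain ⟨x, hx⟩ := h (3 ^ (j + 2)) (Nat.one_le_pow _ _ (by norm_num)) (3 ^ (j + 1))
  have hjk : j + 2 ≤ 2 * 3 ^ j := by
    have h1 : j < 3 ^ j := Nat.lt_pow_self (by norm_num)
    omega
  have hpow : ∀ i, (x i) ^ (2 * 3 ^ j) ≡ (if 3 ∣ x i then 0 else 1) [MOD 3 ^ (j + 1)] := by
    intro i
    split_ifs with h3
    · rw [Nat.modEq_zero_iff_dvd]
      exact (pow_dvd_pow 3 (by omega)).trans (pow_dvd_pow_of_dvd h3 _)
    · have h4 : (3 : ℤ) ∣ ((x i : ℕ) : ℤ) ^ 2 - 1 := by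
        have h5 : ((x i : ℕ) : ℤ) % 3 = 1 ∨ ((x i : ℕ) : ℤ) % 3 = 2 := by omega
        have h6 : ((x i : ℕ) : ℤ) ^ 2 - 1 = (((x i : ℕ) : ℤ) - 1) * (((x i : ℕ) : ℤ) + 1) := by ring
        rw [h6]
        rcases h5 with h5 | h5
        · exact Dvd.dvd.mul_right (by omega) _
        · exact Dvd.dvd.mul_left (by omega) _
      have h5 := three_pow h4 j
      rw [one_pow, ← pow_mul] at h5
      apply Nat.ModEq.symm
      rw [Nat.modEq_iff_dvd]
      push_cast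
      exact h5
  have hsum : (∑ i, (x i) ^ (2 * 3 ^ j)) ≡ ∑ i, (if 3 ∣ x i then 0 else 1) [MOD 3 ^ (j + 1)] :=
    Nat.ModEq.sum fun i _ => hpow i
  have hle : ∑ i, (if 3 ∣ x i then 0 else 1) ≤ s := by
    calc ∑ i, (if 3 ∣ x i then 0 else 1) ≤ ∑ _i : Fin s, 1 := sum_le_sum fun i _ => by split_ifs <;> omega
      _ = s := by simp
  have hx3 : (∑ i, (x i) ^ (2 * 3 ^ j)) ≡ 3 ^ (j + 1) [MOD 3 ^ (j + 1)] := hx.of_dvd (pow_dvd_pow 3 (by omega))
  have hx4 := hx3.trans (Nat.modEq_zero_iff_dvd.2 dvd_rfl)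
  have h1 := hsum.symm.trans hx4
  have h2 := Nat.ModEq.eq_of_lt_of_lt h1 (by omega) (by positivity)
  have h3 : ∀ i, 3 ∣ x i := by
    intro i
    by_contra hi
    have h4 : (if 3 ∣ x i then 0 else 1) ≤ ∑ i, (if 3 ∣ x i then 0 else 1) :=
      single_le_sum (f := fun i => if 3 ∣ x i then 0 else 1) (fun _ _ => Nat.zero_le _) (mem_univ i)
    rw [if_neg hi, h2] at h4
    omega
  have h4 : 3 ^ (j + 2) ∣ ∑ i, (x i) ^ (2 * 3 ^ j) := by
    apply dvd_sum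
    intro i _
    exact (pow_dvd_pow 3 hjk).trans (pow_dvd_pow_of_dvd (h3 i) _)
  have h5 := (Nat.modEq_zero_iff_dvd.2 h4).symm.trans hx
  have h6 := Nat.ModEq.eq_of_lt_of_lt h5 (by positivity) (Nat.pow_lt_pow_right (by norm_num) (by omega))
  have h7 : 0 < 3 ^ (j + 1) := by positivity
  omega

theorem not_loc_squares : ¬ Loc 2 3 := by
  intro h
  obtain ⟨x, hx⟩ := h 8 (by norm_num) 7
  have h1 : ((x 0 : ZMod 8)) ^ 2 + (x 1 : ZMod 8) ^ 2 + (x 2 : ZMod 8) ^ 2 = 7 := by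
    have h2 := (ZMod.natCast_eq_natCast_iff _ _ 8).2 hx
    rw [Fin.sum_univ_three] at h2
    push_cast at h2
    exact h2
  have h2 : ∀ a b c : ZMod 8, a ^ 2 + b ^ 2 + c ^ 2 ≠ 7 := by decide
  exact h2 _ _ _ h1

theorem loc_mono {k s s' : ℕ} (hk : 1 ≤ k) (h : Loc k s) (hs : s ≤ s') : Loc k s' := by
  intro Q hQ a
  obtain ⟨x, hx⟩ := h Q hQ a
  obtain ⟨d, rfl⟩ := Nat.exists_eq_add_of_le hs
  refine ⟨Fin.append x (fun _ => 0), ?_⟩
  rw [Fin.sum_univ_add]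
  simp only [Fin.append_left, Fin.append_right]
  rw [sum_eq_zero (fun i _ => zero_pow (by omega) : ∀ i ∈ (univ : Finset (Fin d)), (0 : ℕ) ^ k = 0), add_zero]
  exact hx

end Pool.Agent.U416.WR
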