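import Pool.Agent.U416.WR.Count

/-! A set of positive lower density plus `r + 1` powers has density one; two sets of positive lower density. -/

set_option autoImplicit false

namespace Pool.Agent.U416.WR

open Finset Filter Topology

theorem exists_X {k : ℕ} (hk : 1 ≤ k) (N : ℕ) : ∃ X : ℕ, N ≤ X ^ k ∧ ∀ Y, Y < X → Y ^ k < N := by
  classical
  have h : ∃ X : ℕ, N ≤ X ^ k := ⟨N, Nat.le_self_pow (by omega) N⟩
  refine ⟨Nat.find h, Nat.find_spec h, fun Y hY => ?_⟩
  have := Nat.find_min h hY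
  omega

open Classical in
theorem dens {k r : ℕ} (hk : 1 ≤ k) (hloc : Loc k r) {B : Set ℕ} {c : ℝ} (hc : 0 < c) (hB : LD c B)
    {η : ℝ} (hη : 0 < η) (hη1 : η ≤ 1) :
    ∀ᶠ N : ℕ in atTop, (#((range N).filter (· ∉ plus B k (r + 1))) : ℝ) ≤ η * N := by
  have hkr : (0 : ℝ) < k := by exact_mod_cast hk
  set lam : ℝ := c * η / (k * 2 ^ (2 * k + 4)) with hlam
  have hlam0 : 0 < lam := by positivity
  set δ : ℝ := min 1 (min (lam * η / 4) (η / 2 ^ (k + 3))) with hδ
  have hδ0 : 0 < δ := lt_min one_pos (lt_min (by positivity) (by positivity))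
  have hδ1 : δ ≤ 1 := min_le_left _ _
  have hδ2 : δ ≤ lam * η / 4 := (min_le_right _ _).trans (min_le_left _ _)
  have hδ3 : δ ≤ η / 2 ^ (k + 3) := (min_le_right _ _).trans (min_le_right _ _)
  obtain ⟨Q, hQ1, κ, hκ, hQκ, hsm⟩ := smooth k hk δ hδ0 hδ1
  have hQ0 : (0 : ℝ) < Q := by exact_mod_cast hQ1
  obtain ⟨n1, hn1⟩ := eventually_atTop.1 (class_dense hloc hc hB Q hQ1)
  obtain ⟨X0, hX0⟩ := exists_nat_gt (k * 2 ^ (k + 1) / κ)
  obtain ⟨N1, hN1⟩ := exists_nat_gt ((8 * (Q : ℝ) ^ k + 4 * n1 + 4) / η)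
  filter_upwards [eventually_gt_atTop ((X0 + Q + 2) ^ k), eventually_ge_atTop N1] with N hNX hNN1
  have hNr : (8 * (Q : ℝ) ^ k + 4 * n1 + 4) / η < N := lt_of_lt_of_le hN1 (by exact_mod_cast hNN1)
  rw [div_lt_iff₀ hη] at hNr
  have hN0 : (0 : ℝ) < N := by
    have : (0 : ℝ) < N * η := lt_of_le_of_lt (by positivity) hNr
    exact pos_of_mul_pos_left this hη.le
  obtain ⟨X, hXN, hXmin⟩ := exists_X hk N
  have hXbig : X0 + Q + 2 < X := by
    by_contra hcon
    push Not at hcon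
    have := Nat.pow_le_pow_left hcon k
    omega
  have hX1 : 1 ≤ X := by omega
  have hXr : (0 : ℝ) < X := by exact_mod_cast hX1
  have hXN' : (X : ℝ) ^ k ≤ 2 ^ k * N := by
    have h1 : X ^ k ≤ (2 * (X - 1)) ^ k := Nat.pow_le_pow_left (by omega) k
    have h2 : (X - 1) ^ k < N := hXmin _ (by omega)
    have h3 : X ^ k ≤ 2 ^ k * N := by
      calc X ^ k ≤ (2 * (X - 1)) ^ k := h1
        _ = 2 ^ k * (X - 1) ^ k := mul_pow _ _ _
        _ ≤ 2 ^ k * N := Nat.mul_le_mul_left _ h2.le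
    exact_mod_cast h3
  have hκX : k * 2 ^ (k + 1) ≤ κ * X := by
    have h1 : (X0 : ℝ) ≤ X := by exact_mod_cast (show X0 ≤ X by omega)
    have h2 : k * 2 ^ (k + 1) / κ < X := lt_of_lt_of_le hX0 h1
    rw [div_lt_iff₀ hκ] at h2
    linarith
  have hκX1 : 1 ≤ κ * (X : ℝ) ^ k := by
    have h1 : (X : ℝ) ≤ (X : ℝ) ^ k := le_self_pow₀ (by exact_mod_cast hX1) (by omega)
    have h2 : κ * X ≤ κ * (X : ℝ) ^ k := mul_le_mul_of_nonneg_left h1 hκ.le
    have h3 : (1 : ℝ) ≤ k * 2 ^ (k + 1) := by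
      have h4 : (1 : ℝ) ≤ k := by exact_mod_cast hk
      have h5 : (1 : ℝ) ≤ 2 ^ (k + 1) := one_le_pow₀ (by norm_num)
      exact one_le_mul_of_one_le_of_one_le h4 h5
    linarith
  set U := ⌊κ * (X : ℝ) ^ k⌋₊ with hU
  have hU1 : 1 ≤ U := Nat.le_floor (by exact_mod_cast hκX1)
  have hUle : (U : ℝ) ≤ κ * (X : ℝ) ^ k := Nat.floor_le (by positivity)
  have hUge : κ * (X : ℝ) ^ k / 2 ≤ U := by
    have h1 : κ * (X : ℝ) ^ k < U + 1 := Nat.lt_floor_add_one _
    have h2 : (1 : ℝ) ≤ U := by exact_mod_cast hU1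
    linarith
  have hUr : (0 : ℝ) < U := by exact_mod_cast hU1
  have hUc : (U : ℂ) ≠ 0 := by exact_mod_cast hUr.ne'
  have hQU : (Q : ℝ) * U ≤ η * N / 8 := by
    calc (Q : ℝ) * U ≤ Q * (κ * (X : ℝ) ^ k) := mul_le_mul_of_nonneg_left hUle hQ0.le
      _ = (Q * κ) * (X : ℝ) ^ k := by ring
      _ ≤ (η / 2 ^ (k + 3)) * (2 ^ k * N) := mul_le_mul (hQκ.trans hδ3) hXN' (by positivity) (by positivity)
      _ = η * N / 8 := by
        rw [pow_add]
        field_simp
        norm_num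
  have hQk : ((Q : ℝ)) ^ k ≤ η * N / 8 := by
    have h1 : (0 : ℝ) ≤ n1 := by positivity
    linarith
  -- the function
  set B' := plus B k r with hB'
  set M := N + X ^ k + Q * U + 1 with hM
  have : NeZero M := ⟨by omega⟩
  set f : ZMod M → ℂ := fun z => if z.val < N ∧ z.val ∈ B' then 1 else 0 with hf
  have hfval : ∀ n : ℕ, n < N → ∀ a : ℕ, a ≤ X ^ k + Q * U → f ((n : ZMod M) - (a : ZMod M)) =
      if a ≤ n ∧ n - a ∈ B' then 1 else 0 := by
    intro n hn a ha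
    by_cases han : a ≤ n
    · have h1 : ((n : ZMod M) - (a : ZMod M)) = ((n - a : ℕ) : ZMod M) := by rw [Nat.cast_sub han]
      rw [hf]
      simp only
      rw [h1, ZMod.val_natCast_of_lt (by omega)]
      have h2 : n - a < N := by omega
      simp only [h2, true_and, han]
    · have h1 : ((n : ZMod M) - (a : ZMod M)) = ((M + n - a : ℕ) : ZMod M) := by
        rw [Nat.cast_sub (by omega)]
        push_cast
        rw [ZMod.natCast_self]
        ring
      rw [hf]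
      simp only
      rw [h1, ZMod.val_natCast_of_lt (by omega)]
      have h2 : ¬ (M + n - a < N) := by omega
      simp only [h2, false_and, han]
  have hsmall : ∑ z, ‖f z‖ ^ 2 ≤ (N : ℝ) := by
    have h1 : ∀ z : ZMod M, ‖f z‖ ^ 2 = if z.val < N ∧ z.val ∈ B' then (1 : ℝ) else 0 := by
      intro z
      rw [hf]
      simp only
      split_ifs <;> simp
    rw [sum_congr rfl fun z _ => h1 z, sum_boole]
    have h2 : #((univ : Finset (ZMod M)).filter (fun z => z.val < N ∧ z.val ∈ B')) ≤ #(range N) := by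
      apply card_le_card_of_injOn (fun z : ZMod M => z.val)
      · intro z hz
        rw [mem_coe, mem_filter] at hz
        exact mem_coe.2 (mem_range.2 hz.2.1)
      · intro z _ z' _ h
        exact ZMod.val_injective M h
    rw [card_range] at h2
    exact_mod_cast h2
  have hmain := hsm X U M hX1 hU1 hUle f
  set E : ZMod M → ℂ := fun n => ∑ x ∈ range X, (f (n - ((x ^ k : ℕ) : ZMod M)) -
        (1 / (U : ℂ)) * ∑ u ∈ range U, f (n - ((x ^ k : ℕ) : ZMod M) - ((Q * u : ℕ) : ZMod M))) with hE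
  set Exc := (range N).filter (fun n => n ∉ plus B k (r + 1) ∧ η * N / 2 ≤ (n : ℝ)) with hExc
  have hlow : ∀ n ∈ Exc, lam * X ≤ ‖E ((n : ℕ) : ZMod M)‖ := by
    intro n hn
    rw [hExc, mem_filter, mem_range] at hn
    obtain ⟨hnN, hnB, hnη⟩ := hn
    set T := ((range X) ×ˢ (range U)).filter (fun p => p.1 ^ k + Q * p.2 ≤ n ∧ n - (p.1 ^ k + Q * p.2) ∈ B') with hT
    have hEn : E ((n : ℕ) : ZMod M) = - ((1 / (U : ℂ)) * (#T : ℂ)) := by
      have h1 : ∀ x ∈ range X, f (((n : ℕ) : ZMod M) - ((x ^ k : ℕ) : ZMod M)) = 0 := by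
        intro x hx
        have hxk : x ^ k ≤ X ^ k := Nat.pow_le_pow_left (mem_range.1 hx).le k
        rw [hfval n hnN _ (by omega)]
        rw [if_neg]
        rintro ⟨h2, h3⟩
        apply hnB
        obtain ⟨b, hb, y, hy⟩ := h3
        refine ⟨b, hb, Fin.snoc y x, ?_⟩
        rw [Fin.sum_univ_castSucc]
        simp only [Fin.snoc_castSucc, Fin.snoc_last]
        omega
      have h2 : ∀ x ∈ range X, ∀ u ∈ range U, f (((n : ℕ) : ZMod M) - ((x ^ k : ℕ) : ZMod M) - ((Q * u : ℕ) : ZMod M)) =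
          if x ^ k + Q * u ≤ n ∧ n - (x ^ k + Q * u) ∈ B' then 1 else 0 := by
        intro x hx u hu
        have hxk : x ^ k ≤ X ^ k := Nat.pow_le_pow_left (mem_range.1 hx).le k
        have huU : Q * u ≤ Q * U := Nat.mul_le_mul_left _ (mem_range.1 hu).le
        rw [← hfval n hnN (x ^ k + Q * u) (by omega)]
        congr 1
        push_cast
        ring
      rw [hE]
      simp only
      have h3 : ∀ x ∈ range X, (f (((n : ℕ) : ZMod M) - ((x ^ k : ℕ) : ZMod M)) -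
        (1 / (U : ℂ)) * ∑ u ∈ range U, f (((n : ℕ) : ZMod M) - ((x ^ k : ℕ) : ZMod M) - ((Q * u : ℕ) : ZMod M))) =
        - ((1 / (U : ℂ)) * ∑ u ∈ range U, (if x ^ k + Q * u ≤ n ∧ n - (x ^ k + Q * u) ∈ B' then 1 else 0)) := by
        intro x hx
        rw [h1 x hx, zero_sub, sum_congr rfl fun u hu => h2 x hx u hu]
      rw [sum_congr rfl h3, sum_neg_distrib, ← mul_sum]
      congr 2
      rw [← sum_product' (s := range X) (t := range U)
        (f := fun x u => (if x ^ k + Q * u ≤ n ∧ n - (x ^ k + Q * u) ∈ B' then (1 : ℂ) else 0)), sum_boole]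
    have hn' : Q * U + Q ^ k ≤ n := by
      have h1 : ((Q * U + Q ^ k : ℕ) : ℝ) ≤ n := by
        push_cast
        linarith
      exact_mod_cast h1
    have hn'r : η * N / 4 ≤ ((n - (Q * U + Q ^ k) : ℕ) : ℝ) := by
      rw [Nat.cast_sub hn']
      push_cast
      linarith
    have hn'1 : n1 ≤ n - (Q * U + Q ^ k) := by
      have h1 : (n1 : ℝ) ≤ ((n - (Q * U + Q ^ k) : ℕ) : ℝ) := by
        have h2 : (0 : ℝ) ≤ (Q : ℝ) ^ k := by positivity
        linarith
      exact_mod_cast h1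
    have hcp := count_pairs (k := k) (Q := Q) (n := n) (X := X) (U := U) hk hQ1 (by omega) (by omega) B'
      (n - (Q * U + Q ^ k)) (by omega) (c / (2 * Q) * (η * N / 4)) (κ * X / (k * 2 ^ (k + 1))) (by positivity)
      (by positivity)
      (fun a => (mul_le_mul_of_nonneg_left hn'r (by positivity)).trans (hn1 _ hn'1 a))
      (by
        intro cnt hcnt
        have h1 : U ≤ (cnt + 1) * (k * (2 * X) ^ (k - 1)) := by
          have h2 : Q * U ≤ Q * ((cnt + 1) * (k * (2 * X) ^ (k - 1))) := by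
            calc Q * U ≤ _ := hcnt
              _ = _ := by ring
          exact Nat.le_of_mul_le_mul_left h2 hQ1
        have h2 : (U : ℝ) ≤ (cnt + 1) * (k * (2 * X) ^ (k - 1)) := by exact_mod_cast h1
        have h3 : κ * (X : ℝ) ^ k / 2 ≤ (cnt + 1) * (k * (2 * X) ^ (k - 1)) := hUge.trans h2
        have h4 : (2 * (X : ℝ)) ^ (k - 1) * (2 * X) = 2 ^ k * (X : ℝ) ^ k := by
          rw [← pow_succ, Nat.sub_add_cancel hk, mul_pow]
        have h5 : κ * (X : ℝ) ^ k / 2 * (2 * X) ≤ (cnt + 1) * (k * (2 ^ k * (X : ℝ) ^ k)) := by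
          calc κ * (X : ℝ) ^ k / 2 * (2 * X) ≤ (cnt + 1) * (k * (2 * X) ^ (k - 1)) * (2 * X) :=
                mul_le_mul_of_nonneg_right h3 (by positivity)
            _ = (cnt + 1) * (k * ((2 * X) ^ (k - 1) * (2 * X))) := by ring
            _ = _ := by rw [h4]
        have h6 : κ * X ≤ (cnt + 1) * (k * 2 ^ k) := by
          have hXk : (0 : ℝ) < (X : ℝ) ^ k := by positivity
          have h7 : (κ * X) * (X : ℝ) ^ k ≤ ((cnt + 1) * (k * 2 ^ k)) * (X : ℝ) ^ k := by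
            calc (κ * X) * (X : ℝ) ^ k = κ * (X : ℝ) ^ k / 2 * (2 * X) := by ring
              _ ≤ _ := h5
              _ = _ := by ring
          exact le_of_mul_le_mul_right h7 hXk
        rw [div_le_iff₀ (by positivity)]
        have h8 : (2 : ℝ) ^ (k + 1) = 2 * 2 ^ k := by ring
        rw [h8] at hκX ⊢
        have h9 : (0 : ℝ) < k * 2 ^ k := by positivity
        nlinarith)
    have hT1 : Q * (c / (2 * Q) * (η * N / 4) * (κ * X / (k * 2 ^ (k + 1)))) = (c * η * X / (k * 2 ^ (k + 4))) * (κ * N) := by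
      rw [pow_add, pow_add]
      field_simp
      norm_num
    have hcp' : (c * η * X / (k * 2 ^ (k + 4))) * (κ * N) ≤ (#T : ℝ) := by
      rw [← hT1]
      exact hcp
    rw [hEn, norm_neg, norm_mul, norm_div, norm_one, Complex.norm_natCast, Complex.norm_natCast, one_div_mul_eq_div,
      le_div_iff₀ hUr]
    calc lam * X * U ≤ lam * X * (κ * (X : ℝ) ^ k) := mul_le_mul_of_nonneg_left hUle (by positivity)
      _ ≤ lam * X * (κ * (2 ^ k * N)) := by
          apply mul_le_mul_of_nonneg_left _ (by positivity)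
          exact mul_le_mul_of_nonneg_left hXN' hκ.le
      _ = (c * η * X / (k * 2 ^ (k + 4))) * (κ * N) := by
          rw [hlam, show 2 * k + 4 = k + (k + 4) by ring, pow_add 2 k (k + 4)]
          field_simp
      _ ≤ (#T : ℝ) := hcp'
  -- the exceptional set is small
  have hExcs : (#Exc : ℝ) * (lam * X) ^ 2 ≤ 4 * δ ^ 2 * (X : ℝ) ^ 2 * N := by
    have hinj : Set.InjOn (fun n : ℕ => (n : ZMod M)) (Exc : Set ℕ) := by
      intro a ha b hb hab
      have ha' : a < N := mem_range.1 (mem_filter.1 (mem_coe.1 ha)).1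
      have hb' : b < N := mem_range.1 (mem_filter.1 (mem_coe.1 hb)).1
      have h1 := (ZMod.natCast_eq_natCast_iff' a b M).1 hab
      rwa [Nat.mod_eq_of_lt (by omega), Nat.mod_eq_of_lt (by omega)] at h1
    calc (#Exc : ℝ) * (lam * X) ^ 2 = ∑ _n ∈ Exc, (lam * X) ^ 2 := by rw [sum_const, nsmul_eq_mul]
      _ ≤ ∑ n ∈ Exc, ‖E ((n : ℕ) : ZMod M)‖ ^ 2 :=
          sum_le_sum fun n hn => pow_le_pow_left₀ (by positivity) (hlow n hn) 2
      _ = ∑ z ∈ Exc.image (fun n : ℕ => (n : ZMod M)), ‖E z‖ ^ 2 :=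
          (sum_image (f := fun z : ZMod M => ‖E z‖ ^ 2) hinj).symm
      _ ≤ ∑ z, ‖E z‖ ^ 2 := sum_le_sum_of_subset_of_nonneg (subset_univ _) fun _ _ _ => by positivity
      _ ≤ 4 * δ ^ 2 * (X : ℝ) ^ 2 * ∑ z, ‖f z‖ ^ 2 := hmain
      _ ≤ 4 * δ ^ 2 * (X : ℝ) ^ 2 * N := mul_le_mul_of_nonneg_left hsmall (by positivity)
  have hExcs' : (#Exc : ℝ) ≤ η * N / 4 := by
    have h1 : 4 * δ ^ 2 ≤ lam ^ 2 * (η / 4) := by
      have h2 : δ ^ 2 ≤ (lam * η / 4) ^ 2 := pow_le_pow_left₀ hδ0.le hδ2 2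
      have h3 : (lam * η / 4) ^ 2 = lam ^ 2 * η ^ 2 / 16 := by ring
      have h4 : η ^ 2 ≤ η := by nlinarith
      have h5 : 0 < lam ^ 2 := by positivity
      nlinarith
    have h2 : (#Exc : ℝ) * (lam * X) ^ 2 ≤ (η * N / 4) * (lam * X) ^ 2 := by
      calc (#Exc : ℝ) * (lam * X) ^ 2 ≤ 4 * δ ^ 2 * (X : ℝ) ^ 2 * N := hExcs
        _ ≤ (lam ^ 2 * (η / 4)) * (X : ℝ) ^ 2 * N := by
            apply mul_le_mul_of_nonneg_right _ hN0.le
            exact mul_le_mul_of_nonneg_right h1 (by positivity)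
        _ = _ := by ring
    exact le_of_mul_le_mul_right h2 (by positivity)
  have hsub : (range N).filter (· ∉ plus B k (r + 1)) ⊆ Exc ∪ range ⌈η * N / 2⌉₊ := by
    intro n hn
    rw [mem_filter] at hn
    rw [mem_union, hExc, mem_filter]
    by_cases h : η * N / 2 ≤ (n : ℝ)
    · left
      exact ⟨hn.1, hn.2, h⟩
    · right
      push Not at h
      exact mem_range.2 (Nat.lt_ceil.2 h)
  have hcard : #((range N).filter (· ∉ plus B k (r + 1))) ≤ #Exc + ⌈η * N / 2⌉₊ := by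
    calc _ ≤ #(Exc ∪ range ⌈η * N / 2⌉₊) := card_le_card hsub
      _ ≤ #Exc + #(range ⌈η * N / 2⌉₊) := card_union_le _ _
      _ = _ := by rw [card_range]
  have hcr : (#((range N).filter (· ∉ plus B k (r + 1))) : ℝ) ≤ #Exc + ⌈η * N / 2⌉₊ := by exact_mod_cast hcard
  have hceil : (⌈η * N / 2⌉₊ : ℝ) < η * N / 2 + 1 := Nat.ceil_lt_add_one (by positivity)
  have h1 : (1 : ℝ) ≤ η * N / 4 := by
    have h2 : (0 : ℝ) ≤ (Q : ℝ) ^ k := by positivity
    have h3 : (0 : ℝ) ≤ n1 := by positivity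
    linarith
  linarith

/-- **Two sets of positive lower density.** -/
theorem two {k r : ℕ} (hk : 1 ≤ k) (hloc : Loc k r) {B₁ B₂ : Set ℕ} {c₁ c₂ : ℝ} (hc₁ : 0 < c₁) (hc₂ : 0 < c₂)
    (hB₁ : LD c₁ B₁) (hB₂ : LD c₂ B₂) :
    ∀ᶠ n : ℕ in atTop, ∃ b₁ ∈ B₁, ∃ b₂ ∈ B₂, ∃ x : Fin (r + 1) → ℕ, n = b₁ + b₂ + ∑ i, x i ^ k := by
  classical
  have hη : 0 < min 1 c₂ / 2 := by
    have : 0 < min 1 c₂ := lt_min one_pos hc₂
    positivity
  have hη1 : min 1 c₂ / 2 ≤ 1 := by
    have : min 1 c₂ ≤ 1 := min_le_left _ _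
    linarith
  have hη2 : min 1 c₂ / 2 < c₂ := by
    have : min 1 c₂ ≤ c₂ := min_le_right _ _
    linarith
  obtain ⟨N1, hN1⟩ := eventually_atTop.1 (dens hk hloc hc₁ hB₁ hη hη1)
  obtain ⟨N2, hN2⟩ := eventually_atTop.1 (ld_card hB₂)
  filter_upwards [eventually_ge_atTop (max N1 N2)] with n hn
  have h1 := hN1 (n + 1) (by omega)
  have h2 := hN2 (n + 1) (by omega)
  by_contra hcon
  push Not at hcon
  have h3 : #((range (n + 1)).filter (· ∈ B₂)) ≤ #((range (n + 1)).filter (· ∉ plus B₁ k (r + 1))) := by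
    apply card_le_card_of_injOn (fun b => n - b)
    · intro b hb
      rw [mem_coe, mem_filter, mem_range] at hb
      simp only [mem_coe, mem_filter, mem_range]
      refine ⟨by omega, ?_⟩
      rintro ⟨b₁, hb₁, x, hx⟩
      exact hcon b₁ hb₁ b hb.2 x (by omega)
    · intro b hb b' hb' h
      rw [mem_coe, mem_filter, mem_range] at hb hb'
      simp only at h
      omega
  have h4 : (#((range (n + 1)).filter (· ∈ B₂)) : ℝ) ≤ #((range (n + 1)).filter (· ∉ plus B₁ k (r + 1))) := by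
    exact_mod_cast h3
  have h5 : (0 : ℝ) < ((n + 1 : ℕ) : ℝ) := by positivity
  have h6 : min 1 c₂ / 2 * ((n + 1 : ℕ) : ℝ) < c₂ * ((n + 1 : ℕ) : ℝ) := mul_lt_mul_of_pos_right hη2 h5
  linarith

end Pool.Agent.U416.WR
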