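import Mathlib

/-! Dense unions of residue classes modulo a prime `p` and powers with exponent `p - 1`. -/

set_option autoImplicit false

namespace Pool.Agent.U416.WR

open Finset

theorem sum_mod_le {ι : Type} (s : Finset ι) (f : ι → ℕ) (p : ℕ) :
    (∑ i ∈ s, f i) % p ≤ ∑ i ∈ s, f i % p := by
  rw [sum_nat_mod]
  exact Nat.mod_le _ _

theorem pow_mod_le {p : ℕ} (hp : p.Prime) (x : ℕ) : x ^ (p - 1) % p ≤ 1 := by
  by_cases hx : p ∣ x
  · have h1 : p ∣ x ^ (p - 1) := dvd_pow hx (by have := hp.two_le; omega)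
    rw [Nat.mod_eq_zero_of_dvd h1]
    exact Nat.zero_le _
  · have h1 : x ^ (p - 1) ≡ 1 [MOD p] := by
      have h2 : Nat.Coprime x p := ((Nat.Prime.coprime_iff_not_dvd hp).2 hx).symm
      have h3 := Nat.ModEq.pow_totient h2
      rwa [Nat.totient_prime hp] at h3
    have h2 : x ^ (p - 1) % p = 1 % p := h1
    rw [h2]
    exact Nat.mod_le _ _

/-- A union of the first `L` classes modulo `p` has at least `L n / p` elements below `n`. -/
theorem count_block (p L : ℕ) (hp : 0 < p) (hL : L ≤ p) (n : ℕ) :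
    L * n ≤ p * Nat.count (fun x => x % p < L) n := by
  induction n using Nat.strong_induction_on with
  | _ n ih =>
    have hsmall : ∀ m : ℕ, m ≤ p → L * m ≤ p * Nat.count (fun x => x % p < L) m := by
      intro m hm
      have h1 : min m L ≤ Nat.count (fun x => x % p < L) m := by
        rw [Nat.count_eq_card_filter_range]
        calc min m L = #(range (min m L)) := (card_range _).symm
          _ ≤ _ := card_le_card fun x hx => by
            rw [mem_range] at hx
            rw [mem_filter, mem_range]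
            have hx1 : x < m := hx.trans_le (min_le_left _ _)
            refine ⟨hx1, ?_⟩
            exact (Nat.mod_le _ _).trans_lt (hx.trans_le (min_le_right _ _))
      have h2 : L * m ≤ p * min m L := by
        rcases le_total m L with h | h
        · rw [min_eq_left h]; exact Nat.mul_le_mul_right _ hL
        · rw [min_eq_right h, mul_comm]; exact Nat.mul_le_mul_right _ hm
      exact h2.trans (Nat.mul_le_mul_left _ h1)
    rcases le_total n p with h | h
    · exact hsmall n h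
    · obtain ⟨n', rfl⟩ := Nat.exists_eq_add_of_le h
      have h1 := ih n' (by omega)
      have h2 : Nat.count (fun x => x % p < L) (p + n') =
          Nat.count (fun x => x % p < L) p + Nat.count (fun x => x % p < L) n' := by
        rw [Nat.count_add]
        congr 1
        simp only [Nat.add_mod_left]
      have h3 := hsmall p le_rfl
      rw [h2, mul_add, mul_add]
      omega

theorem block_density (p L : ℕ) (hp : 0 < p) (hL : L ≤ p) (c : ℝ) (hc : c * p ≤ L) (n : ℕ) :
    c * n ≤ ((({x : ℕ | x % p < L} ∩ Set.Iio n).ncard : ℕ) : ℝ) := by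
  have h1 : ({x : ℕ | x % p < L} ∩ Set.Iio n) = (((range n).filter (fun x => x % p < L) : Finset ℕ) : Set ℕ) := by
    ext x
    simp [and_comm]
  rw [h1, Set.ncard_coe_finset, ← Nat.count_eq_card_filter_range]
  have h2 : ((L * n : ℕ) : ℝ) ≤ ((p * Nat.count (fun x => x % p < L) n : ℕ) : ℝ) := by
    exact_mod_cast count_block p L hp hL n
  push_cast at h2
  have hp0 : (0 : ℝ) < p := by exact_mod_cast hp
  have h3 : (p : ℝ) * (c * n) ≤ p * (Nat.count (fun x => x % p < L) n : ℝ) := by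
    calc (p : ℝ) * (c * n) = (c * p) * n := by ring
      _ ≤ L * n := mul_le_mul_of_nonneg_right hc (Nat.cast_nonneg _)
      _ ≤ _ := h2
  exact le_of_mul_le_mul_left h3 hp0

/-- The condition `c h < 1` is sharp. -/
theorem sharp (h J k₀ : ℕ) (hh : 1 ≤ h) (c : ℝ) (hc0 : 0 ≤ c) (hc : c * h < 1) :
    ∃ k : ℕ, k₀ ≤ k ∧ ∃ B : Set ℕ, (∀ n : ℕ, c * n ≤ ((B ∩ Set.Iio n).ncard : ℝ)) ∧
      ∃ p : ℕ, p.Prime ∧ ∀ N : ℕ, N % p = p - 1 →
        ¬ ∃ (b : Fin h → ℕ) (x : Fin J → ℕ), (∀ i, b i ∈ B) ∧ N = ∑ i, b i + ∑ i, x i ^ k := by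
  have hh0 : (0 : ℝ) < h := by exact_mod_cast hh
  have hc1 : c < 1 := by
    have h1 : (1 : ℝ) ≤ h := by exact_mod_cast hh
    nlinarith
  obtain ⟨n1, hn1⟩ := exists_nat_gt (((J : ℝ) + 1) / (1 - c * h))
  obtain ⟨p, hpn, hp⟩ := Nat.exists_infinite_primes (max n1 (k₀ + 1))
  have hp1 : n1 ≤ p := (le_max_left _ _).trans hpn
  have hp2 : k₀ + 1 ≤ p := (le_max_right _ _).trans hpn
  have hp0 : (0 : ℝ) < p := by exact_mod_cast hp.pos
  have hpc : (J : ℝ) + 1 < (1 - c * h) * p := by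
    rw [div_lt_iff₀ (by linarith)] at hn1
    have : (n1 : ℝ) ≤ p := by exact_mod_cast hp1
    nlinarith
  set L := ⌊c * p⌋₊ + 1 with hL
  have hfl : (⌊c * p⌋₊ : ℝ) ≤ c * p := Nat.floor_le (by positivity)
  have hLp : L ≤ p := by
    have h1 : (⌊c * p⌋₊ : ℝ) < p := hfl.trans_lt (by nlinarith)
    have h2 : ⌊c * p⌋₊ < p := by exact_mod_cast h1
    omega
  refine ⟨p - 1, by omega, {x : ℕ | x % p < L}, ?_, p, hp, ?_⟩
  · apply block_density p L hp.pos hLp c
    rw [hL]
    push_cast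
    exact (Nat.lt_floor_add_one _).le
  · rintro N hN ⟨b, x, hb, hNeq⟩
    have h1 : N % p ≤ ∑ i, b i % p + ∑ i, x i ^ (p - 1) % p := by
      rw [hNeq, Nat.add_mod]
      refine (Nat.mod_le _ _).trans (add_le_add (sum_mod_le _ _ _) (sum_mod_le _ _ _))
    have h2 : ∑ i, b i % p ≤ h * ⌊c * p⌋₊ := by
      calc ∑ i, b i % p ≤ ∑ _i : Fin h, ⌊c * p⌋₊ := sum_le_sum fun i _ => by
            have h3 : b i % p < L := hb i
            omega
        _ = h * ⌊c * p⌋₊ := by rw [sum_const, card_univ, Fintype.card_fin, smul_eq_mul]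
    have h3 : ∑ i, x i ^ (p - 1) % p ≤ J := by
      calc ∑ i, x i ^ (p - 1) % p ≤ ∑ _i : Fin J, 1 := sum_le_sum fun i _ => pow_mod_le hp _
        _ = J := by simp
    have h4 : (h * ⌊c * p⌋₊ + J : ℝ) + 1 < p := by
      have : (h : ℝ) * ⌊c * p⌋₊ ≤ h * (c * p) := mul_le_mul_of_nonneg_left hfl hh0.le
      nlinarith
    have h5 : h * ⌊c * p⌋₊ + J + 1 < p := by exact_mod_cast h4
    omega

/-- Fewer than `p - 1` powers with exponent `p - 1` do not represent `-1` modulo `p`. -/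
theorem few_powers (p : ℕ) (hp : p.Prime) (s N : ℕ) (hN : N % p = p - 1) :
    ¬ ∃ (b : Fin s → ℕ) (x : Fin (p - 2) → ℕ), (∀ i, p ∣ b i) ∧
      N = ∑ i, b i + ∑ i, x i ^ (p - 1) := by
  rintro ⟨b, x, hb, hNeq⟩
  have h1 : N % p ≤ ∑ i, b i % p + ∑ i, x i ^ (p - 1) % p := by
    rw [hNeq, Nat.add_mod]
    refine (Nat.mod_le _ _).trans (add_le_add (sum_mod_le _ _ _) (sum_mod_le _ _ _))
  have h2 : ∑ i, b i % p = 0 := sum_eq_zero fun i _ => Nat.mod_eq_zero_of_dvd (hb i)
  have h3 : ∑ i, x i ^ (p - 1) % p ≤ p - 2 := by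
    calc ∑ i, x i ^ (p - 1) % p ≤ ∑ _i : Fin (p - 2), 1 := sum_le_sum fun i _ => pow_mod_le hp _
      _ = p - 2 := by simp
  have := hp.two_le
  omega

end Pool.Agent.U416.WR
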