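import Pool.Agent.U416.WR.Prog

/-! The density of a set on progressions, and the core inequality. -/

set_option autoImplicit false

namespace Pool.Agent.U416.WR

open Finset

/-- the number of elements of `S` in the progression of difference `Q` and length `U` going down from `z` -/
def win (S : Finset ℤ) (Q U : ℕ) (z : ℤ) : ℕ := #((range U).filter (fun u => z - (Q * u : ℕ) ∈ S))

theorem win_le (S : Finset ℤ) (Q U : ℕ) (z : ℤ) : win S Q U z ≤ U := by
  unfold win
  exact (card_filter_le _ _).trans (card_range U).le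

theorem exists_max (S : Finset ℤ) (Q U : ℕ) : ∃ z, ∀ z', win S Q U z' ≤ win S Q U z := by
  have hb : BddAbove (Set.range (win S Q U)) := ⟨U, by rintro _ ⟨z, rfl⟩; exact win_le S Q U z⟩
  obtain ⟨z, hz⟩ := Nat.sSup_mem (Set.range_nonempty (win S Q U)) hb
  refine ⟨z, fun z' => ?_⟩
  rw [hz]
  exact le_csSup hb ⟨z', rfl⟩

theorem max_avg {S : Finset ℤ} {n : ℕ} (hS : ∀ s ∈ S, 0 ≤ s ∧ s < n) (Q U r : ℕ) (hr : ∀ z, win S Q U z ≤ r) :
    U * #S ≤ r * (n + Q * U) := by
  have h1 : ∑ z ∈ Ico (0 : ℤ) ((n + Q * U : ℕ) : ℤ), win S Q U z ≤ r * (n + Q * U) := by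
    calc _ ≤ ∑ _z ∈ Ico (0 : ℤ) ((n + Q * U : ℕ) : ℤ), r := sum_le_sum fun z _ => hr z
      _ = r * (n + Q * U) := by
        rw [sum_const, Int.card_Ico, smul_eq_mul, mul_comm, sub_zero, Int.toNat_natCast]
  have h2 : U * #S ≤ ∑ z ∈ Ico (0 : ℤ) ((n + Q * U : ℕ) : ℤ), win S Q U z := by
    unfold win
    simp only [card_filter]
    rw [sum_comm]
    calc U * #S = ∑ _u ∈ range U, #S := by rw [sum_const, card_range, smul_eq_mul]
      _ ≤ _ := by
        refine sum_le_sum fun u hu => ?_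
        rw [← card_filter]
        apply card_le_card_of_injOn (fun s => s + ((Q * u : ℕ) : ℤ))
        · intro s hs
          have h3 := hS s hs
          have h4 : ((Q * u : ℕ) : ℤ) ≤ ((Q * U : ℕ) : ℤ) := by
            exact_mod_cast Nat.mul_le_mul_left Q (mem_range.1 hu).le
          rw [mem_coe, mem_filter, mem_Ico]
          simp only
          refine ⟨⟨?_, ?_⟩, ?_⟩
          · have : (0 : ℤ) ≤ ((Q * u : ℕ) : ℤ) := Int.natCast_nonneg _
            linarith
          · push_cast at h4 ⊢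
            linarith
          · rw [add_sub_cancel_right]; exact hs
        · intro s _ s' _ h
          exact add_right_cancel h
  exact h2.trans h1

/-- the core inequality -/
theorem core {v : ℕ → ℕ} {Y U Q q U' : ℕ} {δ : ℝ} (hm : Mult v Y U' (Q * q) δ) (hδ : 0 ≤ δ) (hU' : 1 ≤ U') (hQ : 1 ≤ Q)
    (S T : Finset ℤ) (z : ℤ) (r' : ℕ) (hr' : ∀ z', win S (Q * q) U' z' ≤ r') (w : ℝ)
    (hw : ∀ m ∈ T, w ≤ #((range Y).filter (fun y => ∃ u < U, m - (v y : ℤ) = z - (Q * u : ℕ))))
    (hno : ∀ m ∈ T, ∀ y < Y, m - (v y : ℤ) ∉ S) :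
    (r' : ℝ) * w * #T - Y * (r' * (U + q * U') - U' * win S Q U z) ≤ U' * (2 * δ * Y * √(#T * U)) := by
  classical
  have hU'r : (0 : ℝ) < U' := by exact_mod_cast hU'
  have hinjz : ∀ z₀ : ℤ, Function.Injective (fun u : ℕ => z₀ - ((Q * u : ℕ) : ℤ)) := by
    intro z₀ a b hab
    have h1 : ((Q * a : ℕ) : ℤ) = ((Q * b : ℕ) : ℤ) := by simpa using hab
    exact Nat.eq_of_mul_eq_mul_left hQ (by exact_mod_cast h1)
  set C : Finset ℤ := ((range U).filter (fun u => z - (Q * u : ℕ) ∈ S)).image (fun u : ℕ => z - ((Q * u : ℕ) : ℤ)) with hC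
  have hCc : #C = win S Q U z := by
    rw [hC, card_image_of_injective _ (hinjz z)]
    rfl
  have hCS : C ⊆ S := by
    intro c hc
    rw [hC, mem_image] at hc
    obtain ⟨u, hu, rfl⟩ := hc
    exact (mem_filter.1 hu).2
  set g : ℤ → ℕ := fun z' => #((range U').filter (fun u => z' - (Q * q * u : ℕ) ∈ C)) with hg
  have hgr : ∀ z', g z' ≤ r' := fun z' => by
    refine le_trans ?_ (hr' z')
    rw [hg]
    unfold win
    apply card_le_card
    intro u hu
    rw [mem_filter] at hu ⊢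
    exact ⟨hu.1, hCS hu.2⟩
  set P : Finset ℤ := (range (U + q * U')).image (fun i : ℕ => (z + ((Q * q * U' : ℕ) : ℤ)) - ((Q * i : ℕ) : ℤ)) with hP
  have hPc : #P = U + q * U' := by
    rw [hP, card_image_of_injective _ (hinjz _), card_range]
  -- the total of `g` on `P`
  have hsumP : U' * #C ≤ ∑ z' ∈ P, g z' := by
    rw [hg]
    simp only [card_filter]
    rw [sum_comm]
    calc U' * #C = ∑ _u ∈ range U', #C := by rw [sum_const, card_range, smul_eq_mul]
      _ ≤ _ := by
        refine sum_le_sum fun u hu => ?_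
        rw [← card_filter]
        apply card_le_card_of_injOn (fun c => c + ((Q * q * u : ℕ) : ℤ))
        · intro c hc
          rw [mem_coe] at hc
          rw [mem_coe, mem_filter]
          refine ⟨?_, by rw [add_sub_cancel_right]; exact hc⟩
          rw [hC, mem_image] at hc
          obtain ⟨i, hi, rfl⟩ := hc
          rw [mem_filter, mem_range] at hi
          rw [hP, mem_image]
          obtain ⟨d, hd⟩ := Nat.exists_eq_add_of_le (mem_range.1 hu).le
          refine ⟨i + q * d, ?_, ?_⟩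
          · rw [mem_range, hd]
            have : q * d ≤ q * (u + d) := Nat.mul_le_mul_left _ (by omega)
            omega
          · rw [hd]
            push_cast
            ring
        · intro s _ s' _ h
          exact add_right_cancel h
  -- for one `y`
  have hone : ∀ y : ℕ, (r' : ℝ) * #(T.filter (fun m => m - (v y : ℤ) ∈ P)) - (r' * (U + q * U') - U' * #C) ≤
      ∑ m ∈ T, (g (m - (v y : ℤ)) : ℝ) := by
    intro y
    set Z := (T.filter (fun m => m - (v y : ℤ) ∈ P)).image (fun m => m - (v y : ℤ)) with hZ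
    have hZP : Z ⊆ P := by
      intro x hx
      rw [hZ, mem_image] at hx
      obtain ⟨m, hm, rfl⟩ := hx
      exact (mem_filter.1 hm).2
    have hinj : Function.Injective (fun m : ℤ => m - (v y : ℤ)) := fun a b h => by simpa using h
    have hZc : #Z = #(T.filter (fun m => m - (v y : ℤ) ∈ P)) := by
      rw [hZ, card_image_of_injective _ hinj]
    have h1 : ∑ z' ∈ Z, g z' ≤ ∑ m ∈ T, g (m - (v y : ℤ)) := by
      rw [hZ, sum_image (fun a _ b _ h => hinj h)]
      exact sum_le_sum_of_subset (filter_subset _ _)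
    have h2 : ∑ z' ∈ P, g z' ≤ ∑ z' ∈ Z, g z' + r' * (#P - #Z) := by
      rw [← sum_sdiff hZP, add_comm]
      apply Nat.add_le_add_left
      calc ∑ z' ∈ P \ Z, g z' ≤ ∑ _z' ∈ P \ Z, r' := sum_le_sum fun z' _ => hgr z'
        _ = r' * (#P - #Z) := by rw [sum_const, smul_eq_mul, card_sdiff_of_subset hZP, mul_comm]
    have h3 : #Z ≤ #P := card_le_card hZP
    have h4 : U' * #C ≤ ∑ m ∈ T, g (m - (v y : ℤ)) + r' * (#P - #Z) := by omega
    have h5 : (U' : ℝ) * #C ≤ ∑ m ∈ T, (g (m - (v y : ℤ)) : ℝ) + r' * ((#P : ℝ) - #Z) := by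
      rw [← Nat.cast_sub h3]
      exact_mod_cast h4
    rw [hPc, hZc] at h5
    push_cast at h5
    linarith
  have hsumy : (r' : ℝ) * w * #T - Y * (r' * (U + q * U') - U' * #C) ≤ ∑ m ∈ T, ∑ y ∈ range Y, (g (m - (v y : ℤ)) : ℝ) := by
    rw [sum_comm]
    have h1 : ∑ y ∈ range Y, ((r' : ℝ) * #(T.filter (fun m => m - (v y : ℤ) ∈ P)) - (r' * (U + q * U') - U' * #C)) ≤
        ∑ y ∈ range Y, ∑ m ∈ T, (g (m - (v y : ℤ)) : ℝ) := sum_le_sum fun y _ => hone y
    rw [sum_sub_distrib, sum_const, card_range, nsmul_eq_mul, ← mul_sum] at h1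
    have h2 : w * #T ≤ ∑ y ∈ range Y, (#(T.filter (fun m => m - (v y : ℤ) ∈ P)) : ℝ) := by
      have h3 : ∑ y ∈ range Y, #(T.filter (fun m => m - (v y : ℤ) ∈ P)) =
          ∑ m ∈ T, #((range Y).filter (fun y => m - (v y : ℤ) ∈ P)) := by
        simp only [card_filter]
        rw [sum_comm]
      have h4 : ∑ y ∈ range Y, (#(T.filter (fun m => m - (v y : ℤ) ∈ P)) : ℝ) =
          ∑ m ∈ T, (#((range Y).filter (fun y => m - (v y : ℤ) ∈ P)) : ℝ) := by exact_mod_cast h3
      rw [h4]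
      calc w * #T = ∑ _m ∈ T, w := by rw [sum_const, nsmul_eq_mul, mul_comm]
        _ ≤ _ := by
          refine sum_le_sum fun m hmT => (hw m hmT).trans ?_
          have h5 : (range Y).filter (fun y => ∃ u < U, m - (v y : ℤ) = z - (Q * u : ℕ)) ⊆
              (range Y).filter (fun y => m - (v y : ℤ) ∈ P) := by
            intro y hy
            rw [mem_filter] at hy ⊢
            obtain ⟨hy1, u, hu, hyu⟩ := hy
            refine ⟨hy1, ?_⟩
            rw [hyu, hP, mem_image]
            refine ⟨u + q * U', mem_range.2 (by omega), ?_⟩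
            push_cast
            ring
          exact_mod_cast card_le_card h5
    have h6 : (r' : ℝ) * (w * #T) ≤ r' * ∑ y ∈ range Y, (#(T.filter (fun m => m - (v y : ℤ) ∈ P)) : ℝ) :=
      mul_le_mul_of_nonneg_left h2 (Nat.cast_nonneg _)
    linarith
  -- the upper bound
  have hsm := smooth_int hm C T
  have hzero : ∀ m ∈ T, (#((range Y).filter (fun y => m - (v y : ℤ) ∈ C)) : ℝ) = 0 := by
    intro m hmT
    have : (range Y).filter (fun y => m - (v y : ℤ) ∈ C) = ∅ := by
      rw [filter_eq_empty_iff]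
      intro y hy h
      exact hno m hmT y (mem_range.1 hy) (hCS h)
    rw [this]
    simp
  set A : ℤ → ℝ := fun m => (1 / (U' : ℝ)) * ∑ y ∈ range Y, (g (m - (v y : ℤ)) : ℝ) with hA
  have hA2 : ∑ m ∈ T, (A m) ^ 2 ≤ 4 * δ ^ 2 * (Y : ℝ) ^ 2 * #C := by
    calc ∑ m ∈ T, (A m) ^ 2 = _ := by
          refine sum_congr rfl fun m hmT => ?_
          rw [hA, hg]
          simp only
          rw [← neg_sq, ← zero_sub, ← hzero m hmT]
      _ ≤ _ := hsm
  have hCU : (#C : ℝ) ≤ U := by
    rw [hCc]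
    exact_mod_cast win_le S Q U z
  have hcs : (∑ m ∈ T, A m) ^ 2 ≤ (2 * δ * Y) ^ 2 * (#T * U) := by
    calc (∑ m ∈ T, A m) ^ 2 ≤ #T * ∑ m ∈ T, (A m) ^ 2 := sq_sum_le_card_mul_sum_sq
      _ ≤ #T * (4 * δ ^ 2 * (Y : ℝ) ^ 2 * U) := by
          apply mul_le_mul_of_nonneg_left _ (Nat.cast_nonneg _)
          exact hA2.trans (mul_le_mul_of_nonneg_left hCU (by positivity))
      _ = _ := by ring
  have hup : ∑ m ∈ T, A m ≤ 2 * δ * Y * √(#T * U) := by
    have h1 : |∑ m ∈ T, A m| ≤ √((2 * δ * Y) ^ 2 * (#T * U)) := by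
      rw [← Real.sqrt_sq_eq_abs]
      exact Real.sqrt_le_sqrt hcs
    rw [Real.sqrt_mul (by positivity), Real.sqrt_sq (by positivity)] at h1
    exact (le_abs_self _).trans h1
  have hAs : ∑ m ∈ T, ∑ y ∈ range Y, (g (m - (v y : ℤ)) : ℝ) = U' * ∑ m ∈ T, A m := by
    rw [hA, mul_sum]
    refine sum_congr rfl fun m _ => ?_
    field_simp
  rw [hAs] at hsumy
  rw [← hCc]
  exact hsumy.trans (mul_le_mul_of_nonneg_left hup hU'r.le)

end Pool.Agent.U416.WR
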