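import Pool.Agent.U416.WR.Four

/-! A set of positive lower density plus `r + 1` powers has density one. -/

set_option autoImplicit false

namespace Pool.Agent.U416.WR

open Finset Filter Topology

/-- `B` has at least `c n` elements below `n`, for all large `n` -/
def LD (c : ℝ) (B : Set ℕ) : Prop := ∀ᶠ n : ℕ in atTop, c * n ≤ ((B ∩ Set.Iio n).ncard : ℝ)

/-- every residue class is a sum of `r` powers -/
def Loc (k r : ℕ) : Prop := ∀ Q : ℕ, 1 ≤ Q → ∀ a : ℕ, ∃ x : Fin r → ℕ, (∑ i, x i ^ k) ≡ a [MOD Q]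

/-- `B` plus `r` powers -/
def plus (B : Set ℕ) (k r : ℕ) : Set ℕ := {m | ∃ b ∈ B, ∃ x : Fin r → ℕ, m = b + ∑ i, x i ^ k}

open Classical in
theorem ld_card {c : ℝ} {B : Set ℕ} (h : LD c B) :
    ∀ᶠ n : ℕ in atTop, c * n ≤ (#((range n).filter (· ∈ B)) : ℝ) := by
  filter_upwards [h] with n hn
  have h2 : (B ∩ Set.Iio n) = ((range n).filter (· ∈ B) : Set ℕ) := by
    ext x
    simp [and_comm]
  rwa [h2, Set.ncard_coe_finset] at hn

open Classical in
theorem class_dense {k r : ℕ} (hloc : Loc k r) {B : Set ℕ} {c : ℝ} (hc : 0 < c) (hB : LD c B)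
    (Q : ℕ) (hQ : 1 ≤ Q) : ∀ᶠ n : ℕ in atTop, ∀ a : ℕ,
      c / (2 * Q) * n ≤ (#((range n).filter (fun m => m ∈ plus B k r ∧ m ≡ a [MOD Q])) : ℝ) := by
  have hQ0 : (0 : ℝ) < Q := by exact_mod_cast hQ
  obtain ⟨n1, hn1⟩ := exists_nat_gt (2 * Q * (r * (Q : ℝ) ^ k) / c)
  filter_upwards [ld_card hB, eventually_ge_atTop n1] with n hn hn1' a
  have hnr : 2 * Q * (r * (Q : ℝ) ^ k) / c < n := lt_of_lt_of_le hn1 (by exact_mod_cast hn1')
  rw [div_lt_iff₀ hc] at hnr
  -- pigeonhole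
  obtain ⟨b0, hb0, hb0c⟩ : ∃ b0 ∈ range Q, c / Q * n ≤ (#(((range n).filter (· ∈ B)).filter (fun b => b % Q = b0)) : ℝ) := by
    have h1 := card_eq_sum_card_fiberwise (s := (range n).filter (· ∈ B)) (t := range Q) (f := fun b => b % Q)
      (fun b _ => mem_coe.2 (mem_range.2 (Nat.mod_lt _ hQ)))
    by_contra hcon
    push Not at hcon
    have h2 : ∑ b0 ∈ range Q, (#(((range n).filter (· ∈ B)).filter (fun b => b % Q = b0)) : ℝ) <
        ∑ _b0 ∈ range Q, c / Q * n := sum_lt_sum_of_nonempty ⟨0, mem_range.2 hQ⟩ hcon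
    rw [sum_const, card_range, nsmul_eq_mul] at h2
    have h3 : (Q : ℝ) * (c / Q * n) = c * n := by field_simp
    rw [h3] at h2
    have h4 : (#((range n).filter (· ∈ B)) : ℝ) = ∑ b0 ∈ range Q, (#(((range n).filter (· ∈ B)).filter (fun b => b % Q = b0)) : ℝ) := by
      exact_mod_cast h1
    rw [h4] at hn
    linarith
  obtain ⟨x, hx⟩ := hloc Q hQ (a + (Q - 1) * b0)
  set s := ∑ i, (x i % Q) ^ k with hs
  have hs1 : s ≡ a + (Q - 1) * b0 [MOD Q] := by
    refine Nat.ModEq.trans ?_ hx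
    rw [hs]
    exact Nat.ModEq.sum fun i _ => (Nat.mod_modEq _ _).pow k
  have hs2 : s ≤ r * Q ^ k := by
    calc s ≤ ∑ _i : Fin r, Q ^ k := sum_le_sum fun i _ => Nat.pow_le_pow_left (Nat.mod_lt _ hQ).le k
      _ = r * Q ^ k := by simp
  set S := ((range n).filter (· ∈ B)).filter (fun b => b % Q = b0) with hS
  have h1 : #S ≤ #((range n).filter (fun m => m ∈ plus B k r ∧ m ≡ a [MOD Q])) + s := by
    have h2 : #(S.filter (fun b => b + s < n)) ≤ #((range n).filter (fun m => m ∈ plus B k r ∧ m ≡ a [MOD Q])) := by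
      apply card_le_card_of_injOn (fun b => b + s)
      · intro b hb
        rw [mem_coe, mem_filter, hS, mem_filter, mem_filter] at hb
        obtain ⟨⟨⟨hbn, hbB⟩, hbQ⟩, hbs⟩ := hb
        rw [mem_coe, mem_filter, mem_range]
        refine ⟨hbs, ⟨b, hbB, fun i => x i % Q, rfl⟩, ?_⟩
        have h3 : b ≡ b0 [MOD Q] := by
          rw [← hbQ]
          exact (Nat.mod_modEq _ _).symm
        have h4 : b + s ≡ b0 + (a + (Q - 1) * b0) [MOD Q] := h3.add hs1
        have h5 : b0 + (a + (Q - 1) * b0) = a + Q * b0 := by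
          obtain ⟨q, rfl⟩ : ∃ q, Q = q + 1 := ⟨Q - 1, by omega⟩
          simp only [Nat.add_sub_cancel]
          ring
        rw [h5] at h4
        refine h4.trans ?_
        unfold Nat.ModEq
        rw [Nat.add_mul_mod_self_left]
      · intro b _ b' _ h
        exact Nat.add_right_cancel h
    have h3 : #(S.filter (fun b => ¬ b + s < n)) ≤ s := by
      have h4 : S.filter (fun b => ¬ b + s < n) ⊆ Ico (n - s) n := by
        intro b hb
        rw [mem_filter, hS, mem_filter, mem_filter, mem_range] at hb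
        rw [mem_Ico]
        omega
      calc _ ≤ #(Ico (n - s) n) := card_le_card h4
        _ ≤ s := by rw [Nat.card_Ico]; omega
    have h4 := card_filter_add_card_filter_not (s := S) (fun b => b + s < n)
    omega
  have h2 : (#S : ℝ) ≤ #((range n).filter (fun m => m ∈ plus B k r ∧ m ≡ a [MOD Q])) + s := by exact_mod_cast h1
  have h3 : (s : ℝ) ≤ r * (Q : ℝ) ^ k := by exact_mod_cast hs2
  have h4 : r * (Q : ℝ) ^ k ≤ c / (2 * Q) * n := by
    rw [div_mul_eq_mul_div, le_div_iff₀ (by positivity)]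
    nlinarith
  have h5 : c / Q * n = c / (2 * Q) * n + c / (2 * Q) * n := by field_simp; ring
  linarith

theorem pow_diff {a b : ℕ} (hab : b ≤ a) (k : ℕ) : a ^ k ≤ b ^ k + (a - b) * (k * a ^ (k - 1)) := by
  obtain ⟨d, rfl⟩ := Nat.exists_eq_add_of_le hab
  rw [Nat.add_sub_cancel_left]
  induction k with
  | zero => simp
  | succ k ih =>
    rw [Nat.add_sub_cancel]
    rcases Nat.eq_zero_or_pos k with rfl | hk
    · simp
    obtain ⟨j, rfl⟩ : ∃ j, k = j + 1 := ⟨k - 1, by omega⟩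
    rw [Nat.add_sub_cancel] at ih
    have h1 : b ^ (j + 1) ≤ (b + d) ^ (j + 1) := Nat.pow_le_pow_left (by omega) _
    calc (b + d) ^ (j + 1 + 1) = (b + d) ^ (j + 1) * (b + d) := pow_succ _ _
      _ ≤ (b ^ (j + 1) + d * ((j + 1) * (b + d) ^ j)) * (b + d) := Nat.mul_le_mul_right _ ih
      _ = b ^ (j + 1 + 1) + b ^ (j + 1) * d + d * (j + 1) * (b + d) ^ (j + 1) := by ring
      _ ≤ b ^ (j + 1 + 1) + (b + d) ^ (j + 1) * d + d * (j + 1) * (b + d) ^ (j + 1) := by
          have := Nat.mul_le_mul_right d h1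
          omega
      _ = b ^ (j + 1 + 1) + d * ((j + 1 + 1) * (b + d) ^ (j + 1)) := by ring

theorem count_x {k Q x0 z L X : ℕ} (hk : 1 ≤ k) (hQ : 1 ≤ Q) (hx0 : x0 < Q) (hz : L + Q ^ k ≤ z) (hzX : z < X ^ k)
    (hQX : Q ≤ X) :
    L ≤ (#((range X).filter (fun x => x % Q = x0 ∧ x ^ k ≤ z ∧ z < x ^ k + L)) + 1) * (k * (Q * (2 * X) ^ (k - 1))) := by
  have hx0k : x0 ^ k ≤ Q ^ k := Nat.pow_le_pow_left hx0.le k
  set P1 : ℕ → Prop := fun y => (x0 + Q * y) ^ k ≤ z with hP1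
  set P0 : ℕ → Prop := fun y => (x0 + Q * y) ^ k + L ≤ z with hP0
  have hbig : ∀ y, (x0 + Q * y) ^ k ≤ z → y ≤ z := by
    intro y hy
    have h1 : y ≤ x0 + Q * y := by nlinarith
    exact h1.trans ((Nat.le_self_pow (by omega) _).trans hy)
  have h10 : P1 0 := by show (x0 + Q * 0) ^ k ≤ z; rw [mul_zero, add_zero]; omega
  have h00 : P0 0 := by show (x0 + Q * 0) ^ k + L ≤ z; rw [mul_zero, add_zero]; omega
  set y1 := Nat.findGreatest P1 z with hy1
  set y0 := Nat.findGreatest P0 z with hy0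
  have a1 : P1 y1 := Nat.findGreatest_spec (P := P1) (Nat.zero_le _) h10
  have a0 : P0 y0 := Nat.findGreatest_spec (P := P0) (Nat.zero_le _) h00
  have b1 : z < (x0 + Q * (y1 + 1)) ^ k := by
    by_contra hcon
    push Not at hcon
    have h1 : y1 + 1 ≤ y1 := Nat.le_findGreatest (hbig _ hcon) hcon
    omega
  have b0 : z < (x0 + Q * (y0 + 1)) ^ k + L := by
    by_contra hcon
    push Not at hcon
    have h1 : y0 + 1 ≤ y0 := Nat.le_findGreatest (hbig _ (by omega)) hcon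
    omega
  have a1' : (x0 + Q * y1) ^ k ≤ z := a1
  have a0' : (x0 + Q * y0) ^ k + L ≤ z := a0
  have h01 : y0 ≤ y1 := Nat.le_findGreatest (hbig _ (by omega)) (show (x0 + Q * y0) ^ k ≤ z by omega)
  have hcard : y1 - y0 ≤ #((range X).filter (fun x => x % Q = x0 ∧ x ^ k ≤ z ∧ z < x ^ k + L)) := by
    have h2 : #(Ioc y0 y1) = y1 - y0 := Nat.card_Ioc _ _
    rw [← h2]
    apply card_le_card_of_injOn (fun y => x0 + Q * y)
    · intro y hy
      rw [mem_coe, mem_Ioc] at hy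
      rw [mem_coe, mem_filter, mem_range]
      have h3 : (x0 + Q * y) ^ k ≤ z := by
        refine le_trans (Nat.pow_le_pow_left ?_ k) a1'
        have := Nat.mul_le_mul_left Q hy.2
        omega
      have h4 : z < (x0 + Q * y) ^ k + L := by
        refine lt_of_lt_of_le b0 (Nat.add_le_add_right (Nat.pow_le_pow_left ?_ k) _)
        have := Nat.mul_le_mul_left Q (show y0 + 1 ≤ y from hy.1)
        omega
      refine ⟨lt_of_pow_lt_pow_left₀ k (Nat.zero_le _) (lt_of_le_of_lt h3 hzX), ?_, h3, h4⟩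
      rw [Nat.add_mul_mod_self_left]
      exact Nat.mod_eq_of_lt hx0
    · intro y _ y' _ h
      have h3 : Q * y = Q * y' := Nat.add_left_cancel h
      exact Nat.eq_of_mul_eq_mul_left hQ h3
  have h1 : x0 + Q * y1 < X := lt_of_pow_lt_pow_left₀ k (Nat.zero_le _) (lt_of_le_of_lt a1' hzX)
  have h2 := pow_diff (a := x0 + Q * (y1 + 1)) (b := x0 + Q * y0)
    (by have := Nat.mul_le_mul_left Q (show y0 ≤ y1 + 1 by omega); omega) k
  have h3 : x0 + Q * (y1 + 1) - (x0 + Q * y0) = Q * (y1 - y0 + 1) := by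
    obtain ⟨d, hd⟩ := Nat.exists_eq_add_of_le h01
    rw [hd, Nat.add_sub_cancel_left]
    have : Q * (y0 + d + 1) = Q * y0 + Q * (d + 1) := by ring
    omega
  rw [h3] at h2
  have h4 : (x0 + Q * (y1 + 1)) ^ (k - 1) ≤ (2 * X) ^ (k - 1) := by
    apply Nat.pow_le_pow_left
    rw [mul_add, mul_one]
    omega
  have h5 : L ≤ Q * (y1 - y0 + 1) * (k * (x0 + Q * (y1 + 1)) ^ (k - 1)) := by omega
  calc L ≤ Q * (y1 - y0 + 1) * (k * (x0 + Q * (y1 + 1)) ^ (k - 1)) := h5
    _ ≤ Q * (y1 - y0 + 1) * (k * (2 * X) ^ (k - 1)) := Nat.mul_le_mul_left _ (Nat.mul_le_mul_left _ h4)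
    _ = (y1 - y0 + 1) * (k * (Q * (2 * X) ^ (k - 1))) := by ring
    _ ≤ _ := Nat.mul_le_mul_right _ (by omega)

open Classical in
/-- the number of pairs `(x, u)` with `n - x ^ k - Q u` in the set -/
theorem count_pairs {k Q n X U : ℕ} (hk : 1 ≤ k) (hQ : 1 ≤ Q) (hQX : Q ≤ X) (hnX : n < X ^ k) (D : Set ℕ)
    (n' : ℕ) (hn' : n' + (Q * U + Q ^ k) ≤ n + 1) (v w : ℝ) (hv : 0 ≤ v) (hw : 0 ≤ w)
    (hD : ∀ a : ℕ, v ≤ (#((range n').filter (fun m => m ∈ D ∧ m ≡ a [MOD Q])) : ℝ))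
    (hw' : ∀ cnt : ℕ, Q * U ≤ (cnt + 1) * (k * (Q * (2 * X) ^ (k - 1))) → w ≤ cnt) :
    Q * (v * w) ≤ (#(((range X) ×ˢ (range U)).filter (fun p => p.1 ^ k + Q * p.2 ≤ n ∧ n - (p.1 ^ k + Q * p.2) ∈ D)) : ℝ) := by
  set T := ((range X) ×ˢ (range U)).filter (fun p => p.1 ^ k + Q * p.2 ≤ n ∧ n - (p.1 ^ k + Q * p.2) ∈ D) with hT
  set L := Q * U with hL
  -- the sets
  set Bs : ℕ → Finset ℕ := fun x0 => (range n').filter (fun m => m ∈ D ∧ m ≡ (n + (Q - 1) * x0 ^ k) [MOD Q]) with hBs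
  set Xs : ℕ → ℕ → Finset ℕ := fun x0 b => (range X).filter (fun x => x % Q = x0 ∧ x ^ k ≤ n - b ∧ n - b < x ^ k + L) with hXs
  set P := (range Q).sigma (fun x0 => (Bs x0).sigma (fun b => Xs x0 b)) with hP
  have h1 : #P ≤ #T := by
    apply card_le_card_of_injOn (fun s => (s.2.2, (n - s.2.1 - s.2.2 ^ k) / Q))
    · rintro ⟨x0, b, x⟩ hs
      rw [mem_coe, hP, mem_sigma, mem_sigma] at hs
      obtain ⟨hx0, hb, hx⟩ := hs
      simp only at hx0 hb hx ⊢
      rw [hBs] at hb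
      rw [hXs] at hx
      simp only [mem_filter, mem_range] at hx0 hb hx
      obtain ⟨hbn, hbD, hbQ⟩ := hb
      obtain ⟨hxX, hxQ, hx1, hx2⟩ := hx
      rw [mem_coe, hT, mem_filter, mem_product, mem_range, mem_range]
      have hdvd : Q ∣ n - b - x ^ k := by
        have h3 : b + x ^ k ≡ n [MOD Q] := by
          have h4 : x ^ k ≡ x0 ^ k [MOD Q] := by
            rw [← hxQ]
            exact ((Nat.mod_modEq _ _).symm).pow k
          have h5 : b + x ^ k ≡ (n + (Q - 1) * x0 ^ k) + x0 ^ k [MOD Q] := hbQ.add h4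
          have h6 : (n + (Q - 1) * x0 ^ k) + x0 ^ k = n + Q * x0 ^ k := by
            obtain ⟨q, rfl⟩ : ∃ q, Q = q + 1 := ⟨Q - 1, by omega⟩
            simp only [Nat.add_sub_cancel]
            ring
          rw [h6] at h5
          refine h5.trans ?_
          unfold Nat.ModEq
          rw [Nat.add_mul_mod_self_left]
        have h7 : Q ∣ n - (b + x ^ k) := (Nat.modEq_iff_dvd' (by omega)).1 h3
        rwa [Nat.sub_sub]
      obtain ⟨e, he⟩ := hdvd
      simp only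
      rw [he, Nat.mul_div_cancel_left _ hQ]
      have h8 : Q * e < Q * U := by rw [← he]; omega
      refine ⟨⟨hxX, lt_of_mul_lt_mul_left h8 (Nat.zero_le _)⟩, by omega, ?_⟩
      have h9 : n - (x ^ k + Q * e) = b := by omega
      rw [h9]
      exact hbD
    · rintro ⟨x0, b, x⟩ hs ⟨x0', b', x'⟩ hs' heq
      rw [mem_coe, hP, mem_sigma, mem_sigma] at hs hs'
      obtain ⟨hx0, hb, hx⟩ := hs
      obtain ⟨hx0', hb', hx'⟩ := hs'
      simp only at hx0 hb hx hx0' hb' hx' heq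
      rw [hBs] at hb hb'
      rw [hXs] at hx hx'
      simp only [mem_filter, mem_range] at hx0 hb hx hx0' hb' hx'
      obtain ⟨hbn, hbD, hbQ⟩ := hb
      obtain ⟨hxX, hxQ, hx1, hx2⟩ := hx
      obtain ⟨hbn', hbD', hbQ'⟩ := hb'
      obtain ⟨hxX', hxQ', hx1', hx2'⟩ := hx'
      rw [Prod.mk.injEq] at heq
      obtain ⟨rfl, h2⟩ := heq
      have hx00 : x0 = x0' := by rw [← hxQ, ← hxQ']
      subst hx00
      have hmod : b ≡ b' [MOD Q] := hbQ.trans hbQ'.symm
      have hbb : b = b' := by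
        have hd : ∀ c : ℕ, c ≡ (n + (Q - 1) * x0 ^ k) [MOD Q] → c < n' → x ^ k ≤ n - c → Q ∣ n - c - x ^ k := by
          intro c hc1 hc2 hc3
          have h3 : c + x ^ k ≡ n [MOD Q] := by
            have h4 : x ^ k ≡ x0 ^ k [MOD Q] := by
              rw [← hxQ]
              exact ((Nat.mod_modEq _ _).symm).pow k
            have h5 : c + x ^ k ≡ (n + (Q - 1) * x0 ^ k) + x0 ^ k [MOD Q] := hc1.add h4
            have h6 : (n + (Q - 1) * x0 ^ k) + x0 ^ k = n + Q * x0 ^ k := by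
              obtain ⟨q, rfl⟩ : ∃ q, Q = q + 1 := ⟨Q - 1, by omega⟩
              simp only [Nat.add_sub_cancel]
              ring
            rw [h6] at h5
            refine h5.trans ?_
            unfold Nat.ModEq
            rw [Nat.add_mul_mod_self_left]
          have h7 : Q ∣ n - (c + x ^ k) := (Nat.modEq_iff_dvd' (by omega)).1 h3
          rwa [Nat.sub_sub]
        obtain ⟨e, he⟩ := hd b hbQ hbn hx1
        obtain ⟨e', he'⟩ := hd b' hbQ' hbn' hx1'
        rw [he, he', Nat.mul_div_cancel_left _ hQ, Nat.mul_div_cancel_left _ hQ] at h2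
        subst h2
        omega
      subst hbb
      rfl
  have h2 : (#P : ℝ) = ∑ x0 ∈ range Q, ∑ b ∈ Bs x0, (#(Xs x0 b) : ℝ) := by
    rw [hP, card_sigma]
    push_cast
    refine sum_congr rfl fun x0 _ => ?_
    rw [card_sigma]
    push_cast
    rfl
  have h3 : ∀ x0 ∈ range Q, v * w ≤ ∑ b ∈ Bs x0, (#(Xs x0 b) : ℝ) := by
    intro x0 hx0
    have h4 : ∀ b ∈ Bs x0, w ≤ (#(Xs x0 b) : ℝ) := by
      intro b hb
      rw [hBs] at hb
      simp only [mem_filter, mem_range] at hb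
      apply hw'
      have := count_x (k := k) (Q := Q) (x0 := x0) (z := n - b) (L := L) (X := X) hk hQ (mem_range.1 hx0) (by omega)
        (by omega) hQX
      exact this
    calc v * w ≤ (#(Bs x0) : ℝ) * w := mul_le_mul_of_nonneg_right (hD _) hw
      _ = ∑ _b ∈ Bs x0, w := by rw [sum_const, nsmul_eq_mul]
      _ ≤ ∑ b ∈ Bs x0, (#(Xs x0 b) : ℝ) := sum_le_sum h4
  calc (Q : ℝ) * (v * w) = ∑ _x0 ∈ range Q, v * w := by rw [sum_const, card_range, nsmul_eq_mul]
    _ ≤ ∑ x0 ∈ range Q, ∑ b ∈ Bs x0, (#(Xs x0 b) : ℝ) := sum_le_sum h3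
    _ = (#P : ℝ) := h2.symm
    _ ≤ (#T : ℝ) := by exact_mod_cast h1

end Pool.Agent.U416.WR
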