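import Pool.Agent.H2.Kneser

/-! Sumsets in groups all of whose proper subgroups are small. -/

set_option autoImplicit false

namespace Pool.Agent.U416.WR

open Finset Pointwise Pool.Agent.H2.Kneser

section grp

variable {G : Type} [AddCommGroup G] [DecidableEq G]

/-- the set of the sums `a_0 + ... + a_(r-1)` with `a_i` in `A i` -/
def sums (A : ℕ → Finset G) : ℕ → Finset G
  | 0 => {0}
  | r + 1 => sums A r + A r

theorem mem_sums {A : ℕ → Finset G} : ∀ {r : ℕ} {x : G}, x ∈ sums A r →
    ∃ a : Fin r → G, (∀ i : Fin r, a i ∈ A i.val) ∧ x = ∑ i, a i := by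
  intro r
  induction r with
  | zero =>
    intro x hx
    refine ⟨fun i => i.elim0, fun i => i.elim0, ?_⟩
    simpa [sums] using hx
  | succ r ih =>
    intro x hx
    obtain ⟨y, hy, z, hz, rfl⟩ := mem_add.1 (show x ∈ sums A r + A r from hx)
    obtain ⟨a, ha, rfl⟩ := ih hy
    refine ⟨Fin.snoc a z, fun i => ?_, ?_⟩
    · induction i using Fin.lastCases with
      | last => simpa using hz
      | cast j => simpa using ha j
    · rw [Fin.sum_univ_castSucc]
      simp

theorem sums_nonempty {A : ℕ → Finset G} (hA : ∀ i, (A i).Nonempty) (r : ℕ) : (sums A r).Nonempty := by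
  induction r with
  | zero => exact ⟨0, by simp [sums]⟩
  | succ r ih => exact ih.add (hA r)

variable [Fintype G]

/-- Kneser's theorem when all the proper subgroups have at most `|G| / w` elements. -/
theorem grow {w : ℕ} (hw : ∀ K : Finset G, Sg K → K ≠ univ → w * #K ≤ Fintype.card G)
    {A : ℕ → Finset G} (hA : ∀ i, (A i).Nonempty) (r : ℕ) :
    sums A (r + 1) = univ ∨
      w * ∑ i ∈ range (r + 1), #(A i) ≤ w * #(sums A (r + 1)) + r * Fintype.card G := by
  induction r with
  | zero =>
    right
    have : sums A (0 + 1) = A 0 := by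
      show ({0} : Finset G) + A 0 = A 0
      ext x
      simp [mem_add]
    rw [this]
    simp
  | succ r ih =>
    set X := sums A (r + 1) with hX
    have hXn : X.Nonempty := sums_nonempty hA _
    have hsum : sums A (r + 1 + 1) = X + A (r + 1) := rfl
    rw [hsum]
    rcases ih with h | h
    · left
      rw [h]
      obtain ⟨a, ha⟩ := hA (r + 1)
      rw [eq_univ_iff_forall]
      intro x
      exact mem_add.2 ⟨x - a, mem_univ _, a, ha, by abel⟩
    · by_cases hK : st (X + A (r + 1)) = univ
      · left
        obtain ⟨c, hc⟩ := hXn.add (hA (r + 1))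
        rw [eq_univ_iff_forall]
        intro x
        have h1 : x - c ∈ st (X + A (r + 1)) := by rw [hK]; exact mem_univ _
        have h2 := mem_st.1 h1 c hc
        rwa [add_sub_cancel] at h2
      · right
        have h1 := kneser hXn (hA (r + 1))
        have h2 : #X ≤ #(X + st (X + A (r + 1))) := card_le_card ((sg_st (X + A (r + 1))).subset_add X)
        have h3 : #(A (r + 1)) ≤ #(A (r + 1) + st (X + A (r + 1))) :=
          card_le_card ((sg_st (X + A (r + 1))).subset_add (A (r + 1)))
        have h4 := hw _ (sg_st (X + A (r + 1))) hK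
        have h5 : #X + #(A (r + 1)) ≤ #(X + A (r + 1)) + #(st (X + A (r + 1))) := by omega
        have h6 : w * #X + w * #(A (r + 1)) ≤ w * #(X + A (r + 1)) + Fintype.card G := by
          have := Nat.mul_le_mul_left w h5
          rw [mul_add, mul_add] at this
          omega
        rw [sum_range_succ, mul_add]
        have h8 : (r + 1) * Fintype.card G = r * Fintype.card G + Fintype.card G := by ring
        rw [h8]
        omega

theorem sums_univ {w h : ℕ} (hw : ∀ K : Finset G, Sg K → K ≠ univ → w * #K ≤ Fintype.card G)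
    (hh : 1 ≤ h) {A : ℕ → Finset G} (hA : ∀ i, (A i).Nonempty)
    (hc : (w + h) * Fintype.card G ≤ w * ∑ i ∈ range h, #(A i)) : sums A h = univ := by
  obtain ⟨r, rfl⟩ : ∃ r, h = r + 1 := ⟨h - 1, by omega⟩
  rcases grow hw hA r with h1 | h1
  · exact h1
  · exfalso
    have h2 : #(sums A (r + 1)) ≤ Fintype.card G := card_le_univ _
    have h3 := Nat.mul_le_mul_left w h2
    have h4 : (w + (r + 1)) * Fintype.card G = w * Fintype.card G + r * Fintype.card G + Fintype.card G := by
      ring
    have h5 : 0 < Fintype.card G := Fintype.card_pos_iff.2 ⟨0⟩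
    omega

end grp

/-- The proper subgroups of the integers modulo `M` are small if `M` has no small prime factor. -/
theorem subgroup_small {w M : ℕ} [NeZero M] (hM : ∀ p : ℕ, p.Prime → p ∣ M → w < p)
    (K : Finset (ZMod M)) (hK : Sg K) (hne : K ≠ univ) : w * #K ≤ Fintype.card (ZMod M) := by
  have h1 : #K ∣ #(univ : Finset (ZMod M)) := Per.card_dvd hK (fun x _ k _ => mem_univ _)
  rw [card_univ] at h1
  rw [ZMod.card] at h1 ⊢
  obtain ⟨d, hd⟩ := h1
  have hd1 : d ≠ 1 := by
    rintro rfl
    rw [mul_one] at hd
    apply hne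
    apply eq_univ_of_card
    rw [ZMod.card, ← hd]
  obtain ⟨p, hp, hpd⟩ := Nat.exists_prime_and_dvd hd1
  have h2 : w < p := hM p hp (hd ▸ hpd.mul_left _)
  have hM0 : 0 < M := Nat.pos_of_ne_zero (NeZero.ne M)
  have hd0 : 0 < d := by
    rcases Nat.eq_zero_or_pos d with rfl | h
    · rw [mul_zero] at hd; omega
    · exact h
  have h3 : p ≤ d := Nat.le_of_dvd hd0 hpd
  have h4 : w * #K ≤ d * #K := Nat.mul_le_mul_right _ (by omega)
  calc w * #K ≤ d * #K := h4
    _ = M := by rw [mul_comm]; exact hd.symm

end Pool.Agent.U416.WR
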