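import Pool.Agent.U416.WR.Cover

/-! Dense sets and multiples of a `k`-th power. -/

set_option autoImplicit false

namespace Pool.Agent.U416.WR

open Finset Filter Topology Pool.Agent.H2.Kneser

/-- the ratio of consecutive terms of an arithmetic progression tends to one, also for the powers -/
theorem ratio (P k h : ℕ) (hh : 1 ≤ h) : ∀ᶠ t : ℕ in atTop, 1 ≤ P →
    h * (P * (t + 1) + 1) ^ k ≤ (h + 1) * (P * t + 1) ^ k := by
  have h1 : Tendsto (fun x : ℝ => (1 + P / x) ^ k) atTop (𝓝 1) := by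
    have : Tendsto (fun x : ℝ => (1 + P / x)) atTop (𝓝 (1 + 0)) :=
      tendsto_const_nhds.add (tendsto_const_nhds.div_atTop tendsto_id)
    simpa using this.pow k
  have hh0 : (0 : ℝ) < h := by exact_mod_cast hh
  have h2 : ∀ᶠ x : ℝ in atTop, (1 + P / x) ^ k < 1 + 1 / h :=
    h1.eventually_lt_const (by
      have : 0 < 1 / (h : ℝ) := by positivity
      linarith)
  have h3 : Tendsto (fun t : ℕ => (t : ℝ)) atTop atTop := tendsto_natCast_atTop_atTop
  obtain ⟨x0, hx0⟩ := eventually_atTop.1 h2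
  filter_upwards [h3.eventually_ge_atTop (max x0 1)] with t ht hP
  have ht1 : (1 : ℝ) ≤ t := (le_max_right _ _).trans ht
  have hPr : (1 : ℝ) ≤ P := by exact_mod_cast hP
  set x : ℝ := P * t + 1 with hx
  have hxt : (t : ℝ) ≤ x := by rw [hx]; nlinarith
  have hxpos : 0 < x := by linarith
  have h4 := hx0 x ((le_max_left _ _).trans (ht.trans hxt))
  have h5 : (P * ((t : ℝ) + 1) + 1) = x * (1 + P / x) := by
    have h6 : x * (1 + P / x) = x + P := by field_simp
    rw [h6, hx]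
    ring
  have h6 : (h : ℝ) * (P * ((t : ℝ) + 1) + 1) ^ k ≤ (h + 1) * x ^ k := by
    rw [h5, mul_pow]
    have h7 : (h : ℝ) * (1 + P / x) ^ k ≤ h + 1 := by
      have h8 : (h : ℝ) * (1 + P / x) ^ k ≤ h * (1 + 1 / h) := mul_le_mul_of_nonneg_left h4.le hh0.le
      rw [mul_add, mul_one, mul_one_div_cancel hh0.ne'] at h8
      exact h8
    calc (h : ℝ) * (x ^ k * (1 + P / x) ^ k) = (h * (1 + P / x) ^ k) * x ^ k := by ring
      _ ≤ (h + 1) * x ^ k := mul_le_mul_of_nonneg_right h7 (by positivity)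
  have h9 : ((h * (P * (t + 1) + 1) ^ k : ℕ) : ℝ) ≤ (((h + 1) * (P * t + 1) ^ k : ℕ) : ℝ) := by
    push_cast
    exact h6
  exact_mod_cast h9

/-- For large `N` there is `m ≡ 1` modulo `P` with `h m ^ k ≤ N < (h + 1) m ^ k`, as large as we please. -/
theorem exists_m (P k h : ℕ) (hP : 1 ≤ P) (hk : 1 ≤ k) (hh : 1 ≤ h) (m₀ : ℕ) :
    ∀ᶠ N : ℕ in atTop, ∃ t : ℕ, m₀ ≤ P * t + 1 ∧ h * (P * t + 1) ^ k ≤ N ∧ N < (h + 1) * (P * t + 1) ^ k := by
  obtain ⟨t0, ht0⟩ := eventually_atTop.1 (ratio P k h hh)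
  set t1 := max t0 m₀ with ht1
  filter_upwards [eventually_ge_atTop (h * (P * t1 + 1) ^ k + 1)] with N hN
  set T := Nat.findGreatest (fun t => h * (P * t + 1) ^ k ≤ N) N with hT
  have ht1N : t1 ≤ N := by
    have h1 : t1 ≤ P * t1 + 1 := by nlinarith
    have h2 : P * t1 + 1 ≤ (P * t1 + 1) ^ k := Nat.le_self_pow (by omega) _
    have h3 : (P * t1 + 1) ^ k ≤ h * (P * t1 + 1) ^ k := Nat.le_mul_of_pos_left _ hh
    omega
  have h1 : t1 ≤ T := Nat.le_findGreatest ht1N (by omega)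
  have h2 : h * (P * T + 1) ^ k ≤ N :=
    Nat.findGreatest_spec (P := fun t => h * (P * t + 1) ^ k ≤ N) ht1N (by omega)
  have h3 : N < h * (P * (T + 1) + 1) ^ k := by
    by_contra hcon
    push Not at hcon
    have h4 : T + 1 ≤ N := by
      have h5 : T + 1 ≤ P * (T + 1) + 1 := by nlinarith
      have h6 : P * (T + 1) + 1 ≤ (P * (T + 1) + 1) ^ k := Nat.le_self_pow (by omega) _
      have h7 : (P * (T + 1) + 1) ^ k ≤ h * (P * (T + 1) + 1) ^ k := Nat.le_mul_of_pos_left _ hh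
      omega
    have h5 : T + 1 ≤ T := Nat.le_findGreatest h4 hcon
    omega
  have h4 := ht0 T ((le_max_left _ _).trans h1) hP
  refine ⟨T, ?_, h2, lt_of_lt_of_le h3 h4⟩
  have h5 : m₀ ≤ T := (le_max_right _ _).trans h1
  nlinarith

/-- **Dense sets and `k`-th powers.** -/
theorem cover (h : ℕ) (hh : 1 ≤ h) (α : Fin h → ℝ) (hα : ∀ i, 0 < α i) (hsα : 1 < ∑ i, α i)
    (k : ℕ) (hk : 1 ≤ k) (B : Fin h → Set ℕ)
    (hB : ∀ i, ∀ᶠ n : ℕ in atTop, α i * n ≤ ((B i ∩ Set.Iio n).ncard : ℝ)) (w : ℕ) :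
    ∀ᶠ N : ℕ in atTop, ∃ (b : Fin h → ℕ) (j m : ℕ), (∀ i, b i ∈ B i) ∧ 1 ≤ j ∧ j ≤ h ∧
      (∀ p : ℕ, p.Prime → p ∣ m → w < p) ∧ N = ∑ i, b i + j * m ^ k := by
  classical
  set δ : ℝ := ∑ i, α i - 1 with hδdef
  have hδ : 0 < δ := by rw [hδdef]; linarith
  obtain ⟨w1, hw1⟩ := exists_nat_gt (max (w : ℝ) (h / δ))
  have hw1w : w < w1 := by exact_mod_cast (le_max_left (w : ℝ) (h / δ)).trans_lt hw1
  have hw1δ : h / δ < w1 := (le_max_right (w : ℝ) (h / δ)).trans_lt hw1
  obtain ⟨n0, hn0⟩ := eventually_atTop.1 (eventually_all.2 hB)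
  have hh0 : (0 : ℝ) < h := by exact_mod_cast hh
  filter_upwards [exists_m (Nat.factorial w1) k h (Nat.factorial_pos _) hk hh (n0 + 1)] with N hN
  obtain ⟨t, ht0, ht1, ht2⟩ := hN
  set m := Nat.factorial w1 * t + 1 with hm
  have hm1 : 1 ≤ m := by omega
  have hrough : ∀ p : ℕ, p.Prime → p ∣ m → w1 < p := by
    intro p hp hpm
    by_contra hcon
    push Not at hcon
    have h1 : p ∣ Nat.factorial w1 * t := ((Nat.Prime.dvd_factorial hp).2 hcon).mul_right _
    have h2 : p ∣ 1 := by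
      rw [hm] at hpm
      exact (Nat.dvd_add_right h1).1 hpm
    exact hp.one_lt.ne' (Nat.dvd_one.1 h2)
  set M := m ^ k with hM
  have hM0 : 0 < M := pow_pos (by omega) k
  have : NeZero M := ⟨hM0.ne'⟩
  have hroughM : ∀ p : ℕ, p.Prime → p ∣ M → w1 < p := fun p hp hpM =>
    hrough p hp (hp.dvd_of_dvd_pow hpM)
  have hMn0 : n0 ≤ M := by
    have h1 : m ≤ M := Nat.le_self_pow (by omega) _
    omega
  have hMr : (0 : ℝ) < M := by exact_mod_cast hM0
  set S : Fin h → Finset ℕ := fun i => (range M).filter (· ∈ B i) with hS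
  have hSc : ∀ i, α i * M ≤ #(S i) := by
    intro i
    have h1 := hn0 M hMn0 i
    have h2 : (B i ∩ Set.Iio M) = (S i : Set ℕ) := by
      ext x
      simp [hS, and_comm]
    rw [h2, Set.ncard_coe_finset] at h1
    exact h1
  have hinj : ∀ i, Set.InjOn (fun n : ℕ => (n : ZMod M)) (S i : Set ℕ) := by
    intro i a ha b hb hab
    have ha' : a < M := by
      have := (mem_filter.1 (mem_coe.1 ha)).1
      exact mem_range.1 this
    have hb' : b < M := by
      have := (mem_filter.1 (mem_coe.1 hb)).1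
      exact mem_range.1 this
    have h1 := (ZMod.natCast_eq_natCast_iff' a b M).1 hab
    rwa [Nat.mod_eq_of_lt ha', Nat.mod_eq_of_lt hb'] at h1
  set A : ℕ → Finset (ZMod M) := fun i => if hi : i < h then
    (S ⟨i, hi⟩).image (fun n : ℕ => (n : ZMod M)) else {0} with hA
  have hAval : ∀ i : Fin h, A i = (S i).image (fun n : ℕ => (n : ZMod M)) := fun i => by
    rw [hA]
    simp only [i.2, dif_pos]
  have hAc : ∀ i : Fin h, #(A i) = #(S i) := fun i => by
    rw [hAval]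
    exact card_image_of_injOn (hinj i)
  have hAn : ∀ i, (A i).Nonempty := by
    intro i
    by_cases hi : i < h
    · have h1 : (0 : ℝ) < #(S ⟨i, hi⟩) := lt_of_lt_of_le (mul_pos (hα ⟨i, hi⟩) hMr) (hSc ⟨i, hi⟩)
      have h2 : 0 < #(S ⟨i, hi⟩) := by exact_mod_cast h1
      rw [← card_pos]
      have h3 := hAc ⟨i, hi⟩
      simp only at h3
      rw [h3]
      exact h2
    · rw [hA]
      simp only [hi, dif_neg, not_false_iff]
      exact singleton_nonempty _
  have hcount : (w1 + h) * Fintype.card (ZMod M) ≤ w1 * ∑ i ∈ range h, #(A i) := by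
    rw [ZMod.card]
    have h0 : ∑ i ∈ range h, #(A i) = ∑ i : Fin h, #(S i) := by
      rw [← Fin.sum_univ_eq_sum_range (fun i => #(A i)) h]
      exact sum_congr rfl fun i _ => hAc i
    rw [h0]
    have h1 : ((w1 + h) * M : ℝ) ≤ w1 * ∑ i : Fin h, (#(S i) : ℝ) := by
      have h2 : (1 + δ) * M ≤ ∑ i : Fin h, (#(S i) : ℝ) := by
        have h3 : (1 + δ) * M = ∑ i, α i * M := by
          rw [hδdef, ← sum_mul]
          ring
        rw [h3]
        exact sum_le_sum fun i _ => hSc i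
      have hw10 : (0 : ℝ) < w1 := lt_trans (by positivity) hw1δ
      have h4 : (w1 : ℝ) * ((1 + δ) * M) ≤ w1 * ∑ i : Fin h, (#(S i) : ℝ) :=
        mul_le_mul_of_nonneg_left h2 hw10.le
      have h5 : (h : ℝ) ≤ w1 * δ := by
        rw [div_lt_iff₀ hδ] at hw1δ
        exact hw1δ.le
      have h6 : (h : ℝ) * M ≤ (w1 * δ) * M := mul_le_mul_of_nonneg_right h5 hMr.le
      nlinarith
    exact_mod_cast h1
  have huniv := sums_univ (subgroup_small hroughM) hh hAn hcount
  obtain ⟨a, ha, hsum⟩ := mem_sums (r := h) (x := ((N : ℕ) : ZMod M)) (by rw [huniv]; exact mem_univ _)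
  have hex : ∀ i, ∃ n ∈ S i, ((n : ℕ) : ZMod M) = a i := fun i => by
    have h1 := ha i
    rw [hAval] at h1
    obtain ⟨n, hn, hn'⟩ := mem_image.1 h1
    exact ⟨n, hn, hn'⟩
  choose b hb hb' using hex
  have hbM : ∀ i, b i < M := fun i => mem_range.1 (mem_filter.1 (hb i)).1
  have hsumlt : ∑ i, b i ≤ h * (M - 1) := by
    calc ∑ i, b i ≤ ∑ _i : Fin h, (M - 1) := sum_le_sum fun i _ => by have := hbM i; omega
      _ = h * (M - 1) := by rw [sum_const, card_univ, Fintype.card_fin, smul_eq_mul]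
  have hlt : ∑ i, b i < N := by
    have h1 : h * (M - 1) < h * M := Nat.mul_lt_mul_of_pos_left (by omega) hh
    omega
  have hmod : ((∑ i, b i : ℕ) : ZMod M) = (N : ZMod M) := by
    rw [hsum]
    push_cast
    exact sum_congr rfl fun i _ => hb' i
  have hdvd : M ∣ N - ∑ i, b i := by
    have h1 : (∑ i, b i) ≡ N [MOD M] := (ZMod.natCast_eq_natCast_iff _ _ _).1 hmod
    exact (Nat.modEq_iff_dvd' hlt.le).1 h1
  obtain ⟨j, hj⟩ := hdvd
  have hj0 : 1 ≤ j := by
    rcases Nat.eq_zero_or_pos j with rfl | h1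
    · rw [mul_zero] at hj; omega
    · exact h1
  refine ⟨b, j, m, fun i => (mem_filter.1 (hb i)).2, hj0, ?_, fun p hp hpm => hw1w.trans (hrough p hp hpm), ?_⟩
  · have h1 : M * j ≤ N := by omega
    have h2 : M * j < M * (h + 1) := by
      calc M * j ≤ N := h1
        _ < (h + 1) * M := ht2
        _ = M * (h + 1) := by ring
    have := Nat.lt_of_mul_lt_mul_left h2
    omega
  · have h1 : N = ∑ i, b i + M * j := by omega
    rw [h1]
    ring

end Pool.Agent.U416.WR
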