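import Pool.Agent.U416.WR.Local

/-! Local obstructions for sums of `k`-th powers. -/

set_option autoImplicit false

namespace Pool.Agent.U416.WR

open Finset

theorem odd_pow {x : ℤ} (hx : Odd x) (m : ℕ) : (2 : ℤ) ^ (m + 3) ∣ x ^ 2 ^ (m + 1) - 1 := by
  induction m with
  | zero =>
    have := Int.eight_dvd_sq_sub_one_of_odd hx
    simpa using this
  | succ m ih =>
    obtain ⟨t, ht⟩ := ih
    have h1 : x ^ 2 ^ (m + 1 + 1) - 1 = (x ^ 2 ^ (m + 1) - 1) * (x ^ 2 ^ (m + 1) + 1) := by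
      rw [pow_succ 2 (m + 1), pow_mul]
      ring
    have h2 : (2 : ℤ) ∣ x ^ 2 ^ (m + 1) + 1 := by
      have h3 : Odd (x ^ 2 ^ (m + 1)) := hx.pow
      obtain ⟨r, hr⟩ := h3
      exact ⟨r + 1, by rw [hr]; ring⟩
    rw [h1]
    have h3 : (2 : ℤ) ^ (m + 1 + 3) = 2 ^ (m + 3) * 2 := by ring
    rw [h3]
    exact mul_dvd_mul ⟨t, ht⟩ h2

/-- fewer than `4 k - 1` powers are not enough for `k = 2 ^ m`, `m ≥ 2` -/
theorem not_loc_two_pow {m s : ℕ} (hm : 2 ≤ m) (hs : s + 2 ≤ 4 * 2 ^ m) : ¬ Loc (2 ^ m) s := by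
  intro h
  obtain ⟨m, rfl⟩ : ∃ j, m = j + 1 := ⟨m - 1, by omega⟩
  obtain ⟨x, hx⟩ := h (2 ^ (m + 3)) (Nat.one_le_two_pow) (2 ^ (m + 3) - 1)
  have hkm : m + 3 ≤ 2 ^ (m + 1) := by
    obtain ⟨j, rfl⟩ : ∃ j, m = j + 1 := ⟨m - 1, by omega⟩
    have h1 : j < 2 ^ j := Nat.lt_two_pow_self
    have h2 : (2 : ℕ) ^ (j + 1 + 1) = 4 * 2 ^ j := by ring
    omega
  -- each power is `0` or `1`
  have hpow : ∀ i, (x i) ^ 2 ^ (m + 1) ≡ (if Odd (x i) then 1 else 0) [MOD 2 ^ (m + 3)] := by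
    intro i
    split_ifs with h
    · have h1 := odd_pow (x := (x i : ℤ)) (by exact_mod_cast h) m
      apply Nat.ModEq.symm
      rw [Nat.modEq_iff_dvd]
      push_cast
      exact h1
    · rw [Nat.not_odd_iff_even] at h
      obtain ⟨r, hr⟩ := h
      rw [Nat.modEq_zero_iff_dvd]
      have h1 : 2 ∣ x i := ⟨r, by omega⟩
      exact (pow_dvd_pow 2 hkm).trans (pow_dvd_pow_of_dvd h1 _)
  have hsum : (∑ i, (x i) ^ 2 ^ (m + 1)) ≡ ∑ i, (if Odd (x i) then 1 else 0) [MOD 2 ^ (m + 3)] :=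
    Nat.ModEq.sum fun i _ => hpow i
  have hle : ∑ i, (if Odd (x i) then 1 else 0) ≤ s := by
    calc ∑ i, (if Odd (x i) then 1 else 0) ≤ ∑ _i : Fin s, 1 := sum_le_sum fun i _ => by split_ifs <;> omega
      _ = s := by simp
  have h1 := hsum.symm.trans hx
  have e : 4 * 2 ^ (m + 1) = 2 ^ (m + 3) := by ring
  have h2 := Nat.ModEq.eq_of_lt_of_lt h1 (by omega) (by have : 0 < 2 ^ (m + 3) := by positivity
                                                        omega)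
  omega

/-- `4 k - 1` powers are not enough for `k = 2 ^ m`, `m ≥ 3` -/
theorem not_loc_two_pow' {m s : ℕ} (hm : 3 ≤ m) (hs : s + 1 ≤ 4 * 2 ^ m) : ¬ Loc (2 ^ m) s := by
  intro h
  obtain ⟨m, rfl⟩ : ∃ j, m = j + 1 := ⟨m - 1, by omega⟩
  obtain ⟨x, hx⟩ := h (2 ^ (m + 4)) (Nat.one_le_two_pow) (2 ^ (m + 3))
  have hkm : m + 4 ≤ 2 ^ (m + 1) := by
    obtain ⟨j, rfl⟩ : ∃ j, m = j + 2 := ⟨m - 2, by omega⟩
    have h1 : j < 2 ^ j := Nat.lt_two_pow_self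
    have h2 : (2 : ℕ) ^ (j + 2 + 1) = 8 * 2 ^ j := by ring
    omega
  have hpow : ∀ i, (x i) ^ 2 ^ (m + 1) ≡ (if Odd (x i) then 1 else 0) [MOD 2 ^ (m + 3)] := by
    intro i
    split_ifs with h
    · have h1 := odd_pow (x := (x i : ℤ)) (by exact_mod_cast h) m
      apply Nat.ModEq.symm
      rw [Nat.modEq_iff_dvd]
      push_cast
      exact h1
    · rw [Nat.not_odd_iff_even] at h
      obtain ⟨r, hr⟩ := h
      rw [Nat.modEq_zero_iff_dvd]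
      have h1 : 2 ∣ x i := ⟨r, by omega⟩
      exact (pow_dvd_pow 2 (by omega : m + 3 ≤ 2 ^ (m + 1))).trans (pow_dvd_pow_of_dvd h1 _)
  have hsum : (∑ i, (x i) ^ 2 ^ (m + 1)) ≡ ∑ i, (if Odd (x i) then 1 else 0) [MOD 2 ^ (m + 3)] :=
    Nat.ModEq.sum fun i _ => hpow i
  have hle : ∑ i, (if Odd (x i) then 1 else 0) ≤ s := by
    calc ∑ i, (if Odd (x i) then 1 else 0) ≤ ∑ _i : Fin s, 1 := sum_le_sum fun i _ => by split_ifs <;> omega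
      _ = s := by simp
  have hx3 : (∑ i, (x i) ^ 2 ^ (m + 1)) ≡ 2 ^ (m + 3) [MOD 2 ^ (m + 3)] :=
    hx.of_dvd (pow_dvd_pow 2 (by omega))
  have hx4 : (∑ i, (x i) ^ 2 ^ (m + 1)) ≡ 0 [MOD 2 ^ (m + 3)] :=
    hx3.trans (Nat.modEq_zero_iff_dvd.2 dvd_rfl)
  have h1 := hsum.symm.trans hx4
  have e : 4 * 2 ^ (m + 1) = 2 ^ (m + 3) := by ring
  have h2 := Nat.ModEq.eq_of_lt_of_lt h1 (by omega) (by positivity)
  have h3 : ∀ i, ¬ Odd (x i) := by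
    intro i hi
    have h4 : (if Odd (x i) then 1 else 0) ≤ ∑ i, (if Odd (x i) then 1 else 0) :=
      single_le_sum (f := fun i => if Odd (x i) then 1 else 0) (fun _ _ => Nat.zero_le _) (mem_univ i)
    rw [if_pos hi, h2] at h4
    omega
  have h4 : 2 ^ (m + 4) ∣ ∑ i, (x i) ^ 2 ^ (m + 1) := by
    apply dvd_sum
    intro i _
    have h5 := h3 i
    rw [Nat.not_odd_iff_even] at h5
    obtain ⟨r, hr⟩ := h5
    have h6 : 2 ∣ x i := ⟨r, by omega⟩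
    exact (pow_dvd_pow 2 hkm).trans (pow_dvd_pow_of_dvd h6 _)
  have h5 := (Nat.modEq_zero_iff_dvd.2 h4).symm.trans hx
  have h6 := Nat.ModEq.eq_of_lt_of_lt h5 (by positivity) (Nat.pow_lt_pow_right (by norm_num) (by omega))
  have h7 : 0 < 2 ^ (m + 3) := by positivity
  omega

theorem three_pow {x : ℤ} {e : ℤ} (he : (3 : ℤ) ∣ x - e) (j : ℕ) : (3 : ℤ) ^ (j + 1) ∣ x ^ 3 ^ j - e ^ 3 ^ j := by
  induction j with
  | zero => simpa using he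
  | succ j ih =>
    have h1 : ∀ y : ℤ, y ^ 3 ^ (j + 1) = (y ^ 3 ^ j) ^ 3 := fun y => by rw [pow_succ 3 j, pow_mul]
    rw [h1, h1]
    obtain ⟨t, ht⟩ := ih
    have h2 : x ^ 3 ^ j = e ^ 3 ^ j + 3 ^ (j + 1) * t := by linarith
    rw [h2]
    have h3 : (e ^ 3 ^ j + 3 ^ (j + 1) * t) ^ 3 - (e ^ 3 ^ j) ^ 3 =
        3 ^ (j + 1) * 3 * ((e ^ 3 ^ j) ^ 2 * t + e ^ 3 ^ j * (3 ^ (j + 1) * t ^ 2) + 3 ^ j * 3 ^ (j + 1) * t ^ 3) := by
      ring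
    rw [h3, pow_succ 3 (j + 1)]
    exact dvd_mul_right _ _

/-- fewer than `(3 k - 1) / 2` powers are not enough for `k = 3 ^ j` -/
theorem not_loc_three_pow {j s : ℕ} (hs : 2 * s + 1 < 3 * 3 ^ j) : ¬ Loc (3 ^ j) s := by
  intro h
  obtain ⟨a, ha⟩ : ∃ a, 3 ^ (j + 1) = 2 * a + 1 := by
    have h1 : Odd (3 ^ (j + 1)) := Odd.pow (by decide)
    exact h1
  obtain ⟨x, hx⟩ := h (3 ^ (j + 1)) (Nat.one_le_pow _ _ (by norm_num)) a
  have hjk : j + 1 ≤ 3 ^ j := by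
    have : j < 3 ^ j := Nat.lt_pow_self (by norm_num)
    omega
  have hodd : Odd (3 ^ j) := Odd.pow (by decide)
  have hpow : ∀ i, ∃ e : ℤ, |e| ≤ 1 ∧ (3 : ℤ) ^ (j + 1) ∣ ((x i : ℕ) : ℤ) ^ 3 ^ j - e := by
    intro i
    have h3 : ((x i : ℕ) : ℤ) % 3 = 0 ∨ ((x i : ℕ) : ℤ) % 3 = 1 ∨ ((x i : ℕ) : ℤ) % 3 = 2 := by omega
    rcases h3 with h3 | h3 | h3
    · refine ⟨0, by norm_num, ?_⟩
      rw [sub_zero]
      have h4 : (3 : ℤ) ∣ ((x i : ℕ) : ℤ) := by omega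
      exact (pow_dvd_pow 3 hjk).trans (pow_dvd_pow_of_dvd h4 _)
    · refine ⟨1, by norm_num, ?_⟩
      have h4 := three_pow (x := ((x i : ℕ) : ℤ)) (e := 1) (by omega) j
      rwa [one_pow] at h4
    · refine ⟨-1, by norm_num, ?_⟩
      have h4 := three_pow (x := ((x i : ℕ) : ℤ)) (e := -1) (by omega) j
      rwa [hodd.neg_one_pow] at h4
  choose e he1 he2 using hpow
  have h1 : (3 : ℤ) ^ (j + 1) ∣ ∑ i, (((x i : ℕ) : ℤ) ^ 3 ^ j - e i) := dvd_sum fun i _ => he2 i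
  rw [sum_sub_distrib] at h1
  have h2 : (3 : ℤ) ^ (j + 1) ∣ (a : ℤ) - ∑ i, ((x i : ℕ) : ℤ) ^ 3 ^ j := by
    have h3 := (Nat.modEq_iff_dvd.1 hx)
    push_cast at h3
    exact h3
  have h3 : (3 : ℤ) ^ (j + 1) ∣ (a : ℤ) - ∑ i, e i := by
    have h4 := dvd_add h2 h1
    have h5 : (a : ℤ) - ∑ i, ((x i : ℕ) : ℤ) ^ 3 ^ j + (∑ i, ((x i : ℕ) : ℤ) ^ 3 ^ j - ∑ i, e i) = a - ∑ i, e i := by
      ring
    rwa [h5] at h4
  have h4 : |∑ i, e i| ≤ s := by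
    calc |∑ i, e i| ≤ ∑ i, |e i| := abs_sum_le_sum_abs _ _
      _ ≤ ∑ _i : Fin s, (1 : ℤ) := sum_le_sum fun i _ => he1 i
      _ = s := by simp
  have ha' : (3 : ℤ) ^ (j + 1) = 2 * a + 1 := by exact_mod_cast ha
  have hs' : s < a := by
    have h5 : 3 * 3 ^ j = 2 * a + 1 := by rw [← ha]; ring
    omega
  rw [ha'] at h3
  rw [abs_le] at h4
  obtain ⟨t, ht⟩ := h3
  have h5 : 0 < (a : ℤ) - ∑ i, e i := by omega
  have h6 : (a : ℤ) - ∑ i, e i < 2 * a + 1 := by omega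
  have h7 : 0 < t := by
    by_contra hcon
    push Not at hcon
    nlinarith
  have h8 : 2 * (a : ℤ) + 1 ≤ (2 * a + 1) * t := by nlinarith
  omega

end Pool.Agent.U416.WR
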