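import Pool.Agent.H373R2.NB.Weyl

/-! Fourier analysis: counting `n - x^k` against its average over steps `Q`. -/

set_option autoImplicit false

namespace Pool.Agent.U416.WR

open Finset Polynomial
open Pool.Agent.Helper602.MK (ee)
open Pool.Agent.Helper602.MK.N_J5b (ee_add ee_zero ee_conj norm_ee ee_int ee_nat_mul ee_add_int norm_one_sub_ee)

lemma std_ee (q : ℕ) [NeZero q] (n : ℤ) :
    (ZMod.stdAddChar ((n : ℤ) : ZMod q) : ℂ) = ee ((n : ℝ) / q) := by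
  rw [ZMod.stdAddChar_coe]
  unfold Pool.Agent.Helper602.MK.ee
  congr 1
  push_cast
  ring

/-- Parseval's identity -/
theorem parseval (M : ℕ) [NeZero M] (g : ZMod M → ℂ) :
    ∑ t, ‖∑ n, g n * ZMod.stdAddChar (t * n)‖ ^ 2 = M * ∑ n, ‖g n‖ ^ 2 := by
  have key : ∀ t : ZMod M, ((‖∑ n, g n * ZMod.stdAddChar (t * n)‖ ^ 2 : ℝ) : ℂ) =
      ∑ n, ∑ m, g n * (starRingEnd ℂ) (g m) * ZMod.stdAddChar (t * (n - m)) := by
    intro t
    have h1 : ((‖∑ n, g n * ZMod.stdAddChar (t * n)‖ ^ 2 : ℝ) : ℂ) =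
        (∑ n, g n * ZMod.stdAddChar (t * n)) * (starRingEnd ℂ) (∑ n, g n * ZMod.stdAddChar (t * n)) := by
      rw [Complex.mul_conj, Complex.normSq_eq_norm_sq]
    rw [h1, map_sum, sum_mul_sum]
    refine sum_congr rfl fun n _ => sum_congr rfl fun m _ => ?_
    rw [map_mul (starRingEnd ℂ), ← AddChar.map_neg_eq_conj, mul_sub, sub_eq_add_neg, AddChar.map_add_eq_mul]
    ring
  have h2 : ((∑ t, ‖∑ n, g n * ZMod.stdAddChar (t * n)‖ ^ 2 : ℝ) : ℂ) = ((M * ∑ n, ‖g n‖ ^ 2 : ℝ) : ℂ) := by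
    push_cast
    have h3 : ∀ t : ZMod M, ((‖∑ n, g n * ZMod.stdAddChar (t * n)‖ : ℂ)) ^ 2 =
        ∑ n, ∑ m, g n * (starRingEnd ℂ) (g m) * ZMod.stdAddChar (t * (n - m)) := by
      intro t
      rw [← key t]
      push_cast
      rfl
    rw [sum_congr rfl fun t _ => h3 t, sum_comm, mul_sum]
    refine sum_congr rfl fun n _ => ?_
    rw [sum_comm]
    have h4 : ∀ m : ZMod M, ∑ t : ZMod M, g n * (starRingEnd ℂ) (g m) * ZMod.stdAddChar (t * (n - m)) =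
        if n = m then (M : ℂ) * (‖g n‖ : ℂ) ^ 2 else 0 := by
      intro m
      rw [← mul_sum, AddChar.sum_mulShift (n - m) (ZMod.isPrimitive_stdAddChar M)]
      by_cases h : n = m
      · subst h
        rw [sub_self, if_pos rfl, if_pos rfl, ZMod.card, Complex.mul_conj, Complex.normSq_eq_norm_sq]
        push_cast
        ring
      · rw [if_neg (sub_ne_zero.2 h), if_neg h]
        simp
    rw [sum_congr rfl fun m _ => h4 m, sum_ite_eq]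
    simp
  exact_mod_cast h2

theorem shift_sum (M : ℕ) [NeZero M] (f : ZMod M → ℂ) (t a : ZMod M) :
    ∑ n, f (n - a) * ZMod.stdAddChar (t * n) = ZMod.stdAddChar (t * a) * ∑ n, f n * ZMod.stdAddChar (t * n) := by
  rw [← Equiv.sum_comp (Equiv.addRight a) (fun n => f (n - a) * (ZMod.stdAddChar (t * n) : ℂ)), mul_sum]
  refine sum_congr rfl fun n _ => ?_
  rw [Equiv.coe_addRight]
  simp only [add_sub_cancel_right]
  rw [mul_add, AddChar.map_add_eq_mul]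
  ring

/-- the smoothing modulus -/
theorem multiplier (k : ℕ) (hk : 1 ≤ k) (δ : ℝ) (hδ : 0 < δ) (hδ1 : δ ≤ 1) :
    ∃ Q : ℕ, 1 ≤ Q ∧ ∃ κ : ℝ, 0 < κ ∧ Q * κ ≤ δ ∧ ∀ X U M : ℕ, 1 ≤ X → 1 ≤ U → (U : ℝ) ≤ κ * (X : ℝ) ^ k →
      ∀ [NeZero M] (t : ZMod M),
      ‖∑ x ∈ range X, (ZMod.stdAddChar (t * ((x ^ k : ℕ) : ZMod M)) : ℂ)‖ *
        ‖1 - (1 / (U : ℂ)) * ∑ u ∈ range U, (ZMod.stdAddChar (t * ((Q * u : ℕ) : ZMod M)) : ℂ)‖ ≤ 2 * δ * X := by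
  obtain ⟨c, m, hc, hI⟩ := Pool.Agent.H373R2.NB.IW_all k hk
  have hc1 : (1 : ℝ) ≤ c := by exact_mod_cast hc
  set W : ℝ := c * (1 / δ) ^ m with hW
  have hu1 : 1 ≤ 1 / δ := by rw [le_div_iff₀ hδ]; linarith
  have hW1 : 1 ≤ W := by rw [hW]; exact one_le_mul_of_one_le_of_one_le hc1 (one_le_pow₀ hu1)
  set Q : ℕ := k.factorial * (⌊W⌋₊).factorial with hQ
  have hQ1 : 1 ≤ Q := Nat.one_le_iff_ne_zero.2 (by rw [hQ]; positivity)
  have hQr : (1 : ℝ) ≤ Q := by exact_mod_cast hQ1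
  refine ⟨Q, hQ1, δ / (7 * Q * W), by positivity, ?_, ?_⟩
  · have h1 : (Q : ℝ) * (δ / (7 * Q * W)) = δ / (7 * W) := by field_simp
    rw [h1, div_le_iff₀ (by positivity)]
    nlinarith
  intro X U M hX hU hUX _ t
  have hX0 : (0 : ℝ) < X := by exact_mod_cast hX
  have hU0 : (0 : ℝ) < U := by exact_mod_cast hU
  have hUc : (U : ℂ) ≠ 0 := by exact_mod_cast hU0.ne'
  set S := ∑ x ∈ range X, (ZMod.stdAddChar (t * ((x ^ k : ℕ) : ZMod M)) : ℂ) with hS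
  set K := (1 / (U : ℂ)) * ∑ u ∈ range U, (ZMod.stdAddChar (t * ((Q * u : ℕ) : ZMod M)) : ℂ) with hK
  have hSX : ‖S‖ ≤ X := by
    calc ‖S‖ ≤ ∑ x ∈ range X, ‖(ZMod.stdAddChar (t * ((x ^ k : ℕ) : ZMod M)) : ℂ)‖ := norm_sum_le _ _
      _ = X := by simp
  have hK1 : ‖K‖ ≤ 1 := by
    rw [hK, norm_mul, norm_div, norm_one, Complex.norm_natCast]
    have h1 : ‖∑ u ∈ range U, (ZMod.stdAddChar (t * ((Q * u : ℕ) : ZMod M)) : ℂ)‖ ≤ U := by
      calc _ ≤ ∑ u ∈ range U, ‖(ZMod.stdAddChar (t * ((Q * u : ℕ) : ZMod M)) : ℂ)‖ := norm_sum_le _ _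
        _ = U := by simp
    calc 1 / (U : ℝ) * ‖∑ u ∈ range U, (ZMod.stdAddChar (t * ((Q * u : ℕ) : ZMod M)) : ℂ)‖ ≤ 1 / U * U :=
          mul_le_mul_of_nonneg_left h1 (by positivity)
      _ = 1 := by field_simp
  by_cases hcase : ‖S‖ ≤ δ * X
  · have h2 : ‖1 - K‖ ≤ 2 := by
      calc ‖1 - K‖ ≤ ‖(1 : ℂ)‖ + ‖K‖ := norm_sub_le _ _
        _ ≤ 2 := by rw [norm_one]; linarith
    calc ‖S‖ * ‖1 - K‖ ≤ (δ * X) * 2 := mul_le_mul hcase h2 (norm_nonneg _) (by positivity)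
      _ = 2 * δ * X := by ring
  · push Not at hcase
    set γ : ℝ := (t.val : ℝ) / M with hγ
    have hM0 : (M : ℝ) ≠ 0 := by exact_mod_cast NeZero.ne M
    have hchar : ∀ a : ℕ, (ZMod.stdAddChar (t * ((a : ℕ) : ZMod M)) : ℂ) = ee (γ * a) := by
      intro a
      have e1 : t * ((a : ℕ) : ZMod M) = (((t.val * a : ℕ) : ℤ) : ZMod M) := by
        push_cast
        rw [ZMod.natCast_zmod_val]
      rw [e1, std_ee, hγ]
      congr 1
      push_cast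
      ring
    have hSe : S = ∑ n ∈ range X, ee ((fun n : ℕ => γ * ((((Polynomial.X : ℤ[X]) ^ k).eval (n : ℤ) : ℤ) : ℝ)) n) := by
      rw [hS]
      refine sum_congr rfl fun x _ => ?_
      rw [hchar]
      congr 1
      simp
    have hPh := Pool.Agent.H373R2.NB.Ph_poly k ((Polynomial.X : ℤ[X]) ^ k) (by simp) γ
    have hlow : (X : ℝ) ≤ (1 / δ) * ‖∑ n ∈ range X, ee ((fun n : ℕ => γ * ((((Polynomial.X : ℤ[X]) ^ k).eval (n : ℤ) : ℤ) : ℝ)) n)‖ := by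
      rw [← hSe, one_div_mul_eq_div, le_div_iff₀ hδ]
      linarith
    obtain ⟨q, hq1, hqW, a, ha⟩ := hI X (1 / δ) _ _ hX hu1 hPh hlow
    have hqf : q ≤ ⌊W⌋₊ := Nat.le_floor hqW
    obtain ⟨e, he⟩ : q ∣ (⌊W⌋₊).factorial := Nat.dvd_factorial hq1 hqf
    have hcoef : (((Polynomial.X : ℤ[X]) ^ k).coeff k : ℤ) = 1 := by simp
    rw [hcoef] at ha
    set θ : ℝ := Q * γ - ((e : ℤ) * a : ℤ) with hθ
    have hQe : (Q : ℝ) = k.factorial * (q * e) := by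
      rw [hQ, he]; push_cast; ring
    have heQ : (e : ℝ) ≤ Q := by
      have h1 : e ≤ Q := by
        rw [hQ, he]
        calc e = 1 * (1 * e) := by ring
          _ ≤ k.factorial * (q * e) := Nat.mul_le_mul (Nat.factorial_pos _) (Nat.mul_le_mul_right _ hq1)
      exact_mod_cast h1
    have hθb : |θ| ≤ Q * W / (X : ℝ) ^ k := by
      have h1 : θ = e * ((q : ℝ) * (γ * ((k.factorial : ℝ) * ((1 : ℤ) : ℝ))) - a) := by
        rw [hθ, hQe]; push_cast; ring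
      rw [h1, abs_mul, Nat.abs_cast]
      calc (e : ℝ) * |(q : ℝ) * (γ * ((k.factorial : ℝ) * ((1 : ℤ) : ℝ))) - a| ≤ Q * (W / (X : ℝ) ^ k) := by
            apply mul_le_mul heQ ha (abs_nonneg _) (by positivity)
        _ = Q * W / (X : ℝ) ^ k := by ring
    have hone : ∀ u ∈ range U, ‖1 - (ZMod.stdAddChar (t * ((Q * u : ℕ) : ZMod M)) : ℂ)‖ ≤ δ := by
      intro u hu
      have hu' : (u : ℝ) ≤ U := by exact_mod_cast (mem_range.1 hu).le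
      rw [hchar]
      have e1 : γ * ((Q * u : ℕ) : ℝ) = u * θ + ((u : ℤ) * (e * a) : ℤ) := by
        rw [hθ]; push_cast; ring
      rw [e1, ee_add_int, norm_one_sub_ee]
      have h1 : |Real.sin (Real.pi * (u * θ))| ≤ Real.pi * (u * |θ|) := by
        calc |Real.sin (Real.pi * (u * θ))| ≤ |Real.pi * (u * θ)| := Real.abs_sin_le_abs
          _ = Real.pi * (u * |θ|) := by
            rw [abs_mul, abs_mul, abs_of_pos Real.pi_pos, Nat.abs_cast]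
      have h2 : (u : ℝ) * |θ| ≤ U * (Q * W / (X : ℝ) ^ k) := mul_le_mul hu' hθb (abs_nonneg _) hU0.le
      have h3 : (U : ℝ) * (Q * W / (X : ℝ) ^ k) ≤ δ / 7 := by
        calc (U : ℝ) * (Q * W / (X : ℝ) ^ k) ≤ (δ / (7 * Q * W) * (X : ℝ) ^ k) * (Q * W / (X : ℝ) ^ k) :=
              mul_le_mul_of_nonneg_right hUX (by positivity)
          _ = δ / 7 := by field_simp
      have h4 : Real.pi < 3.15 := Real.pi_lt_d2
      have h5 : (u : ℝ) * |θ| ≤ δ / 7 := h2.trans h3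
      have h6 : 0 ≤ (u : ℝ) * |θ| := by positivity
      calc 2 * |Real.sin (Real.pi * (u * θ))| ≤ 2 * (Real.pi * (u * |θ|)) := by linarith
        _ ≤ 2 * (3.15 * (u * |θ|)) := by
            have := mul_le_mul_of_nonneg_right h4.le h6
            linarith
        _ ≤ δ := by linarith
    have h1K : ‖1 - K‖ ≤ δ := by
      have e1 : 1 - K = (1 / (U : ℂ)) * ∑ u ∈ range U, (1 - (ZMod.stdAddChar (t * ((Q * u : ℕ) : ZMod M)) : ℂ)) := by
        rw [sum_sub_distrib, mul_sub, hK]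
        congr 1
        simp [hUc]
      rw [e1, norm_mul, norm_div, norm_one, Complex.norm_natCast]
      calc 1 / (U : ℝ) * ‖∑ u ∈ range U, (1 - (ZMod.stdAddChar (t * ((Q * u : ℕ) : ZMod M)) : ℂ))‖ ≤
            1 / U * (U * δ) := by
            apply mul_le_mul_of_nonneg_left _ (by positivity)
            calc _ ≤ ∑ u ∈ range U, ‖1 - (ZMod.stdAddChar (t * ((Q * u : ℕ) : ZMod M)) : ℂ)‖ := norm_sum_le _ _
              _ ≤ ∑ _u ∈ range U, δ := sum_le_sum hone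
              _ = U * δ := by simp
        _ = δ := by field_simp
    calc ‖S‖ * ‖1 - K‖ ≤ X * δ := mul_le_mul hSX h1K (norm_nonneg _) hX0.le
      _ ≤ 2 * δ * X := by nlinarith

/-- **Smoothing.** On average over `n`, the number of `x < X` with `n - x ^ k` in a set does not change much if
the set is averaged along a progression of difference `Q`. -/
theorem smooth (k : ℕ) (hk : 1 ≤ k) (δ : ℝ) (hδ : 0 < δ) (hδ1 : δ ≤ 1) :
    ∃ Q : ℕ, 1 ≤ Q ∧ ∃ κ : ℝ, 0 < κ ∧ Q * κ ≤ δ ∧ ∀ X U M : ℕ, 1 ≤ X → 1 ≤ U → (U : ℝ) ≤ κ * (X : ℝ) ^ k →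
      ∀ [NeZero M] (f : ZMod M → ℂ),
      ∑ n, ‖∑ x ∈ range X, (f (n - ((x ^ k : ℕ) : ZMod M)) -
        (1 / (U : ℂ)) * ∑ u ∈ range U, f (n - ((x ^ k : ℕ) : ZMod M) - ((Q * u : ℕ) : ZMod M)))‖ ^ 2 ≤
      4 * δ ^ 2 * (X : ℝ) ^ 2 * ∑ n, ‖f n‖ ^ 2 := by
  obtain ⟨Q, hQ1, κ, hκ, hQκ, hm⟩ := multiplier k hk δ hδ hδ1
  refine ⟨Q, hQ1, κ, hκ, hQκ, ?_⟩
  intro X U M hX hU hUX _ f
  set E : ZMod M → ℂ := fun n => ∑ x ∈ range X, (f (n - ((x ^ k : ℕ) : ZMod M)) -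
        (1 / (U : ℂ)) * ∑ u ∈ range U, f (n - ((x ^ k : ℕ) : ZMod M) - ((Q * u : ℕ) : ZMod M))) with hE
  have hM0 : (0 : ℝ) < M := by exact_mod_cast Nat.pos_of_ne_zero (NeZero.ne M)
  have hfour : ∀ t : ZMod M, ∑ n, E n * ZMod.stdAddChar (t * n) =
      (∑ n, f n * ZMod.stdAddChar (t * n)) *
        ((∑ x ∈ range X, (ZMod.stdAddChar (t * ((x ^ k : ℕ) : ZMod M)) : ℂ)) *
        (1 - (1 / (U : ℂ)) * ∑ u ∈ range U, (ZMod.stdAddChar (t * ((Q * u : ℕ) : ZMod M)) : ℂ))) := by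
    intro t
    have h1 : ∀ x ∈ range X, ∑ n, (f (n - ((x ^ k : ℕ) : ZMod M)) -
        (1 / (U : ℂ)) * ∑ u ∈ range U, f (n - ((x ^ k : ℕ) : ZMod M) - ((Q * u : ℕ) : ZMod M))) *
        ZMod.stdAddChar (t * n) = (∑ n, f n * ZMod.stdAddChar (t * n)) *
          ((ZMod.stdAddChar (t * ((x ^ k : ℕ) : ZMod M)) : ℂ) *
        (1 - (1 / (U : ℂ)) * ∑ u ∈ range U, (ZMod.stdAddChar (t * ((Q * u : ℕ) : ZMod M)) : ℂ))) := by
      intro x _
      have h2 : ∀ n : ZMod M, (f (n - ((x ^ k : ℕ) : ZMod M)) -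
        (1 / (U : ℂ)) * ∑ u ∈ range U, f (n - ((x ^ k : ℕ) : ZMod M) - ((Q * u : ℕ) : ZMod M))) *
        ZMod.stdAddChar (t * n) = f (n - ((x ^ k : ℕ) : ZMod M)) * ZMod.stdAddChar (t * n) -
          (1 / (U : ℂ)) * ∑ u ∈ range U, f (n - (((x ^ k : ℕ) : ZMod M) + ((Q * u : ℕ) : ZMod M))) *
            ZMod.stdAddChar (t * n) := by
        intro n
        rw [sub_mul, mul_assoc, sum_mul]
        congr 2
        refine sum_congr rfl fun u _ => ?_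
        rw [sub_sub]
      rw [sum_congr rfl fun n _ => h2 n, sum_sub_distrib, ← mul_sum, sum_comm, shift_sum]
      rw [sum_congr rfl fun u _ => shift_sum M f t (((x ^ k : ℕ) : ZMod M) + ((Q * u : ℕ) : ZMod M)), ← sum_mul]
      have h3 : ∑ u ∈ range U, (ZMod.stdAddChar (t * (((x ^ k : ℕ) : ZMod M) + ((Q * u : ℕ) : ZMod M))) : ℂ) =
          (ZMod.stdAddChar (t * ((x ^ k : ℕ) : ZMod M)) : ℂ) *
            ∑ u ∈ range U, (ZMod.stdAddChar (t * ((Q * u : ℕ) : ZMod M)) : ℂ) := by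
        rw [mul_sum]
        refine sum_congr rfl fun u _ => ?_
        rw [mul_add, AddChar.map_add_eq_mul]
      rw [h3]
      ring
    have h4 : ∑ n, E n * ZMod.stdAddChar (t * n) = ∑ x ∈ range X, ∑ n, (f (n - ((x ^ k : ℕ) : ZMod M)) -
        (1 / (U : ℂ)) * ∑ u ∈ range U, f (n - ((x ^ k : ℕ) : ZMod M) - ((Q * u : ℕ) : ZMod M))) *
        ZMod.stdAddChar (t * n) := by
      rw [sum_comm]
      refine sum_congr rfl fun n _ => ?_
      rw [hE]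
      simp only
      rw [sum_mul]
    rw [h4, sum_congr rfl h1, ← mul_sum, ← sum_mul]
  have hP1 := parseval M E
  have hP2 := parseval M f
  have hle : ∑ t, ‖∑ n, E n * ZMod.stdAddChar (t * n)‖ ^ 2 ≤
      4 * δ ^ 2 * (X : ℝ) ^ 2 * ∑ t, ‖∑ n, f n * ZMod.stdAddChar (t * n)‖ ^ 2 := by
    rw [mul_sum]
    refine sum_le_sum fun t _ => ?_
    rw [hfour t, norm_mul, norm_mul, mul_pow]
    have h5 := hm X U M hX hU hUX t
    have h6 : (‖∑ x ∈ range X, (ZMod.stdAddChar (t * ((x ^ k : ℕ) : ZMod M)) : ℂ)‖ *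
        ‖1 - (1 / (U : ℂ)) * ∑ u ∈ range U, (ZMod.stdAddChar (t * ((Q * u : ℕ) : ZMod M)) : ℂ)‖) ^ 2 ≤
        (2 * δ * X) ^ 2 := pow_le_pow_left₀ (by positivity) h5 2
    calc _ ≤ ‖∑ n, f n * (ZMod.stdAddChar (t * n) : ℂ)‖ ^ 2 * (2 * δ * X) ^ 2 :=
          mul_le_mul_of_nonneg_left h6 (by positivity)
      _ = 4 * δ ^ 2 * (X : ℝ) ^ 2 * ‖∑ n, f n * (ZMod.stdAddChar (t * n) : ℂ)‖ ^ 2 := by ring
  rw [hP1, hP2] at hle
  have h7 : (M : ℝ) * ∑ n, ‖E n‖ ^ 2 ≤ M * (4 * δ ^ 2 * (X : ℝ) ^ 2 * ∑ n, ‖f n‖ ^ 2) := by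
    calc _ ≤ _ := hle
      _ = _ := by ring
  exact le_of_mul_le_mul_left h7 hM0

end Pool.Agent.U416.WR
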