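import Pool.Agent.U416.WR.Core
import Pool.Agent.U416.WR.Dens

/-! The key lemma: a dense set plus the `k`-th powers meets every dense set which it meets modulo a fixed number. -/

set_option autoImplicit false

namespace Pool.Agent.U416.WR

open Finset

theorem exists_step {k : ℕ} (hk : 1 ≤ k) {Q : ℕ} (hQ : 1 ≤ Q) {δ B : ℝ} (hδ : 0 < δ) (hδ1 : δ ≤ 1) (hB : 0 < B) :
    ∃ q : ℕ, 1 ≤ q ∧ ∃ κ' : ℝ, 0 < κ' ∧ ((Q * q : ℕ) : ℝ) * κ' ≤ B ∧ ∀ n Y a : ℕ, 1 ≤ ⌊κ' * n⌋₊ → n ≤ (Q * Y) ^ k →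
      Mult (fun y => (a + Q * y) ^ k) Y ⌊κ' * n⌋₊ (Q * q) δ := by
  obtain ⟨Q', hQ'1, ⟨q, rfl⟩, κ, hκ, h⟩ := multiplier2 k hk Q hQ δ hδ hδ1
  have hq : 1 ≤ q := by
    rcases Nat.eq_zero_or_pos q with h0 | h0
    · rw [h0, mul_zero] at hQ'1; omega
    · exact h0
  have hQr : (0 : ℝ) < Q := by exact_mod_cast hQ
  have hQq : (0 : ℝ) < ((Q * q : ℕ) : ℝ) := by exact_mod_cast hQ'1
  refine ⟨q, hq, min (κ / (Q : ℝ) ^ k) (B / ((Q * q : ℕ) : ℝ)), lt_min (by positivity) (by positivity), ?_, ?_⟩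
  · calc ((Q * q : ℕ) : ℝ) * min (κ / (Q : ℝ) ^ k) (B / ((Q * q : ℕ) : ℝ)) ≤ ((Q * q : ℕ) : ℝ) * (B / ((Q * q : ℕ) : ℝ)) :=
          mul_le_mul_of_nonneg_left (min_le_right _ _) hQq.le
      _ = B := by field_simp
  · intro n Y a hU hn
    have hn1 : 1 ≤ n := by
      rcases Nat.eq_zero_or_pos n with h0 | h0
      · rw [h0] at hU; simp at hU
      · exact h0
    have hY : 1 ≤ Y := by
      rcases Nat.eq_zero_or_pos Y with h0 | h0
      · rw [h0, mul_zero, zero_pow (by omega)] at hn; omega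
      · exact h0
    apply h a Y _ hY hU
    have hnr : (n : ℝ) ≤ ((Q : ℝ) * Y) ^ k := by exact_mod_cast hn
    calc ((⌊min (κ / (Q : ℝ) ^ k) (B / ((Q * q : ℕ) : ℝ)) * n⌋₊ : ℕ) : ℝ) ≤
          min (κ / (Q : ℝ) ^ k) (B / ((Q * q : ℕ) : ℝ)) * n := Nat.floor_le (by positivity)
      _ ≤ κ / (Q : ℝ) ^ k * ((Q : ℝ) * Y) ^ k := mul_le_mul (min_le_left _ _) hnr (by positivity) (by positivity)
      _ = κ * (Y : ℝ) ^ k := by rw [mul_pow]; field_simp

theorem exists_seq {k : ℕ} (hk : 1 ≤ k) {ε D : ℝ} (hε : 0 < ε) (hε1 : ε ≤ 1) (hD : 0 < D) (hD1 : D ≤ 1) :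
    ∃ (Qs qs : ℕ → ℕ) (κs : ℕ → ℝ), (∀ j, 1 ≤ Qs j ∧ 0 < κs j ∧ Qs j * κs j ≤ 1 / 8) ∧
      ∀ j, 1 ≤ qs j ∧ Qs (j + 1) = Qs j * qs j ∧ Qs (j + 1) * κs (j + 1) ≤ ε / 2 * (Qs j * κs j) ∧
        ∀ n Y a : ℕ, 1 ≤ ⌊κs (j + 1) * n⌋₊ → n ≤ (Qs j * Y) ^ k →
          Mult (fun y => (a + Qs j * y) ^ k) Y ⌊κs (j + 1) * n⌋₊ (Qs j * qs j) (D * κs j) := by
  have step : ∀ p : {p : ℕ × ℝ // 1 ≤ p.1 ∧ 0 < p.2 ∧ p.1 * p.2 ≤ 1 / 8},
      ∃ p' : {p : ℕ × ℝ // 1 ≤ p.1 ∧ 0 < p.2 ∧ p.1 * p.2 ≤ 1 / 8}, ∃ q : ℕ, 1 ≤ q ∧ p'.1.1 = p.1.1 * q ∧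
        p'.1.1 * p'.1.2 ≤ ε / 2 * (p.1.1 * p.1.2) ∧
        ∀ n Y a : ℕ, 1 ≤ ⌊p'.1.2 * n⌋₊ → n ≤ (p.1.1 * Y) ^ k →
          Mult (fun y => (a + p.1.1 * y) ^ k) Y ⌊p'.1.2 * n⌋₊ (p.1.1 * q) (D * p.1.2) := by
    rintro ⟨⟨Q, κ⟩, hQ, hκ, hQκ⟩
    simp only at hQ hκ hQκ ⊢
    have hQr : (1 : ℝ) ≤ Q := by exact_mod_cast hQ
    have hκ1 : κ ≤ 1 := by nlinarith
    obtain ⟨q, hq, κ', hκ', hB, h⟩ := exists_step hk hQ (δ := D * κ) (B := ε / 2 * (Q * κ)) (by positivity)
      (by nlinarith) (by positivity)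
    refine ⟨⟨(Q * q, κ'), Nat.mul_pos hQ hq, hκ', ?_⟩, q, hq, rfl, hB, h⟩
    refine hB.trans ?_
    have h0 : (0 : ℝ) < Q * κ := by positivity
    nlinarith
  choose f q hf using step
  let s : ℕ → {p : ℕ × ℝ // 1 ≤ p.1 ∧ 0 < p.2 ∧ p.1 * p.2 ≤ 1 / 8} := fun j =>
    Nat.rec ⟨(1, 1 / 8), le_rfl, by norm_num, by norm_num⟩ (fun _ p => f p) j
  exact ⟨fun j => (s j).1.1, fun j => q (s j), fun j => (s j).1.2, fun j => (s j).2, fun j => hf (s j)⟩

/-- **The key lemma.** -/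
theorem key {k : ℕ} (hk : 1 ≤ k) {c₁ c₂ : ℝ} (hc₁ : 0 < c₁) (hc₂ : 0 < c₂) (K : ℕ) :
    ∃ Q : ℕ, 1 ≤ Q ∧ ∃ n₀ : ℕ, ∀ n : ℕ, n₀ ≤ n → ∀ S : Finset ℤ, (∀ s ∈ S, 0 ≤ s ∧ s < n) → c₂ * n ≤ #S →
      ∃ a : ℤ, ∃ q : ℕ, 1 ≤ q ∧ q ∣ Q ∧ ∀ T : Finset ℤ, (∀ t ∈ T, 2 * (n : ℤ) ≤ t ∧ t ≤ K * n) → ∀ x₀ : ℕ,
        (∀ t ∈ T, (q : ℤ) ∣ t - a - (x₀ : ℤ) ^ k) → c₁ * n ≤ q * #T → ∃ t ∈ T, ∃ x : ℕ, t - (x : ℤ) ^ k ∈ S := by
  have hk1 : (1 : ℝ) ≤ k := by exact_mod_cast hk
  set M : ℝ := k * 2 ^ (2 * k) * (K + 1) with hM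
  have hM1 : 1 ≤ M := by
    have h1 : (1 : ℝ) ≤ 2 ^ (2 * k) := one_le_pow₀ (by norm_num)
    have h2 : (1 : ℝ) ≤ K + 1 := by
      have : (0 : ℝ) ≤ K := Nat.cast_nonneg _
      linarith
    rw [hM]
    exact one_le_mul_of_one_le_of_one_le (one_le_mul_of_one_le_of_one_le hk1 h1) h2
  have hM0 : 0 < M := by linarith
  set c : ℝ := min 1 (c₁ * c₂) with hc
  have hc0 : 0 < c := lt_min one_pos (by positivity)
  have hc1 : c ≤ 1 := min_le_left _ _
  have hcc : c ≤ c₁ * c₂ := min_le_right _ _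
  have hK0 : (0 : ℝ) ≤ K := Nat.cast_nonneg _
  set ε : ℝ := c / (16 * M) with hε
  set D : ℝ := c / (64 * M * (K + 1)) with hD
  have hε0 : 0 < ε := by positivity
  have hD0 : 0 < D := by positivity
  have hε1 : ε ≤ 1 := by
    rw [hε, div_le_one (by positivity)]
    linarith
  have hD1 : D ≤ 1 := by
    rw [hD, div_le_one (by positivity)]
    nlinarith
  obtain ⟨Qs, qs, κs, h1, h2⟩ := exists_seq hk hε0 hε1 hD0 hD1
  obtain ⟨J, hJ⟩ := exists_nat_gt (1 / ε)
  have hdvd : ∀ i j, i ≤ j → Qs i ∣ Qs j := by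
    intro i j hij
    induction j, hij using Nat.le_induction with
    | base => exact dvd_rfl
    | succ j _ ih =>
      rw [(h2 j).2.1]
      exact ih.mul_right _
  have hN : ∀ j, ∃ N : ℕ, ∀ n : ℕ, N ≤ n → (2 ≤ κs j * n ∧ 2 * (Qs j) ^ k + 2 ≤ n ∧
      ∀ X : ℕ, n ≤ X ^ k → (2 * M / κs j ≤ X ∧ Qs j ≤ X)) := by
    intro j
    have hκ := (h1 j).2.1
    obtain ⟨N1, hN1⟩ := exists_nat_gt (2 / κs j)
    obtain ⟨N2, hN2⟩ := exists_nat_gt (2 * M / κs j)
    refine ⟨N1 + (2 * (Qs j) ^ k + 2) + (N2 + Qs j) ^ k, fun n hn => ⟨?_, by omega, fun X hX => ?_⟩⟩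
    · have h3 : (N1 : ℝ) ≤ n := by exact_mod_cast (show N1 ≤ n by omega)
      have h4 : 2 / κs j < n := lt_of_lt_of_le hN1 h3
      rw [div_lt_iff₀ hκ] at h4
      linarith
    · have h3 : N2 + Qs j ≤ X := by
        by_contra hcon
        push Not at hcon
        have := Nat.pow_lt_pow_left hcon (show k ≠ 0 by omega)
        omega
      refine ⟨?_, by omega⟩
      have h4 : (N2 : ℝ) ≤ X := by exact_mod_cast (show N2 ≤ X by omega)
      linarith
  choose N hN using hN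
  refine ⟨Qs J, (h1 J).1, (range (J + 1)).sup N, fun n hn S hS hSc => ?_⟩
  have hn' : ∀ j, j ≤ J → N j ≤ n := fun j hj => (le_sup (f := N) (mem_range.2 (by omega))).trans hn
  have hn0 : 0 < n := by
    have := (hN 0 n (hn' 0 (Nat.zero_le _))).2.1
    omega
  have hnr : (0 : ℝ) < n := by exact_mod_cast hn0
  set U : ℕ → ℕ := fun j => ⌊κs j * n⌋₊ with hU
  have hU1 : ∀ j, j ≤ J → 1 ≤ U j := fun j hj => by
    have h3 := (hN j n (hn' j hj)).1
    exact Nat.le_floor (by push_cast; linarith)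
  have hUle : ∀ j, (U j : ℝ) ≤ κs j * n := fun j => Nat.floor_le (by
    have := (h1 j).2.1
    positivity)
  have hUge : ∀ j, j ≤ J → κs j * n / 2 ≤ U j := fun j hj => by
    have h3 := (hN j n (hn' j hj)).1
    have h4 : κs j * n < U j + 1 := Nat.lt_floor_add_one _
    linarith
  have hQU : ∀ j, 8 * (Qs j * U j) ≤ n := fun j => by
    have h3 : (8 : ℝ) * (Qs j * U j) ≤ n := by
      have h4 : (Qs j : ℝ) * U j ≤ Qs j * (κs j * n) := mul_le_mul_of_nonneg_left (hUle j) (Nat.cast_nonneg _)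
      have h5 := mul_le_mul_of_nonneg_right (h1 j).2.2 hnr.le
      nlinarith
    exact_mod_cast h3
  choose z hz using fun j => exists_max S (Qs j) (U j)
  set r : ℕ → ℕ := fun j => win S (Qs j) (U j) (z j) with hr
  -- pigeonhole
  obtain ⟨j, hjJ, hj⟩ : ∃ j < J, (r (j + 1) : ℝ) / U (j + 1) ≤ r j / U j + ε := by
    by_contra hcon
    push Not at hcon
    have h3 : ∀ i : ℕ, i ≤ J → (i : ℝ) * ε ≤ r i / U i := by
      intro i
      induction i with
      | zero => intro _; rw [Nat.cast_zero, zero_mul]; positivity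
      | succ i ih =>
        intro hi
        have h4 := hcon i (by omega)
        have h5 := ih (by omega)
        push_cast
        linarith
    have h4 := h3 J le_rfl
    have h5 : (r J : ℝ) / U J ≤ 1 := by
      have : (r J : ℝ) ≤ U J := by exact_mod_cast win_le S (Qs J) (U J) (z J)
      exact div_le_one_of_le₀ this (Nat.cast_nonneg _)
    rw [div_lt_iff₀ hε0] at hJ
    linarith
  refine ⟨z j, Qs j, (h1 j).1, hdvd j J hjJ.le, fun T hT x₀ hx₀ hTc => ?_⟩
  by_contra hcon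
  push Not at hcon
  obtain ⟨X, hXN, hXmin⟩ := exists_X hk ((K + 1) * n)
  -- abbreviations
  have hQ1 := (h1 j).1
  have hκ := (h1 j).2.1
  have hκ1 : κs j ≤ 1 := by
    have h3 := (h1 j).2.2
    have h4 : (1 : ℝ) ≤ Qs j := by exact_mod_cast hQ1
    nlinarith
  have hQr : (0 : ℝ) < Qs j := by exact_mod_cast hQ1
  have hX1 := (hN j n (hn' j hjJ.le)).2.2 X (by nlinarith)
  have hX2 : (2 : ℝ) ≤ X := by
    refine le_trans ?_ hX1.1
    rw [le_div_iff₀ hκ]
    nlinarith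
  have hX2' : 2 ≤ X := by exact_mod_cast hX2
  have hXr : (0 : ℝ) < X := by linarith
  have hXN' : (X : ℝ) ^ k ≤ 2 ^ k * ((K + 1) * n) := by
    have h3 : X ^ k ≤ (2 * (X - 1)) ^ k := Nat.pow_le_pow_left (by omega) k
    have h4 : (X - 1) ^ k < (K + 1) * n := hXmin _ (by omega)
    have h5 : X ^ k ≤ 2 ^ k * ((K + 1) * n) := by
      calc X ^ k ≤ (2 * (X - 1)) ^ k := h3
        _ = 2 ^ k * (X - 1) ^ k := mul_pow _ _ _
        _ ≤ 2 ^ k * ((K + 1) * n) := Nat.mul_le_mul_left _ h4.le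
    exact_mod_cast h5
  set Y := X / Qs j + 1 with hY
  have hYr : (Y : ℝ) ≤ 2 * X / Qs j := by
    rw [le_div_iff₀ hQr]
    have h3 : Qs j * Y ≤ 2 * X := by
      rw [hY, mul_add, mul_one]
      have h4 := Nat.mul_div_le X (Qs j)
      have h5 := hX1.2
      omega
    have h4 : (Qs j : ℝ) * Y ≤ 2 * X := by exact_mod_cast h3
    linarith
  have hYX : X < Qs j * Y := Nat.lt_mul_div_succ X hQ1
  have hUj := hU1 j hjJ.le
  have hUj' := hU1 (j + 1) hjJ
  have hUr : (0 : ℝ) < U j := by exact_mod_cast hUj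
  have hUr' : (0 : ℝ) < U (j + 1) := by exact_mod_cast hUj'
  have hmult := (h2 j).2.2.2 n Y (x₀ % Qs j) hUj' (by
    calc n ≤ (K + 1) * n := by nlinarith
      _ ≤ X ^ k := hXN
      _ ≤ (Qs j * Y) ^ k := Nat.pow_le_pow_left hYX.le k)
  -- the windows
  have hSpos : 0 < #S := by
    have : (0 : ℝ) < #S := lt_of_lt_of_le (by positivity) hSc
    exact_mod_cast this
  have havg := max_avg hS (Qs j) (U j) (r j) (hz j)
  have havg' := max_avg hS (Qs (j + 1)) (U (j + 1)) (r (j + 1)) (hz (j + 1))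
  have hrj : 0 < r j := by
    rcases Nat.eq_zero_or_pos (r j) with h0 | h0
    · rw [h0, zero_mul] at havg
      have := Nat.mul_pos hUj hSpos
      omega
    · exact h0
  have hQUj := hQU j
  obtain ⟨hz0, hzn⟩ : 0 ≤ z j ∧ z j < n + (Qs j * U j : ℕ) := by
    have h3 : ((range (U j)).filter (fun u => z j - (Qs j * u : ℕ) ∈ S)).Nonempty := card_pos.1 hrj
    obtain ⟨u, hu⟩ := h3
    rw [mem_filter, mem_range] at hu
    have h4 := hS _ hu.2
    have h5 : ((Qs j * u : ℕ) : ℤ) ≤ ((Qs j * U j : ℕ) : ℤ) := by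
      exact_mod_cast Nat.mul_le_mul_left (Qs j) hu.1.le
    have h6 : (0 : ℤ) ≤ ((Qs j * u : ℕ) : ℤ) := Int.natCast_nonneg _
    constructor <;> linarith [h4.1, h4.2]
  have hnQ := (hN j n (hn' j hjJ.le)).2.1
  set w : ℝ := U j * X / (M * n) with hw
  have hw0 : 0 ≤ w := by positivity
  have hcore := core hmult (by positivity) hUj' hQ1 S T (z j) (r (j + 1))
    (fun z' => by
      have := hz (j + 1) z'
      rw [(h2 j).2.1] at this
      have e : r (j + 1) = win S (Qs j * qs j) (U (j + 1)) (z (j + 1)) := by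
        rw [hr]
        simp only
        rw [(h2 j).2.1]
      rw [e]
      exact this) w
    (by
      intro t ht
      obtain ⟨ht1, ht2⟩ := hT t ht
      obtain ⟨z', hz'⟩ : ∃ z' : ℕ, (z' : ℤ) = t - z j + (Qs j * U j : ℕ) - 1 :=
        ⟨(t - z j + (Qs j * U j : ℕ) - 1).toNat, by
          rw [Int.toNat_of_nonneg]
          omega⟩
      have hcnt := count_x (k := k) (Q := Qs j) (x0 := x₀ % Qs j) (z := z') (L := Qs j * U j) (X := X) hk hQ1
        (Nat.mod_lt _ hQ1) (by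
          have h3 : ((Qs j ^ k : ℕ) : ℤ) = (Qs j : ℤ) ^ k := by push_cast; rfl
          zify
          zify at hnQ hQUj
          push_cast at hzn hz'
          rw [hz']
          linarith) (by
          have h3 : (z' : ℤ) < ((K + 1) * n : ℕ) := by
            rw [hz']
            zify at hnQ hQUj
            push_cast
            push_cast at hzn
            nlinarith [pow_nonneg (show (0 : ℤ) ≤ (Qs j : ℤ) from Int.natCast_nonneg _) k]
          have h4 : z' < (K + 1) * n := by exact_mod_cast h3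
          omega) hX1.2
      set F := (range X).filter (fun x => x % Qs j = x₀ % Qs j ∧ x ^ k ≤ z' ∧ z' < x ^ k + Qs j * U j) with hF
      have hle : #F ≤ #((range Y).filter (fun y => ∃ u < U j,
          t - (((x₀ % Qs j + Qs j * y) ^ k : ℕ) : ℤ) = z j - (Qs j * u : ℕ))) := by
        apply card_le_card_of_injOn (fun x => x / Qs j)
        · intro x hx
          rw [mem_coe, hF, mem_filter, mem_range] at hx
          obtain ⟨hxX, hxQ, hx1, hx2⟩ := hx
          have hxe : x₀ % Qs j + Qs j * (x / Qs j) = x := by rw [← hxQ]; exact Nat.mod_add_div x (Qs j)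
          rw [mem_coe, mem_filter, mem_range]
          simp only
          rw [hxe]
          refine ⟨by rw [hY]; exact Nat.lt_succ_of_le (Nat.div_le_div_right hxX.le), ?_⟩
          have hd : (Qs j : ℤ) ∣ (x : ℤ) ^ k - (t - z j) := by
            have h3 : (Qs j : ℤ) ∣ (x : ℤ) ^ k - (x₀ : ℤ) ^ k := by
              have h4 : x ≡ x₀ [MOD Qs j] := hxQ
              have h5 := (Nat.modEq_iff_dvd.1 ((h4.pow k).symm))
              push_cast at h5
              exact h5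
            have h4 := hx₀ t ht
            have h5 : (x : ℤ) ^ k - (t - z j) = ((x : ℤ) ^ k - (x₀ : ℤ) ^ k) - (t - z j - (x₀ : ℤ) ^ k) := by ring
            rw [h5]
            exact dvd_sub h3 h4
          obtain ⟨e, he⟩ := hd
          have hx1' : (x : ℤ) ^ k ≤ z' := by exact_mod_cast hx1
          have hx2' : (z' : ℤ) < (x : ℤ) ^ k + (Qs j * U j : ℕ) := by exact_mod_cast hx2
          rw [hz'] at hx1' hx2'
          push_cast at hx1' hx2'
          have hQz : (0 : ℤ) < Qs j := by exact_mod_cast hQ1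
          have he0 : 0 ≤ e := by
            by_contra hcon2
            push Not at hcon2
            nlinarith
          have he1 : e < U j := by
            by_contra hcon2
            push Not at hcon2
            nlinarith
          refine ⟨e.toNat, by omega, ?_⟩
          push_cast
          rw [Int.toNat_of_nonneg he0]
          linarith
        · intro x hx x' hx' h
          rw [mem_coe, hF, mem_filter] at hx hx'
          simp only at h
          rw [← Nat.mod_add_div x (Qs j), ← Nat.mod_add_div x' (Qs j), hx.2.1, hx'.2.1, h]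
      have hler : (#F : ℝ) ≤ (#((range Y).filter (fun y => ∃ u < U j,
          t - (((x₀ % Qs j + Qs j * y) ^ k : ℕ) : ℤ) = z j - (Qs j * u : ℕ))) : ℝ) := by exact_mod_cast hle
      refine le_trans ?_ hler
      have h3 : U j ≤ (#F + 1) * (k * (2 * X) ^ (k - 1)) := by
        have h4 : Qs j * U j ≤ Qs j * ((#F + 1) * (k * (2 * X) ^ (k - 1))) := by
          calc Qs j * U j ≤ _ := hcnt
            _ = _ := by ring
        exact Nat.le_of_mul_le_mul_left h4 hQ1
      have h4 : (U j : ℝ) ≤ (#F + 1) * (k * (2 * X) ^ (k - 1)) := by exact_mod_cast h3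
      have h5 : (2 * (X : ℝ)) ^ (k - 1) * (2 * X) = 2 ^ k * (X : ℝ) ^ k := by
        rw [← pow_succ, Nat.sub_add_cancel hk, mul_pow]
      have h6 : (U j : ℝ) * (2 * X) ≤ (#F + 1) * (M * n) := by
        calc (U j : ℝ) * (2 * X) ≤ (#F + 1) * (k * (2 * X) ^ (k - 1)) * (2 * X) :=
              mul_le_mul_of_nonneg_right h4 (by positivity)
          _ = (#F + 1) * (k * ((2 * X) ^ (k - 1) * (2 * X))) := by ring
          _ = (#F + 1) * (k * (2 ^ k * (X : ℝ) ^ k)) := by rw [h5]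
          _ ≤ (#F + 1) * (k * (2 ^ k * (2 ^ k * ((K + 1) * n)))) := by
              apply mul_le_mul_of_nonneg_left _ (by positivity)
              apply mul_le_mul_of_nonneg_left _ (by positivity)
              exact mul_le_mul_of_nonneg_left hXN' (by positivity)
          _ = (#F + 1) * (M * n) := by
              rw [hM, two_mul k, pow_add]
              ring
      have h7 : 1 ≤ w := by
        rw [hw, le_div_iff₀ (by positivity), one_mul]
        have h8 := hX1.1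
        rw [div_le_iff₀ hκ] at h8
        have h9 := hUge j hjJ.le
        calc M * n = (2 * M) * (n / 2) := by ring
          _ ≤ (X * κs j) * (n / 2) := mul_le_mul_of_nonneg_right h8 (by positivity)
          _ = (κs j * n / 2) * X := by ring
          _ ≤ U j * X := mul_le_mul_of_nonneg_right h9 hXr.le
      have h8 : 2 * w ≤ #F + 1 := by
        rw [hw, ← mul_div_assoc, div_le_iff₀ (by positivity)]
        calc 2 * ((U j : ℝ) * X) = U j * (2 * X) := by ring
          _ ≤ _ := h6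
      linarith)
    (by
      intro t ht y hy
      have h3 := hcon t ht (x₀ % Qs j + Qs j * y)
      push_cast at h3 ⊢
      exact h3)
  -- the final computation
  have hr' : c₂ / 2 * U (j + 1) ≤ r (j + 1) := by
    have h3 : (U (j + 1) : ℝ) * #S ≤ r (j + 1) * (n + Qs (j + 1) * U (j + 1)) := by exact_mod_cast havg'
    have h4 : (8 : ℝ) * (Qs (j + 1) * U (j + 1)) ≤ n := by exact_mod_cast hQU (j + 1)
    have h5 : (U (j + 1) : ℝ) * (c₂ * n) ≤ U (j + 1) * #S := mul_le_mul_of_nonneg_left hSc hUr'.le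
    have h6 : (r (j + 1) : ℝ) * (n + Qs (j + 1) * U (j + 1)) ≤ r (j + 1) * (2 * n) :=
      mul_le_mul_of_nonneg_left (by linarith) (Nat.cast_nonneg _)
    have h7 : (c₂ / 2 * U (j + 1)) * (2 * n) ≤ r (j + 1) * (2 * n) := by
      calc (c₂ / 2 * U (j + 1)) * (2 * (n : ℝ)) = U (j + 1) * (c₂ * n) := by ring
        _ ≤ _ := h5.trans (h3.trans h6)
    exact le_of_mul_le_mul_right h7 (by positivity)
  have hTr : c₁ * n / Qs j ≤ #T := by
    rw [div_le_iff₀ hQr]
    linarith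
  have hmain : U (j + 1) * (c / (2 * M) * (U j * X / Qs j)) ≤ r (j + 1) * w * #T := by
    calc U (j + 1) * (c / (2 * M) * (U j * X / Qs j)) ≤ U (j + 1) * ((c₁ * c₂) / (2 * M) * (U j * X / Qs j)) := by
          apply mul_le_mul_of_nonneg_left _ hUr'.le
          apply mul_le_mul_of_nonneg_right _ (by positivity)
          exact div_le_div_of_nonneg_right hcc (by positivity)
      _ = (c₂ / 2 * U (j + 1)) * w * (c₁ * n / Qs j) := by
          rw [hw]
          field_simp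
      _ ≤ r (j + 1) * w * #T := by
          apply mul_le_mul _ hTr (by positivity) (by positivity)
          exact mul_le_mul_of_nonneg_right hr' hw0
  have hrU : (r (j + 1) : ℝ) ≤ U (j + 1) := by exact_mod_cast win_le S _ _ _
  have herr1 : (Y : ℝ) * (r (j + 1) * (U j + qs j * U (j + 1)) - U (j + 1) * win S (Qs j) (U j) (z j)) ≤
      U (j + 1) * (4 * ε * (U j * X / Qs j)) := by
    have h3 : (r (j + 1) : ℝ) * U j ≤ U (j + 1) * r j + U (j + 1) * (ε * U j) := by
      rw [div_le_iff₀ hUr'] at hj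
      have h4 := mul_le_mul_of_nonneg_right hj hUr.le
      calc (r (j + 1) : ℝ) * U j ≤ (r j / U j + ε) * U (j + 1) * U j := h4
        _ = U (j + 1) * r j + U (j + 1) * (ε * U j) := by field_simp
    have h4 : (qs j : ℝ) * U (j + 1) ≤ ε * U j := by
      have h5 := (h2 j).2.2.1
      rw [(h2 j).2.1] at h5
      push_cast at h5
      have h6 : (qs j : ℝ) * κs (j + 1) ≤ ε / 2 * κs j := by
        have h7 : (Qs j : ℝ) * (qs j * κs (j + 1)) ≤ Qs j * (ε / 2 * κs j) := by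
          calc (Qs j : ℝ) * (qs j * κs (j + 1)) = Qs j * qs j * κs (j + 1) := by ring
            _ ≤ _ := h5
            _ = _ := by ring
        exact le_of_mul_le_mul_left h7 hQr
      calc (qs j : ℝ) * U (j + 1) ≤ qs j * (κs (j + 1) * n) := mul_le_mul_of_nonneg_left (hUle _) (Nat.cast_nonneg _)
        _ = (qs j * κs (j + 1)) * n := by ring
        _ ≤ (ε / 2 * κs j) * n := mul_le_mul_of_nonneg_right h6 hnr.le
        _ = ε * (κs j * n / 2) := by ring
        _ ≤ ε * U j := mul_le_mul_of_nonneg_left (hUge j hjJ.le) hε0.le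
    have h5 : (r (j + 1) : ℝ) * (qs j * U (j + 1)) ≤ U (j + 1) * (ε * U j) :=
      mul_le_mul hrU h4 (by positivity) hUr'.le
    have h6 : (r (j + 1) : ℝ) * (U j + qs j * U (j + 1)) - U (j + 1) * win S (Qs j) (U j) (z j) ≤
        U (j + 1) * (2 * (ε * U j)) := by
      have e : win S (Qs j) (U j) (z j) = r j := rfl
      rw [e, mul_add]
      linarith
    calc (Y : ℝ) * (r (j + 1) * (U j + qs j * U (j + 1)) - U (j + 1) * win S (Qs j) (U j) (z j)) ≤
          Y * (U (j + 1) * (2 * (ε * U j))) := mul_le_mul_of_nonneg_left h6 (Nat.cast_nonneg _)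
      _ ≤ (2 * X / Qs j) * (U (j + 1) * (2 * (ε * U j))) := mul_le_mul_of_nonneg_right hYr (by positivity)
      _ = U (j + 1) * (4 * ε * (U j * X / Qs j)) := by ring
  have hTn : (#T : ℝ) ≤ (K + 1) * n := by
    have h3 : T ⊆ Icc (2 * (n : ℤ)) (K * n) := fun t ht => mem_Icc.2 (hT t ht)
    have h4 := card_le_card h3
    rw [Int.card_Icc] at h4
    have h5 : (((K : ℤ) * n + 1 - 2 * n).toNat) ≤ (K + 1) * n := by
      rw [Int.toNat_le]
      push_cast
      nlinarith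
    exact_mod_cast h4.trans h5
  have herr2 : (U (j + 1) : ℝ) * (2 * (D * κs j) * Y * √(#T * U j)) ≤
      U (j + 1) * (8 * D * (K + 1) * (U j * X / Qs j)) := by
    apply mul_le_mul_of_nonneg_left _ hUr'.le
    have h3 : √((#T : ℝ) * U j) ≤ U j * (2 * (K + 1) / κs j) := by
      have h4 : (#T : ℝ) * U j ≤ (U j * (2 * (K + 1) / κs j)) ^ 2 := by
        have h5 : (n : ℝ) ≤ 2 * U j / κs j := by
          rw [le_div_iff₀ hκ]
          have := hUge j hjJ.le
          linarith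
        have h6 : 1 ≤ 2 * (K + 1) / κs j := by
          rw [le_div_iff₀ hκ]
          linarith
        calc (#T : ℝ) * U j ≤ ((K + 1) * n) * U j := mul_le_mul_of_nonneg_right hTn hUr.le
          _ ≤ ((K + 1) * (2 * U j / κs j)) * U j := by
              apply mul_le_mul_of_nonneg_right _ hUr.le
              exact mul_le_mul_of_nonneg_left h5 (by positivity)
          _ = (U j : ℝ) ^ 2 * (2 * (K + 1) / κs j) * 1 := by ring
          _ ≤ (U j : ℝ) ^ 2 * (2 * (K + 1) / κs j) * (2 * (K + 1) / κs j) :=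
              mul_le_mul_of_nonneg_left h6 (by positivity)
          _ = _ := by ring
      calc √((#T : ℝ) * U j) ≤ √((U j * (2 * (K + 1) / κs j)) ^ 2) := Real.sqrt_le_sqrt h4
        _ = _ := Real.sqrt_sq (by positivity)
    calc 2 * (D * κs j) * Y * √((#T : ℝ) * U j) ≤ 2 * (D * κs j) * (2 * X / Qs j) * (U j * (2 * (K + 1) / κs j)) := by
          apply mul_le_mul _ h3 (Real.sqrt_nonneg _) (by positivity)
          exact mul_le_mul_of_nonneg_left hYr (by positivity)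
      _ = 8 * D * (K + 1) * (U j * X / Qs j) := by
          field_simp
          norm_num
  have hP : 0 < (U j : ℝ) * X / Qs j := by positivity
  have hfin : (U (j + 1) : ℝ) * (c / (2 * M) * (U j * X / Qs j)) ≤
      U (j + 1) * ((4 * ε + 8 * D * (K + 1)) * (U j * X / Qs j)) := by
    have e : (U (j + 1) : ℝ) * ((4 * ε + 8 * D * (K + 1)) * (U j * X / Qs j)) =
      U (j + 1) * (4 * ε * (U j * X / Qs j)) + U (j + 1) * (8 * D * (K + 1) * (U j * X / Qs j)) := by ring
    rw [e]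
    linarith
  have h10 := le_of_mul_le_mul_right (le_of_mul_le_mul_left hfin hUr') hP
  have h11 : 4 * ε + 8 * D * (K + 1) = 3 * (c / (8 * M)) := by
    rw [hε, hD]
    field_simp
    ring
  have h12 : c / (2 * M) = 4 * (c / (8 * M)) := by
    field_simp
    ring
  rw [h11, h12] at h10
  have h13 : 0 < c / (8 * M) := by positivity
  linarith

end Pool.Agent.U416.WR
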