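import Pool.Agent.U416.WR.Cover
import Pool.Agent.U416.WR.Count

/-! The local problem: every residue class is a sum of few `k`-th powers. -/

set_option autoImplicit false

namespace Pool.Agent.U416.WR

open Finset Pointwise Pool.Agent.H2.Kneser

section grp

variable {G : Type} [AddCommGroup G] [DecidableEq G] [Fintype G]

/-- growth of the sums of a set containing zero and elements outside all the proper subgroups -/
theorem grow2 {A V : Finset G} (h0 : (0 : G) ∈ A) (hV : V ⊆ A) (hV2 : ∀ K : Finset G, Sg K → K ≠ univ → Disjoint V K)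
    (s : ℕ) : sums (fun _ => A) s = univ ∨ 1 + s * #V ≤ #(sums (fun _ => A) s) := by
  have hA : ∀ i : ℕ, ((fun _ => A) i).Nonempty := fun _ => ⟨0, h0⟩
  induction s with
  | zero => right; simp [sums]
  | succ s ih =>
    set X := sums (fun _ => A) s with hX
    have hXn : X.Nonempty := sums_nonempty hA _
    have hsum : sums (fun _ => A) (s + 1) = X + A := rfl
    rw [hsum]
    rcases ih with h | h
    · left
      rw [h, eq_univ_iff_forall]
      intro x
      exact mem_add.2 ⟨x, mem_univ _, 0, h0, add_zero x⟩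
    · by_cases hK : st (X + A) = univ
      · left
        obtain ⟨c, hc⟩ := hXn.add ⟨0, h0⟩
        rw [eq_univ_iff_forall]
        intro x
        have h1 : x - c ∈ st (X + A) := by rw [hK]; exact mem_univ _
        have h2 := mem_st.1 h1 c hc
        rwa [add_sub_cancel] at h2
      · right
        have h1 := kneser hXn (⟨0, h0⟩ : A.Nonempty)
        have h2 : #X ≤ #(X + st (X + A)) := card_le_card ((sg_st (X + A)).subset_add X)
        have h3 : #V + #(st (X + A)) ≤ #(A + st (X + A)) := by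
          rw [← card_union_of_disjoint (hV2 _ (sg_st (X + A)) hK)]
          apply card_le_card
          apply union_subset
          · exact hV.trans ((sg_st (X + A)).subset_add A)
          · intro x hx
            exact mem_add.2 ⟨0, h0, x, hx, zero_add x⟩
        have h4 : (s + 1) * #V = s * #V + #V := by ring
        omega

theorem sums_univ2 {A V : Finset G} (h0 : (0 : G) ∈ A) (hV : V ⊆ A)
    (hV2 : ∀ K : Finset G, Sg K → K ≠ univ → Disjoint V K) (s : ℕ) (hs : Fintype.card G ≤ s * #V) :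
    sums (fun _ => A) s = univ := by
  rcases grow2 h0 hV hV2 s with h | h
  · exact h
  · exfalso
    have : #(sums (fun _ => A) s) ≤ Fintype.card G := card_le_univ _
    omega

end grp

/-- A proper subgroup of the integers modulo `m` contains no unit. -/
theorem no_unit {m : ℕ} [NeZero m] (K : Finset (ZMod m)) (hK : Sg K) (hne : K ≠ univ) (u : (ZMod m)ˣ) :
    (u : ZMod m) ∉ K := by
  intro hu
  apply hne
  rw [eq_univ_iff_forall]
  intro x
  have h1 : ∀ n : ℕ, (n : ZMod m) * u ∈ K := by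
    intro n
    induction n with
    | zero => simpa using hK.zero
    | succ n ih =>
      push_cast
      rw [add_mul, one_mul]
      exact hK.add ih hu
  have h2 := h1 (x * (u⁻¹ : (ZMod m)ˣ)).val
  rw [ZMod.natCast_zmod_val, mul_assoc, Units.inv_mul, mul_one] at h2
  exact h2

/-- Sums of `k`-th powers modulo `m` when `x ^ k = 1` has few solutions. -/
theorem cover_of_ker {m k D s : ℕ} [NeZero m] (hk : 1 ≤ k) (hD0 : 0 < D)
    (hD : ∀ S : Finset (ZMod m)ˣ, (∀ u ∈ S, u ^ k = 1) → #S ≤ D) (hs : m * D ≤ s * Nat.totient m) (a : ZMod m) :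
    ∃ x : Fin s → ZMod m, a = ∑ i, x i ^ k := by
  classical
  set A : Finset (ZMod m) := univ.image (fun x : ZMod m => x ^ k) with hA
  set V : Finset (ZMod m) := univ.image (fun u : (ZMod m)ˣ => (u : ZMod m) ^ k) with hV
  have h0 : (0 : ZMod m) ∈ A := mem_image.2 ⟨0, mem_univ _, zero_pow (by omega)⟩
  have hVA : V ⊆ A := by
    intro v hv
    obtain ⟨u, _, rfl⟩ := mem_image.1 hv
    exact mem_image.2 ⟨u, mem_univ _, rfl⟩
  have hV2 : ∀ K : Finset (ZMod m), Sg K → K ≠ univ → Disjoint V K := by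
    intro K hK hne
    rw [disjoint_left]
    intro v hv hvK
    obtain ⟨u, _, rfl⟩ := mem_image.1 hv
    apply no_unit K hK hne (u ^ k)
    rw [Units.val_pow_eq_pow_val]
    exact hvK
  have hcard : Nat.totient m ≤ D * #V := by
    have h1 : #(univ : Finset (ZMod m)ˣ) = Nat.totient m := by
      rw [card_univ, ZMod.card_units_eq_totient]
    rw [← h1, hV]
    apply card_le_mul_card_image
    intro b hb
    obtain ⟨u0, _, rfl⟩ := mem_image.1 hb
    have h2 : #((univ.filter (fun u : (ZMod m)ˣ => (u : ZMod m) ^ k = (u0 : ZMod m) ^ k)).image (fun u => u * u0⁻¹)) =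
        #(univ.filter (fun u : (ZMod m)ˣ => (u : ZMod m) ^ k = (u0 : ZMod m) ^ k)) :=
      card_image_of_injective _ (mul_left_injective _)
    rw [← h2]
    apply hD
    intro w hw
    obtain ⟨u, hu, rfl⟩ := mem_image.1 hw
    rw [mem_filter] at hu
    have h3 : u ^ k = u0 ^ k := by
      ext
      rw [Units.val_pow_eq_pow_val, Units.val_pow_eq_pow_val]
      exact hu.2
    rw [mul_pow, h3, inv_pow, mul_inv_cancel]
  have hfin : Fintype.card (ZMod m) ≤ s * #V := by
    rw [ZMod.card]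
    have h1 : D * m ≤ D * (s * #V) := by
      calc D * m = m * D := mul_comm _ _
        _ ≤ s * Nat.totient m := hs
        _ ≤ s * (D * #V) := Nat.mul_le_mul_left _ hcard
        _ = D * (s * #V) := by ring
    exact Nat.le_of_mul_le_mul_left h1 hD0
  have huniv := sums_univ2 h0 hVA hV2 s hfin
  obtain ⟨y, hy, hsum⟩ := mem_sums (r := s) (x := a) (by rw [huniv]; exact mem_univ _)
  have hex : ∀ i, ∃ x : ZMod m, x ^ k = y i := fun i => by
    obtain ⟨x, _, hx⟩ := mem_image.1 (hy i)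
    exact ⟨x, hx⟩
  choose x hx using hex
  refine ⟨x, ?_⟩
  rw [hsum]
  exact sum_congr rfl fun i _ => (hx i).symm

theorem ker_odd {p k : ℕ} (hp : p.Prime) (hp2 : p ≠ 2) (hk : 1 ≤ k) (j : ℕ) [NeZero (p ^ j)]
    (S : Finset (ZMod (p ^ j))ˣ) (hS : ∀ u ∈ S, u ^ k = 1) : #S ≤ k := by
  classical
  have := ZMod.isCyclic_units_of_prime_pow p hp hp2 j
  calc #S ≤ #(univ.filter (fun u : (ZMod (p ^ j))ˣ => u ^ k = 1)) :=
        card_le_card fun u hu => mem_filter.2 ⟨mem_univ _, hS u hu⟩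
    _ ≤ k := by
        convert IsCyclic.card_pow_eq_one_le (α := (ZMod (p ^ j))ˣ) (n := k) hk

/-- in a group of order `2 ^ e`, `u ^ k = 1` implies `u ^ (2 ^ τ) = 1` -/
theorem two_part {G : Type} [Group G] {e τ k0 : ℕ} (hG : Nat.card G = 2 ^ e) (hk0 : Odd k0)
    {u : G} (hu : u ^ (2 ^ τ * k0) = 1) : u ^ 2 ^ τ = 1 := by
  have h1 : u ^ 2 ^ e = 1 := by rw [← hG]; exact pow_card_eq_one'
  have h2 : (u ^ 2 ^ τ) ^ 2 ^ e = 1 := by rw [← pow_mul, mul_comm, pow_mul, h1, one_pow]
  have h3 : (u ^ 2 ^ τ) ^ k0 = 1 := by rw [← pow_mul]; exact hu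
  have h4 : orderOf (u ^ 2 ^ τ) ∣ Nat.gcd (2 ^ e) k0 :=
    Nat.dvd_gcd (orderOf_dvd_of_pow_eq_one h2) (orderOf_dvd_of_pow_eq_one h3)
  have h5 : Nat.gcd (2 ^ e) k0 = 1 := Nat.Coprime.pow_left e (Nat.coprime_two_left.2 hk0)
  rw [h5] at h4
  exact orderOf_eq_one_iff.1 (Nat.dvd_one.1 h4)

theorem ker_two {τ k0 : ℕ} (hk0 : Odd k0) (j : ℕ) [NeZero (2 ^ j)]
    (S : Finset (ZMod (2 ^ j))ˣ) (hS : ∀ u ∈ S, u ^ (2 ^ τ * k0) = 1) : #S ≤ 2 ^ (τ + 1) := by
  classical
  rcases Nat.eq_zero_or_pos j with rfl | hj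
  · have h1 : #S ≤ 1 := by
      rw [card_le_one]
      intro a _ b _
      ext
      exact Subsingleton.elim (α := ZMod 1) _ _
    exact h1.trans (Nat.one_le_two_pow)
  have hGc : Nat.card (ZMod (2 ^ j))ˣ = 2 ^ (j - 1) := by
    rw [Nat.card_eq_fintype_card, ZMod.card_units_eq_totient, Nat.totient_prime_pow Nat.prime_two hj]
    simp
  have hS2 : ∀ u ∈ S, u ^ 2 ^ τ = 1 := fun u hu => two_part hGc hk0 (hS u hu)
  by_cases hj2 : j ≤ 2
  · have := (ZMod.isCyclic_units_two_pow_iff j).2 hj2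
    calc #S ≤ #(univ.filter (fun u : (ZMod (2 ^ j))ˣ => u ^ 2 ^ τ = 1)) :=
          card_le_card fun u hu => mem_filter.2 ⟨mem_univ _, hS2 u hu⟩
      _ ≤ 2 ^ τ := by
          convert IsCyclic.card_pow_eq_one_le (α := (ZMod (2 ^ j))ˣ) (n := 2 ^ τ) (by positivity)
      _ ≤ 2 ^ (τ + 1) := Nat.pow_le_pow_right (by norm_num) (by omega)
  · have hj3 : 3 ≤ j := by omega
    set five : (ZMod (2 ^ j))ˣ := ZMod.unitOfCoprime 5 (Nat.Coprime.pow_right j (by norm_num)) with hfive
    have ho : orderOf five = 2 ^ (j - 2) := by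
      have h1 := ZMod.orderOf_five (j - 2)
      rw [show j - 2 + 2 = j by omega] at h1
      rw [← h1, ← orderOf_units]
      rfl
    set C := Subgroup.zpowers five with hC
    have hCc : Nat.card C = 2 ^ (j - 2) := by rw [hC, Nat.card_zpowers, ho]
    have hidx : C.index = 2 := by
      have h1 := C.index_mul_card
      rw [hCc, hGc] at h1
      have h2 : (2 : ℕ) ^ (j - 1) = 2 * 2 ^ (j - 2) := by
        rw [← pow_succ']
        congr 1
        omega
      rw [h2] at h1
      exact Nat.eq_of_mul_eq_mul_right (by positivity) h1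
    have hin : ∀ T : Finset (ZMod (2 ^ j))ˣ, (∀ u ∈ T, u ^ 2 ^ τ = 1) → (∀ u ∈ T, u ∈ C) → #T ≤ 2 ^ τ := by
      intro T hT hTC
      calc #T ≤ #(univ.filter (fun u : C => u ^ 2 ^ τ = 1)) := by
            have h1 : T ⊆ (univ.filter (fun u : C => u ^ 2 ^ τ = 1)).image (fun u : C => (u : (ZMod (2 ^ j))ˣ)) := by
              intro u hu
              rw [mem_image]
              refine ⟨⟨u, hTC u hu⟩, mem_filter.2 ⟨mem_univ _, ?_⟩, rfl⟩
              ext1
              simpa using hT u hu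
            exact (card_le_card h1).trans card_image_le
        _ ≤ 2 ^ τ := by
            convert IsCyclic.card_pow_eq_one_le (α := C) (n := 2 ^ τ) (by positivity)
    have h1 := card_filter_add_card_filter_not (s := S) (fun u => u ∈ C)
    have h2 : #(S.filter (fun u => u ∈ C)) ≤ 2 ^ τ :=
      hin _ (fun u hu => hS2 u (mem_filter.1 hu).1) fun u hu => (mem_filter.1 hu).2
    have h3 : #(S.filter (fun u => ¬ u ∈ C)) ≤ 2 ^ τ := by
      rcases (S.filter (fun u => ¬ u ∈ C)).eq_empty_or_nonempty with h | ⟨b, hb⟩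
      · rw [h]; simp
      · have h4 : #((S.filter (fun u => ¬ u ∈ C)).image (fun u => u * b⁻¹)) = #(S.filter (fun u => ¬ u ∈ C)) :=
          card_image_of_injective _ (mul_left_injective _)
        rw [← h4]
        rw [mem_filter] at hb
        apply hin
        · intro w hw
          obtain ⟨u, hu, rfl⟩ := mem_image.1 hw
          rw [mul_pow, inv_pow, hS2 u (mem_filter.1 hu).1, hS2 b hb.1, inv_one, mul_one]
        · intro w hw
          obtain ⟨u, hu, rfl⟩ := mem_image.1 hw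
          rw [Subgroup.mul_mem_iff_of_index_two hidx]
          have h5 : b⁻¹ ∉ C := fun h => hb.2 (by simpa using C.inv_mem h)
          exact ⟨fun h => absurd h (mem_filter.1 hu).2, fun h => absurd h h5⟩
    rw [pow_succ]
    omega

/-- the local problem for prime powers -/
theorem loc_prime_pow {τ k0 s : ℕ} (hk0 : Odd k0) (h1 : 3 * (2 ^ τ * k0) ≤ 2 * s) (h2 : 2 ^ (τ + 2) ≤ s)
    {p : ℕ} (hp : p.Prime) {j : ℕ} (hj : 0 < j) (a : ZMod (p ^ j)) : ∃ x : Fin s → ZMod (p ^ j), a = ∑ i, x i ^ (2 ^ τ * k0) := by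
  have hk : 1 ≤ 2 ^ τ * k0 := Nat.mul_pos (by positivity) hk0.pos
  have : NeZero (p ^ j) := ⟨pow_ne_zero _ hp.ne_zero⟩
  have htot : Nat.totient (p ^ j) = p ^ (j - 1) * (p - 1) := Nat.totient_prime_pow hp hj
  have hpj : p ^ j = p ^ (j - 1) * p := by rw [← pow_succ, Nat.sub_add_cancel hj]
  by_cases hp2 : p = 2
  · subst hp2
    refine cover_of_ker hk (by positivity) (fun S hS => ker_two (τ := τ) hk0 j S hS) ?_ a
    rw [htot]
    have h3 : (2 : ℕ) ^ j * 2 ^ (τ + 1) = 2 ^ (j - 1) * 2 ^ (τ + 2) := by rw [hpj]; ring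
    rw [h3]
    calc 2 ^ (j - 1) * 2 ^ (τ + 2) ≤ 2 ^ (j - 1) * s := Nat.mul_le_mul_left _ h2
      _ = s * (2 ^ (j - 1) * (2 - 1)) := by ring
  · refine cover_of_ker hk (by omega) (fun S hS => ker_odd hp hp2 hk j S hS) ?_ a
    rw [htot, hpj]
    have hp3 : 3 ≤ p := by
      have := hp.two_le
      omega
    obtain ⟨q, rfl⟩ : ∃ q, p = q + 1 := ⟨p - 1, by omega⟩
    rw [Nat.add_sub_cancel]
    have h4 : (q + 1) * (2 ^ τ * k0) ≤ s * q := by
      have h5 : 2 * ((q + 1) * (2 ^ τ * k0)) ≤ 2 * (s * q) := by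
        calc 2 * ((q + 1) * (2 ^ τ * k0)) = (2 * (q + 1)) * (2 ^ τ * k0) := by ring
          _ ≤ (3 * q) * (2 ^ τ * k0) := Nat.mul_le_mul_right _ (by omega)
          _ = q * (3 * (2 ^ τ * k0)) := by ring
          _ ≤ q * (2 * s) := Nat.mul_le_mul_left _ h1
          _ = 2 * (s * q) := by ring
      omega
    calc (q + 1) ^ (j - 1) * (q + 1) * (2 ^ τ * k0) = (q + 1) ^ (j - 1) * ((q + 1) * (2 ^ τ * k0)) := by ring
      _ ≤ (q + 1) ^ (j - 1) * (s * q) := Nat.mul_le_mul_left _ h4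
      _ = s * ((q + 1) ^ (j - 1) * q) := by ring

theorem loc_of {τ k0 s : ℕ} (hk0 : Odd k0) (h1 : 3 * (2 ^ τ * k0) ≤ 2 * s) (h2 : 2 ^ (τ + 2) ≤ s) :
    Loc (2 ^ τ * k0) s := by
  intro Q
  induction Q using Nat.recOnPosPrimePosCoprime with
  | zero => intro h; omega
  | one => exact fun _ a => ⟨fun _ => 0, Nat.modEq_one⟩
  | prime_pow p j hp hj =>
    intro _ a
    have : NeZero (p ^ j) := ⟨pow_ne_zero _ hp.ne_zero⟩
    obtain ⟨x, hx⟩ := loc_prime_pow hk0 h1 h2 hp hj (a : ZMod (p ^ j))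
    refine ⟨fun i => (x i).val, ?_⟩
    rw [← ZMod.natCast_eq_natCast_iff, hx]
    push_cast
    refine sum_congr rfl fun i _ => ?_
    rw [ZMod.natCast_zmod_val]
  | coprime m n hm hn hmn ihm ihn =>
    intro _ a
    obtain ⟨x, hx⟩ := ihm (by omega) a
    obtain ⟨y, hy⟩ := ihn (by omega) a
    refine ⟨fun i => (Nat.chineseRemainder hmn (x i) (y i) : ℕ), ?_⟩
    rw [← Nat.modEq_and_modEq_iff_modEq_mul hmn]
    constructor
    · refine Nat.ModEq.trans (Nat.ModEq.sum fun i _ => ?_) hx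
      exact (Nat.chineseRemainder hmn (x i) (y i)).2.1.pow _
    · refine Nat.ModEq.trans (Nat.ModEq.sum fun i _ => ?_) hy
      exact (Nat.chineseRemainder hmn (x i) (y i)).2.2.pow _

/-- four `k`-th powers per unit of the exponent are enough -/
theorem loc_four {k : ℕ} (hk : 1 ≤ k) : Loc k (4 * k) := by
  obtain ⟨τ, k0, hk0, rfl⟩ := Nat.exists_eq_two_pow_mul_odd (n := k) (by omega)
  apply loc_of hk0
  · omega
  · have : 1 ≤ k0 := hk0.pos
    calc 2 ^ (τ + 2) = 4 * (2 ^ τ * 1) := by ring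
      _ ≤ 4 * (2 ^ τ * k0) := by gcongr

/-- `3 k / 2` powers are enough if `k` is not a power of two -/
theorem loc_three_half {k s : ℕ} (hk : 1 ≤ k) (hpow : ∀ m : ℕ, k ≠ 2 ^ m) (hs : 3 * k ≤ 2 * s) : Loc k s := by
  obtain ⟨τ, k0, hk0, rfl⟩ := Nat.exists_eq_two_pow_mul_odd (n := k) (by omega)
  apply loc_of hk0 hs
  have h1 : 3 ≤ k0 := by
    obtain ⟨q, hq⟩ := hk0
    rcases Nat.eq_zero_or_pos q with rfl | h
    · exact absurd (by rw [hq]; ring) (hpow τ)
    · omega
  have h2 : 2 ^ (τ + 2) = 4 * 2 ^ τ := by ring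
  have h3 : 2 ^ τ * 3 ≤ 2 ^ τ * k0 := Nat.mul_le_mul_left _ h1
  rw [h2]
  omega

theorem loc_two : Loc 2 4 := by
  intro Q _ a
  obtain ⟨x, y, z, w, h⟩ := Nat.sum_four_squares a
  refine ⟨![x, y, z, w], ?_⟩
  rw [← h]
  simp [Fin.sum_univ_four]
  rfl

end Pool.Agent.U416.WR
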