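import Pool.Agent.U416.WR.Exact

/-! Exact local principles with positive powers: two dense sets and `s` powers; one dense set and `s` powers. -/

set_option autoImplicit false

namespace Pool.Agent.U416.WR

open Finset Filter Topology

/-- the sums of an element of `B` and `s` positive `k`-th powers -/
def plusPos (B : Set ℕ) (k s : ℕ) : Set ℕ := {m | ∃ b ∈ B, ∃ x : Fin s → ℕ, (∀ i, 0 < x i) ∧ m = b + ∑ i, x i ^ k}

theorem snoc_pos {s : ℕ} {y : Fin s → ℕ} {x : ℕ} (hy : ∀ i, 0 < y i) (hx : 0 < x) :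
    ∀ i, 0 < (Fin.snoc (α := fun _ => ℕ) y x : Fin (s + 1) → ℕ) i := by
  intro i
  refine Fin.lastCases ?_ (fun j => ?_) i
  · simpa using hx
  · simpa using hy j

open Classical in
/-- **Two dense sets and one positive power.** -/
theorem two_one_pos {k : ℕ} (hk : 1 ≤ k) {c₁ c₂ : ℝ} (hc₁ : 0 < c₁) (hc₂ : 0 < c₂) :
    ∃ Q : ℕ, 1 ≤ Q ∧ ∀ B₁ B₂ : Set ℕ, LD c₁ B₁ → LD c₂ B₂ → ∀ᶠ n : ℕ in atTop, ∃ r : ℕ, ∀ n' : ℕ, n ≤ n' → n' ≤ 2 * n →
      ∀ x₀ : ℕ, n' ≡ r + x₀ ^ k [MOD Q] → ∃ b₁ ∈ B₁, ∃ b₂ ∈ B₂, ∃ x : ℕ, 0 < x ∧ n' = b₁ + b₂ + x ^ k := by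
  obtain ⟨Q, hQ, n₀, hkey⟩ := key hk hc₁ hc₂ 9
  refine ⟨Q, hQ, fun B₁ B₂ hB₁ hB₂ => ?_⟩
  obtain ⟨N1, hN1⟩ := eventually_atTop.1 (ld_card hB₁)
  obtain ⟨N2, hN2⟩ := eventually_atTop.1 (ld_card hB₂)
  filter_upwards [eventually_ge_atTop (4 * (N1 + N2 + n₀ + 6) + 4)] with n hn
  set N := n / 4 with hN
  have hNn : N1 + N2 + n₀ + 6 ≤ N := by omega
  set S : Finset ℤ := ((range N).filter (· ∈ B₂)).image (fun b : ℕ => (b : ℤ)) with hS
  have hcast : Function.Injective (fun b : ℕ => (b : ℤ)) := Nat.cast_injective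
  have hScard : #S = #((range N).filter (· ∈ B₂)) := by rw [hS, card_image_of_injective _ hcast]
  obtain ⟨a, q, hq1, hqQ, hT⟩ := hkey N (by omega) S
    (by
      intro s hs
      rw [hS, mem_image] at hs
      obtain ⟨b, hb, rfl⟩ := hs
      rw [mem_filter, mem_range] at hb
      exact ⟨Int.natCast_nonneg _, by exact_mod_cast hb.1⟩)
    (by rw [hScard]; exact hN2 N (by omega))
  obtain ⟨b0, hb0, hb0c⟩ := class_card hq1 (hN1 N (by omega))
  refine ⟨((a + b0) % (Q : ℤ)).toNat, fun n' hn1 hn2 x₀ hx₀ => ?_⟩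
  have hQz : (0 : ℤ) < Q := by exact_mod_cast hQ
  have hr : ((((a + b0) % (Q : ℤ)).toNat : ℕ) : ℤ) = (a + b0) % (Q : ℤ) :=
    Int.toNat_of_nonneg (Int.emod_nonneg _ hQz.ne')
  have hinj : Function.Injective (fun b : ℕ => (n' : ℤ) - (b : ℤ)) := fun a b h => by
    have : (a : ℤ) = b := by simpa using h
    exact_mod_cast this
  obtain ⟨t, ht, x, hx⟩ := hT (((((range N).filter (· ∈ B₁))).filter (fun b => b % q = b0)).image (fun b : ℕ => (n' : ℤ) - (b : ℤ)))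
    (by
      intro t ht
      rw [mem_image] at ht
      obtain ⟨b, hb, rfl⟩ := ht
      rw [mem_filter, mem_filter, mem_range] at hb
      have h1 : (b : ℤ) < N := by exact_mod_cast hb.1.1
      have h2 : (0 : ℤ) ≤ b := Int.natCast_nonneg _
      constructor
      · omega
      · push_cast
        omega)
    x₀
    (by
      intro t ht
      rw [mem_image] at ht
      obtain ⟨b, hb, rfl⟩ := ht
      rw [mem_filter, mem_filter, mem_range] at hb
      have h1 : (Q : ℤ) ∣ ((((a + b0) % (Q : ℤ)).toNat + x₀ ^ k : ℕ) : ℤ) - (n' : ℤ) := Nat.modEq_iff_dvd.1 hx₀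
      push_cast at h1
      rw [hr] at h1
      have h2 : (q : ℤ) ∣ (a + b0) % (Q : ℤ) + (x₀ : ℤ) ^ k - (n' : ℤ) := (Int.natCast_dvd_natCast.2 hqQ).trans h1
      have h3 : (q : ℤ) ∣ (a + b0) - (a + b0) % (Q : ℤ) :=
        (Int.natCast_dvd_natCast.2 hqQ).trans (Int.dvd_self_sub_emod)
      have h4 : (q : ℤ) ∣ (b : ℤ) - b0 := by
        rw [← hb.2]
        have h5 : b % q ≡ b [MOD q] := Nat.mod_modEq _ _
        exact Nat.modEq_iff_dvd.1 h5
      have h6 : (n' : ℤ) - (b : ℤ) - a - (x₀ : ℤ) ^ k = - (((a + b0) % (Q : ℤ) + (x₀ : ℤ) ^ k - (n' : ℤ)) +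
        ((a + b0) - (a + b0) % (Q : ℤ)) + ((b : ℤ) - b0)) := by ring
      rw [h6, dvd_neg]
      exact dvd_add (dvd_add h2 h3) h4)
    (by
      rw [card_image_of_injective _ hinj]
      exact hb0c)
  rw [mem_image] at ht
  obtain ⟨b, hb, rfl⟩ := ht
  rw [mem_filter, mem_filter, mem_range] at hb
  rw [hS, mem_image] at hx
  obtain ⟨b', hb', hxe⟩ := hx
  rw [mem_filter, mem_range] at hb'
  have h7 : (n' : ℤ) = b + b' + (x : ℤ) ^ k := by linarith
  have h8 : n' = b + b' + x ^ k := by exact_mod_cast h7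
  refine ⟨b, hb.1.2, b', hb'.2, x, ?_, h8⟩
  rcases Nat.eq_zero_or_pos x with h0 | h0
  · exfalso
    rw [h0, zero_pow (by omega)] at h8
    have hb1 := hb.1.1
    have hb2 := hb'.1
    omega
  · exact h0

/-- a representation of a class by `s + 1` powers, the first `s` of them small and positive -/
theorem loc_split_pos {k s Q : ℕ} (hloc : Loc k (s + 1)) (hQ : 1 ≤ Q) (a : ℕ) :
    ∃ (y : Fin s → ℕ) (x₀ : ℕ), (∑ i, y i ^ k) + x₀ ^ k ≡ a [MOD Q] ∧ ∑ i, y i ^ k ≤ s * (2 * Q) ^ k ∧ ∀ i, 0 < y i := by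
  obtain ⟨x, hx⟩ := hloc Q hQ a
  rw [Fin.sum_univ_castSucc] at hx
  refine ⟨fun i => x i.castSucc % Q + Q, x (Fin.last s), ?_, ?_, fun i => Nat.add_pos_right _ hQ⟩
  · refine Nat.ModEq.trans ?_ hx
    refine Nat.ModEq.add_right _ (Nat.ModEq.sum fun i _ => Nat.ModEq.pow k ?_)
    unfold Nat.ModEq
    rw [Nat.add_mod_right, Nat.mod_mod]
  · calc ∑ i, (x (Fin.castSucc i) % Q + Q) ^ k ≤ ∑ _i : Fin s, (2 * Q) ^ k :=
          sum_le_sum fun i _ => Nat.pow_le_pow_left (by have := Nat.mod_lt (x (Fin.castSucc i)) hQ; omega) k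
      _ = s * (2 * Q) ^ k := by simp

/-- **Two dense sets and `s` positive powers.** -/
theorem two_exact_pos {k s : ℕ} (hk : 1 ≤ k) (hloc : Loc k (s + 1)) {B₁ B₂ : Set ℕ} {c₁ c₂ : ℝ} (hc₁ : 0 < c₁)
    (hc₂ : 0 < c₂) (hB₁ : LD c₁ B₁) (hB₂ : LD c₂ B₂) :
    ∀ᶠ n : ℕ in atTop, ∃ b₁ ∈ B₁, ∃ b₂ ∈ B₂, ∃ x : Fin (s + 1) → ℕ, (∀ i, 0 < x i) ∧ n = b₁ + b₂ + ∑ i, x i ^ k := by
  obtain ⟨Q, hQ, h⟩ := two_one_pos hk hc₁ hc₂
  obtain ⟨N, hN⟩ := eventually_atTop.1 (h B₁ B₂ hB₁ hB₂)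
  filter_upwards [eventually_ge_atTop (2 * N + 6 + 3 * (s * (2 * Q) ^ k))] with n hn
  obtain ⟨r, hr⟩ := hN (2 * n / 3) (by omega)
  obtain ⟨y, x₀, hy, hys, hy0⟩ := loc_split_pos hloc hQ (n + (Q - 1) * r)
  set σ := ∑ i, y i ^ k with hσ
  obtain ⟨b₁, hb₁, b₂, hb₂, x, hx0, hx⟩ := hr (n - σ) (by omega) (by omega) x₀ (by
    apply Nat.ModEq.add_left_cancel' σ
    have e1 : σ + (n - σ) = n := by omega
    rw [e1]
    have e2 : σ + (r + x₀ ^ k) = (σ + x₀ ^ k) + r := by ring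
    rw [e2]
    refine Nat.ModEq.symm ((hy.add_right r).trans ?_)
    have e3 : n + (Q - 1) * r + r = n + Q * r := by
      obtain ⟨p, rfl⟩ : ∃ p, Q = p + 1 := ⟨Q - 1, by omega⟩
      simp only [Nat.add_sub_cancel]
      ring
    rw [e3]
    unfold Nat.ModEq
    rw [Nat.add_mul_mod_self_left])
  refine ⟨b₁, hb₁, b₂, hb₂, Fin.snoc y x, snoc_pos hy0 hx0, ?_⟩
  rw [Fin.sum_univ_castSucc]
  simp only [Fin.snoc_castSucc, Fin.snoc_last]
  omega

open Classical in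
/-- **One dense set and `s` positive powers: density one.** -/
theorem dens_exact_pos {k s : ℕ} (hk : 1 ≤ k) (hloc : Loc k (s + 1)) {B : Set ℕ} {c : ℝ} (hc : 0 < c) (hB : LD c B)
    {η : ℝ} (hη : 0 < η) :
    ∀ᶠ N : ℕ in atTop, (#((range N).filter (· ∉ plusPos B k (s + 1))) : ℝ) ≤ η * N := by
  obtain ⟨K, hK⟩ := exists_nat_gt (16 / η)
  obtain ⟨Q, hQ, n₀, hkey⟩ := key hk (c₁ := 1) one_pos hc K
  obtain ⟨N1, hN1⟩ := eventually_atTop.1 (ld_card hB)
  obtain ⟨N2, hN2⟩ := exists_nat_gt ((16 * ((N1 : ℝ) + n₀ + s * (2 * Q) ^ k + 1)) / η)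
  filter_upwards [eventually_ge_atTop N2] with N hN
  by_contra hcon
  push Not at hcon
  have hNr : (16 * ((N1 : ℝ) + n₀ + s * (2 * Q) ^ k + 1)) / η < N := lt_of_lt_of_le hN2 (by exact_mod_cast hN)
  rw [div_lt_iff₀ hη] at hNr
  have hQk0 : (0 : ℝ) ≤ s * (2 * (Q : ℝ)) ^ k := by positivity
  have hN10 : (0 : ℝ) ≤ N1 := by positivity
  have hn00 : (0 : ℝ) ≤ n₀ := by positivity
  have hN0 : (0 : ℝ) < N := by
    have h1 : (0 : ℝ) < N * η := by linarith
    exact pos_of_mul_pos_left h1 hη.le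
  set n := ⌊η * N / 8⌋₊ with hn
  have hn1 : (n : ℝ) ≤ η * N / 8 := Nat.floor_le (by positivity)
  have hn2 : η * N / 8 < n + 1 := Nat.lt_floor_add_one _
  have hn3 : η * N / 16 ≤ n := by linarith
  have hn4 : (N1 : ℝ) + n₀ + s * (2 * Q) ^ k ≤ n := by linarith
  have hn4' : N1 + n₀ + s * (2 * Q) ^ k ≤ n := by exact_mod_cast hn4
  have hcast : Function.Injective (fun b : ℕ => (b : ℤ)) := Nat.cast_injective
  set S : Finset ℤ := ((range n).filter (· ∈ B)).image (fun b : ℕ => (b : ℤ)) with hS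
  have hScard : #S = #((range n).filter (· ∈ B)) := by rw [hS, card_image_of_injective _ hcast]
  obtain ⟨a, q, hq1, hqQ, hT⟩ := hkey n (by omega) S
    (by
      intro s hs
      rw [hS, mem_image] at hs
      obtain ⟨b, hb, rfl⟩ := hs
      rw [mem_filter, mem_range] at hb
      exact ⟨Int.natCast_nonneg _, by exact_mod_cast hb.1⟩)
    (by rw [hScard]; exact hN1 n (by omega))
  -- the exceptional set
  set E := ((range N).filter (· ∉ plusPos B k (s + 1))).filter (fun e : ℕ => η * N / 2 ≤ ((e : ℕ) : ℝ)) with hE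
  have hEc : (n : ℝ) ≤ #E := by
    have h1 : #((range N).filter (· ∉ plusPos B k (s + 1))) ≤ #E + ⌈η * N / 2⌉₊ := by
      have h2 : (range N).filter (· ∉ plusPos B k (s + 1)) ⊆ E ∪ range ⌈η * N / 2⌉₊ := by
        intro e he
        rw [mem_union, hE, mem_filter]
        by_cases h : η * N / 2 ≤ (e : ℝ)
        · exact Or.inl ⟨he, h⟩
        · push Not at h
          exact Or.inr (mem_range.2 (Nat.lt_ceil.2 h))
      calc _ ≤ #(E ∪ range ⌈η * N / 2⌉₊) := card_le_card h2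
        _ ≤ #E + #(range ⌈η * N / 2⌉₊) := card_union_le _ _
        _ = _ := by rw [card_range]
    have h2 : (#((range N).filter (· ∉ plusPos B k (s + 1))) : ℝ) ≤ #E + ⌈η * N / 2⌉₊ := by exact_mod_cast h1
    have h3 : (⌈η * N / 2⌉₊ : ℝ) < η * N / 2 + 1 := Nat.ceil_lt_add_one (by positivity)
    have h4 : (1 : ℝ) ≤ η * N / 16 := by linarith
    linarith
  obtain ⟨e0, he0, he0c⟩ := class_card hq1 hEc
  obtain ⟨A, hA⟩ : ∃ A : ℕ, (A : ℤ) ≡ e0 - a [ZMOD q] := by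
    refine ⟨((e0 - a) % (q : ℤ)).toNat, ?_⟩
    have hqz : (0 : ℤ) < q := by exact_mod_cast hq1
    rw [Int.toNat_of_nonneg (Int.emod_nonneg _ hqz.ne')]
    exact Int.mod_modEq _ _
  obtain ⟨y, x₀, hy, hys, hy0⟩ := loc_split_pos hloc hq1 A
  set σ := ∑ i, y i ^ k with hσ
  have hσ2 : σ ≤ n := by
    have h1 : (2 * q) ^ k ≤ (2 * Q) ^ k := Nat.pow_le_pow_left (Nat.mul_le_mul_left _ (Nat.le_of_dvd hQ hqQ)) k
    have h2 : s * (2 * q) ^ k ≤ s * (2 * Q) ^ k := Nat.mul_le_mul_left _ h1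
    omega
  have hinj : Function.Injective (fun b : ℕ => (b : ℤ) - (σ : ℤ)) := fun a b h => by
    have : (a : ℤ) = b := by simpa using h
    exact_mod_cast this
  obtain ⟨t, ht, x, hx⟩ := hT ((E.filter (fun b => b % q = e0)).image (fun b : ℕ => (b : ℤ) - (σ : ℤ)))
    (by
      intro t ht
      rw [mem_image] at ht
      obtain ⟨b, hb, rfl⟩ := ht
      rw [mem_filter, hE, mem_filter, mem_filter, mem_range] at hb
      obtain ⟨⟨⟨hbN, hbB⟩, hbη⟩, hbq⟩ := hb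
      have h1 : (3 * n : ℝ) ≤ b := by linarith
      have h1' : 3 * n ≤ b := by exact_mod_cast h1
      have h2 : (N : ℝ) ≤ K * n := by
        have h3 : 16 / η * n ≤ K * n := mul_le_mul_of_nonneg_right hK.le (Nat.cast_nonneg _)
        have h4 : (N : ℝ) ≤ 16 / η * n := by
          rw [div_mul_eq_mul_div, le_div_iff₀ hη]
          linarith
        linarith
      have h2' : N ≤ K * n := by exact_mod_cast h2
      constructor
      · omega
      · have h3 : (b : ℤ) ≤ ((K * n : ℕ) : ℤ) := by exact_mod_cast (show b ≤ K * n by omega)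
        push_cast at h3
        have h4 : (0 : ℤ) ≤ σ := Int.natCast_nonneg _
        linarith)
    x₀
    (by
      intro t ht
      rw [mem_image] at ht
      obtain ⟨b, hb, rfl⟩ := ht
      rw [mem_filter] at hb
      have h1 : (q : ℤ) ∣ (A : ℤ) - ((σ + x₀ ^ k : ℕ) : ℤ) := Nat.modEq_iff_dvd.1 hy
      have h2 : (q : ℤ) ∣ (e0 - a) - (A : ℤ) := (Int.modEq_iff_dvd.1 hA)
      have h3 : (q : ℤ) ∣ (b : ℤ) - e0 := by
        rw [← hb.2]
        have h5 : b % q ≡ b [MOD q] := Nat.mod_modEq _ _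
        exact Nat.modEq_iff_dvd.1 h5
      push_cast at h1
      have h6 : (b : ℤ) - (σ : ℤ) - a - (x₀ : ℤ) ^ k = ((b : ℤ) - e0) + ((e0 - a) - (A : ℤ)) +
        ((A : ℤ) - ((σ : ℤ) + (x₀ : ℤ) ^ k)) := by ring
      rw [h6]
      exact dvd_add (dvd_add h3 h2) h1)
    (by
      rw [card_image_of_injective _ hinj, one_mul]
      exact he0c)
  rw [mem_image] at ht
  obtain ⟨e, he, rfl⟩ := ht
  rw [mem_filter, hE, mem_filter, mem_filter] at he
  rw [hS, mem_image] at hx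
  obtain ⟨b, hb, hxe⟩ := hx
  rw [mem_filter] at hb
  have h7 : (e : ℤ) = b + (σ + (x : ℤ) ^ k) := by linarith
  have h8 : e = b + (σ + x ^ k) := by exact_mod_cast h7
  have hx0 : 0 < x := by
    rcases Nat.eq_zero_or_pos x with h0 | h0
    · exfalso
      rw [h0, zero_pow (by omega)] at h8
      have hb1 := mem_range.1 hb.1
      have h9 : (3 * n : ℝ) ≤ e := by linarith [he.1.2]
      have h10 : 3 * n ≤ e := by exact_mod_cast h9
      omega
    · exact h0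
  apply he.1.1.2
  refine ⟨b, hb.2, Fin.snoc y x, snoc_pos hy0 hx0, ?_⟩
  rw [Fin.sum_univ_castSucc]
  simp only [Fin.snoc_castSucc, Fin.snoc_last]
  exact h8

end Pool.Agent.U416.WR
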