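import Pool.Agent.U416.WR.Count

/-! Smoothing along progressions, with values `(a + q y) ^ k`, over the integers. -/

set_option autoImplicit false

namespace Pool.Agent.U416.WR

open Finset Polynomial
open Pool.Agent.Helper602.MK (ee)
open Pool.Agent.Helper602.MK.N_J5b (ee_add ee_zero ee_conj norm_ee ee_int ee_nat_mul ee_add_int norm_one_sub_ee)

/-- the bound on the multiplier of `v` against the progression of difference `Q` -/
def Mult (v : ℕ → ℕ) (Y U Q : ℕ) (δ : ℝ) : Prop :=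
  ∀ (M : ℕ) [NeZero M] (t : ZMod M),
    ‖∑ y ∈ range Y, (ZMod.stdAddChar (t * ((v y : ℕ) : ZMod M)) : ℂ)‖ *
      ‖1 - (1 / (U : ℂ)) * ∑ u ∈ range U, (ZMod.stdAddChar (t * ((Q * u : ℕ) : ZMod M)) : ℂ)‖ ≤ 2 * δ * Y

theorem multiplier2 (k : ℕ) (hk : 1 ≤ k) (q₀ : ℕ) (hq₀ : 1 ≤ q₀) (δ : ℝ) (hδ : 0 < δ) (hδ1 : δ ≤ 1) :
    ∃ Q : ℕ, 1 ≤ Q ∧ q₀ ∣ Q ∧ ∃ κ : ℝ, 0 < κ ∧ ∀ a Y U : ℕ, 1 ≤ Y → 1 ≤ U → (U : ℝ) ≤ κ * (Y : ℝ) ^ k →
      Mult (fun y => (a + q₀ * y) ^ k) Y U Q δ := by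
  obtain ⟨c, m, hc, hI⟩ := Pool.Agent.H373R2.NB.IW_all k hk
  have hc1 : (1 : ℝ) ≤ c := by exact_mod_cast hc
  set W : ℝ := c * (1 / δ) ^ m with hW
  have hu1 : 1 ≤ 1 / δ := by rw [le_div_iff₀ hδ]; linarith
  have hW1 : 1 ≤ W := by rw [hW]; exact one_le_mul_of_one_le_of_one_le hc1 (one_le_pow₀ hu1)
  set Q : ℕ := k.factorial * q₀ ^ k * (⌊W⌋₊).factorial with hQ
  have hQ1 : 1 ≤ Q := Nat.one_le_iff_ne_zero.2 (by rw [hQ]; positivity)
  have hQr : (1 : ℝ) ≤ Q := by exact_mod_cast hQ1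
  refine ⟨Q, hQ1, ?_, δ / (7 * Q * W), by positivity, ?_⟩
  · rw [hQ]
    exact ((dvd_pow_self q₀ (by omega)).mul_left _).mul_right _
  intro a₀ Y U hY hU hUY M _ t
  have hY0 : (0 : ℝ) < Y := by exact_mod_cast hY
  have hU0 : (0 : ℝ) < U := by exact_mod_cast hU
  have hUc : (U : ℂ) ≠ 0 := by exact_mod_cast hU0.ne'
  set S := ∑ y ∈ range Y, (ZMod.stdAddChar (t * (((a₀ + q₀ * y) ^ k : ℕ) : ZMod M)) : ℂ) with hS
  set K := (1 / (U : ℂ)) * ∑ u ∈ range U, (ZMod.stdAddChar (t * ((Q * u : ℕ) : ZMod M)) : ℂ) with hK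
  show ‖S‖ * ‖1 - K‖ ≤ 2 * δ * Y
  have hSY : ‖S‖ ≤ Y := by
    calc ‖S‖ ≤ ∑ y ∈ range Y, ‖(ZMod.stdAddChar (t * (((a₀ + q₀ * y) ^ k : ℕ) : ZMod M)) : ℂ)‖ := norm_sum_le _ _
      _ = Y := by simp
  have hK1 : ‖K‖ ≤ 1 := by
    rw [hK, norm_mul, norm_div, norm_one, Complex.norm_natCast]
    have h1 : ‖∑ u ∈ range U, (ZMod.stdAddChar (t * ((Q * u : ℕ) : ZMod M)) : ℂ)‖ ≤ U := by
      calc _ ≤ ∑ u ∈ range U, ‖(ZMod.stdAddChar (t * ((Q * u : ℕ) : ZMod M)) : ℂ)‖ := norm_sum_le _ _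
        _ = U := by simp
    calc 1 / (U : ℝ) * ‖∑ u ∈ range U, (ZMod.stdAddChar (t * ((Q * u : ℕ) : ZMod M)) : ℂ)‖ ≤ 1 / U * U :=
          mul_le_mul_of_nonneg_left h1 (by positivity)
      _ = 1 := by field_simp
  by_cases hcase : ‖S‖ ≤ δ * Y
  · have h2 : ‖1 - K‖ ≤ 2 := by
      calc ‖1 - K‖ ≤ ‖(1 : ℂ)‖ + ‖K‖ := norm_sub_le _ _
        _ ≤ 2 := by rw [norm_one]; linarith
    calc ‖S‖ * ‖1 - K‖ ≤ (δ * Y) * 2 := mul_le_mul hcase h2 (norm_nonneg _) (by positivity)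
      _ = 2 * δ * Y := by ring
  · push Not at hcase
    set γ : ℝ := (t.val : ℝ) / M with hγ
    have hM0 : (M : ℝ) ≠ 0 := by exact_mod_cast NeZero.ne M
    have hchar : ∀ b : ℕ, (ZMod.stdAddChar (t * ((b : ℕ) : ZMod M)) : ℂ) = ee (γ * b) := by
      intro b
      have e1 : t * ((b : ℕ) : ZMod M) = (((t.val * b : ℕ) : ℤ) : ZMod M) := by
        push_cast
        rw [ZMod.natCast_zmod_val]
      rw [e1, std_ee, hγ]
      congr 1
      push_cast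
      ring
    set g : ℤ[X] := (C (a₀ : ℤ) + C (q₀ : ℤ) * X) ^ k with hg
    have hdeg : g.natDegree ≤ k := by
      rw [hg]
      refine natDegree_pow_le.trans ?_
      have h1 : (C (a₀ : ℤ) + C (q₀ : ℤ) * X).natDegree ≤ 1 := by
        compute_degree
      calc k * (C (a₀ : ℤ) + C (q₀ : ℤ) * X).natDegree ≤ k * 1 := Nat.mul_le_mul_left _ h1
        _ = k := mul_one _
    have hcoef : g.coeff k = (q₀ : ℤ) ^ k := by
      have h1 : (C (a₀ : ℤ) + C (q₀ : ℤ) * X).natDegree = 1 := by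
        rw [add_comm]
        exact natDegree_linear (by exact_mod_cast (show q₀ ≠ 0 by omega))
      have h2 : g.natDegree = k := by rw [hg, natDegree_pow, h1, mul_one]
      have h3 : g.coeff k = g.leadingCoeff := by rw [leadingCoeff, h2]
      rw [h3, hg, leadingCoeff_pow]
      congr 1
      rw [add_comm]
      exact leadingCoeff_linear (by exact_mod_cast (show q₀ ≠ 0 by omega))
    have hSe : S = ∑ n ∈ range Y, ee ((fun n : ℕ => γ * ((g.eval (n : ℤ) : ℤ) : ℝ)) n) := by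
      rw [hS]
      refine sum_congr rfl fun y _ => ?_
      rw [hchar]
      congr 1
      rw [hg]
      simp
    have hPh := Pool.Agent.H373R2.NB.Ph_poly k g hdeg γ
    have hlow : (Y : ℝ) ≤ (1 / δ) * ‖∑ n ∈ range Y, ee ((fun n : ℕ => γ * ((g.eval (n : ℤ) : ℤ) : ℝ)) n)‖ := by
      rw [← hSe, one_div_mul_eq_div, le_div_iff₀ hδ]
      linarith
    obtain ⟨q, hq1, hqW, a, ha⟩ := hI Y (1 / δ) _ _ hY hu1 hPh hlow
    have hqf : q ≤ ⌊W⌋₊ := Nat.le_floor hqW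
    obtain ⟨e, he⟩ : q ∣ (⌊W⌋₊).factorial := Nat.dvd_factorial hq1 hqf
    rw [hcoef] at ha
    set θ : ℝ := Q * γ - ((e : ℤ) * a : ℤ) with hθ
    have hQe : (Q : ℝ) = k.factorial * (q₀ : ℝ) ^ k * (q * e) := by
      rw [hQ, he]; push_cast; ring
    have heQ : (e : ℝ) ≤ Q := by
      have h1 : e ≤ Q := by
        rw [hQ, he]
        have h2 : 1 ≤ k.factorial * q₀ ^ k := Nat.one_le_iff_ne_zero.2 (by positivity)
        calc e = 1 * (1 * e) := by ring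
          _ ≤ k.factorial * q₀ ^ k * (q * e) := Nat.mul_le_mul h2 (Nat.mul_le_mul_right _ hq1)
      exact_mod_cast h1
    have hθb : |θ| ≤ Q * W / (Y : ℝ) ^ k := by
      have h1 : θ = e * ((q : ℝ) * (γ * ((k.factorial : ℝ) * (((q₀ : ℤ) ^ k : ℤ) : ℝ))) - a) := by
        rw [hθ, hQe]; push_cast; ring
      rw [h1, abs_mul, Nat.abs_cast]
      calc (e : ℝ) * |(q : ℝ) * (γ * ((k.factorial : ℝ) * (((q₀ : ℤ) ^ k : ℤ) : ℝ))) - a| ≤ Q * (W / (Y : ℝ) ^ k) := by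
            apply mul_le_mul heQ ha (abs_nonneg _) (by positivity)
        _ = Q * W / (Y : ℝ) ^ k := by ring
    have hone : ∀ u ∈ range U, ‖1 - (ZMod.stdAddChar (t * ((Q * u : ℕ) : ZMod M)) : ℂ)‖ ≤ δ := by
      intro u hu
      have hu' : (u : ℝ) ≤ U := by exact_mod_cast (mem_range.1 hu).le
      rw [hchar]
      have e1 : γ * ((Q * u : ℕ) : ℝ) = u * θ + ((u : ℤ) * (e * a) : ℤ) := by
        rw [hθ]; push_cast; ring
      rw [e1, ee_add_int, norm_one_sub_ee]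
      have h1 : |Real.sin (Real.pi * (u * θ))| ≤ Real.pi * (u * |θ|) := by
        calc |Real.sin (Real.pi * (u * θ))| ≤ |Real.pi * (u * θ)| := Real.abs_sin_le_abs
          _ = Real.pi * (u * |θ|) := by
            rw [abs_mul, abs_mul, abs_of_pos Real.pi_pos, Nat.abs_cast]
      have h2 : (u : ℝ) * |θ| ≤ U * (Q * W / (Y : ℝ) ^ k) := mul_le_mul hu' hθb (abs_nonneg _) hU0.le
      have h3 : (U : ℝ) * (Q * W / (Y : ℝ) ^ k) ≤ δ / 7 := by
        calc (U : ℝ) * (Q * W / (Y : ℝ) ^ k) ≤ (δ / (7 * Q * W) * (Y : ℝ) ^ k) * (Q * W / (Y : ℝ) ^ k) :=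
              mul_le_mul_of_nonneg_right hUY (by positivity)
          _ = δ / 7 := by field_simp
      have h4 : Real.pi < 3.15 := Real.pi_lt_d2
      have h5 : (u : ℝ) * |θ| ≤ δ / 7 := h2.trans h3
      have h6 : 0 ≤ (u : ℝ) * |θ| := by positivity
      calc 2 * |Real.sin (Real.pi * (u * θ))| ≤ 2 * (Real.pi * (u * |θ|)) := by linarith
        _ ≤ 2 * (3.15 * (u * |θ|)) := by
            have := mul_le_mul_of_nonneg_right h4.le h6
            linarith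
        _ ≤ δ := by linarith
    have h1K : ‖1 - K‖ ≤ δ := by
      have e1 : 1 - K = (1 / (U : ℂ)) * ∑ u ∈ range U, (1 - (ZMod.stdAddChar (t * ((Q * u : ℕ) : ZMod M)) : ℂ)) := by
        rw [sum_sub_distrib, mul_sub, hK]
        congr 1
        simp [hUc]
      rw [e1, norm_mul, norm_div, norm_one, Complex.norm_natCast]
      calc 1 / (U : ℝ) * ‖∑ u ∈ range U, (1 - (ZMod.stdAddChar (t * ((Q * u : ℕ) : ZMod M)) : ℂ))‖ ≤
            1 / U * (U * δ) := by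
            apply mul_le_mul_of_nonneg_left _ (by positivity)
            calc _ ≤ ∑ u ∈ range U, ‖1 - (ZMod.stdAddChar (t * ((Q * u : ℕ) : ZMod M)) : ℂ)‖ := norm_sum_le _ _
              _ ≤ ∑ _u ∈ range U, δ := sum_le_sum hone
              _ = U * δ := by simp
        _ = δ := by field_simp
    calc ‖S‖ * ‖1 - K‖ ≤ Y * δ := mul_le_mul hSY h1K (norm_nonneg _) hY0.le
      _ ≤ 2 * δ * Y := by nlinarith

theorem smooth_gen {v : ℕ → ℕ} {Y U Q : ℕ} {δ : ℝ} (hm : Mult v Y U Q δ) (M : ℕ) [NeZero M] (f : ZMod M → ℂ) :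
    ∑ n, ‖∑ x ∈ range Y, (f (n - ((v x : ℕ) : ZMod M)) -
      (1 / (U : ℂ)) * ∑ u ∈ range U, f (n - ((v x : ℕ) : ZMod M) - ((Q * u : ℕ) : ZMod M)))‖ ^ 2 ≤
      4 * δ ^ 2 * (Y : ℝ) ^ 2 * ∑ n, ‖f n‖ ^ 2 := by
  set E : ZMod M → ℂ := fun n => ∑ x ∈ range Y, (f (n - ((v x : ℕ) : ZMod M)) -
        (1 / (U : ℂ)) * ∑ u ∈ range U, f (n - ((v x : ℕ) : ZMod M) - ((Q * u : ℕ) : ZMod M))) with hE
  have hM0 : (0 : ℝ) < M := by exact_mod_cast Nat.pos_of_ne_zero (NeZero.ne M)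
  have hfour : ∀ t : ZMod M, ∑ n, E n * ZMod.stdAddChar (t * n) =
      (∑ n, f n * ZMod.stdAddChar (t * n)) *
        ((∑ x ∈ range Y, (ZMod.stdAddChar (t * ((v x : ℕ) : ZMod M)) : ℂ)) *
        (1 - (1 / (U : ℂ)) * ∑ u ∈ range U, (ZMod.stdAddChar (t * ((Q * u : ℕ) : ZMod M)) : ℂ))) := by
    intro t
    have h1 : ∀ x ∈ range Y, ∑ n, (f (n - ((v x : ℕ) : ZMod M)) -
        (1 / (U : ℂ)) * ∑ u ∈ range U, f (n - ((v x : ℕ) : ZMod M) - ((Q * u : ℕ) : ZMod M))) *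
        ZMod.stdAddChar (t * n) = (∑ n, f n * ZMod.stdAddChar (t * n)) *
          ((ZMod.stdAddChar (t * ((v x : ℕ) : ZMod M)) : ℂ) *
        (1 - (1 / (U : ℂ)) * ∑ u ∈ range U, (ZMod.stdAddChar (t * ((Q * u : ℕ) : ZMod M)) : ℂ))) := by
      intro x _
      have h2 : ∀ n : ZMod M, (f (n - ((v x : ℕ) : ZMod M)) -
        (1 / (U : ℂ)) * ∑ u ∈ range U, f (n - ((v x : ℕ) : ZMod M) - ((Q * u : ℕ) : ZMod M))) *
        ZMod.stdAddChar (t * n) = f (n - ((v x : ℕ) : ZMod M)) * ZMod.stdAddChar (t * n) -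
          (1 / (U : ℂ)) * ∑ u ∈ range U, f (n - (((v x : ℕ) : ZMod M) + ((Q * u : ℕ) : ZMod M))) *
            ZMod.stdAddChar (t * n) := by
        intro n
        rw [sub_mul, mul_assoc, sum_mul]
        congr 2
        refine sum_congr rfl fun u _ => ?_
        rw [sub_sub]
      rw [sum_congr rfl fun n _ => h2 n, sum_sub_distrib, ← mul_sum, sum_comm, shift_sum]
      rw [sum_congr rfl fun u _ => shift_sum M f t (((v x : ℕ) : ZMod M) + ((Q * u : ℕ) : ZMod M)), ← sum_mul]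
      have h3 : ∑ u ∈ range U, (ZMod.stdAddChar (t * (((v x : ℕ) : ZMod M) + ((Q * u : ℕ) : ZMod M))) : ℂ) =
          (ZMod.stdAddChar (t * ((v x : ℕ) : ZMod M)) : ℂ) *
            ∑ u ∈ range U, (ZMod.stdAddChar (t * ((Q * u : ℕ) : ZMod M)) : ℂ) := by
        rw [mul_sum]
        refine sum_congr rfl fun u _ => ?_
        rw [mul_add, AddChar.map_add_eq_mul]
      rw [h3]
      ring
    have h4 : ∑ n, E n * ZMod.stdAddChar (t * n) = ∑ x ∈ range Y, ∑ n, (f (n - ((v x : ℕ) : ZMod M)) -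
        (1 / (U : ℂ)) * ∑ u ∈ range U, f (n - ((v x : ℕ) : ZMod M) - ((Q * u : ℕ) : ZMod M))) *
        ZMod.stdAddChar (t * n) := by
      rw [sum_comm]
      refine sum_congr rfl fun n _ => ?_
      rw [hE]
      simp only
      rw [sum_mul]
    rw [h4, sum_congr rfl h1, ← mul_sum, ← sum_mul]
  have hP1 := parseval M E
  have hP2 := parseval M f
  have hle : ∑ t, ‖∑ n, E n * ZMod.stdAddChar (t * n)‖ ^ 2 ≤
      4 * δ ^ 2 * (Y : ℝ) ^ 2 * ∑ t, ‖∑ n, f n * ZMod.stdAddChar (t * n)‖ ^ 2 := by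
    rw [mul_sum]
    refine sum_le_sum fun t _ => ?_
    rw [hfour t, norm_mul, norm_mul, mul_pow]
    have h5 := hm M t
    have h6 : (‖∑ x ∈ range Y, (ZMod.stdAddChar (t * ((v x : ℕ) : ZMod M)) : ℂ)‖ *
        ‖1 - (1 / (U : ℂ)) * ∑ u ∈ range U, (ZMod.stdAddChar (t * ((Q * u : ℕ) : ZMod M)) : ℂ)‖) ^ 2 ≤
        (2 * δ * Y) ^ 2 := pow_le_pow_left₀ (by positivity) h5 2
    calc _ ≤ ‖∑ n, f n * (ZMod.stdAddChar (t * n) : ℂ)‖ ^ 2 * (2 * δ * Y) ^ 2 :=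
          mul_le_mul_of_nonneg_left h6 (by positivity)
      _ = 4 * δ ^ 2 * (Y : ℝ) ^ 2 * ‖∑ n, f n * (ZMod.stdAddChar (t * n) : ℂ)‖ ^ 2 := by ring
  rw [hP1, hP2] at hle
  have h7 : (M : ℝ) * ∑ n, ‖E n‖ ^ 2 ≤ M * (4 * δ ^ 2 * (Y : ℝ) ^ 2 * ∑ n, ‖f n‖ ^ 2) := by
    calc _ ≤ _ := hle
      _ = _ := by ring
  exact le_of_mul_le_mul_left h7 hM0

/-- **Smoothing over the integers.** -/
theorem smooth_int {v : ℕ → ℕ} {Y U Q : ℕ} {δ : ℝ} (hm : Mult v Y U Q δ) (C T : Finset ℤ) :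
    ∑ m ∈ T, ((#((range Y).filter (fun y => m - (v y : ℤ) ∈ C)) : ℝ) -
      (1 / (U : ℝ)) * ∑ y ∈ range Y, (#((range U).filter (fun u => m - (v y : ℤ) - (Q * u : ℕ) ∈ C)) : ℝ)) ^ 2 ≤
      4 * δ ^ 2 * (Y : ℝ) ^ 2 * #C := by
  classical
  -- a large modulus
  set R : ℤ := ∑ c ∈ C, |c| + ∑ m ∈ T, |m| + ∑ y ∈ range Y, (v y : ℤ) + (Q * U : ℕ) with hR
  have hC0 : 0 ≤ ∑ c ∈ C, |c| := sum_nonneg fun _ _ => abs_nonneg _
  have hT0 : 0 ≤ ∑ m ∈ T, |m| := sum_nonneg fun _ _ => abs_nonneg _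
  have hV0 : 0 ≤ ∑ y ∈ range Y, (v y : ℤ) := sum_nonneg fun _ _ => Int.natCast_nonneg _
  have hQ0 : (0 : ℤ) ≤ (Q * U : ℕ) := Int.natCast_nonneg _
  have hR0 : 0 ≤ R := by omega
  obtain ⟨M, hM⟩ : ∃ M : ℕ, (M : ℤ) = 4 * R + 1 := ⟨(4 * R + 1).toNat, by omega⟩
  have : NeZero M := ⟨by omega⟩
  set f : ZMod M → ℂ := fun z => if z ∈ C.image (fun c : ℤ => (c : ZMod M)) then 1 else 0 with hf
  have hCb : ∀ c ∈ C, |c| ≤ R := fun c hc => by
    have := single_le_sum (f := fun c : ℤ => |c|) (fun _ _ => abs_nonneg _) hc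
    omega
  have hTb : ∀ m ∈ T, |m| ≤ R := fun m hm => by
    have := single_le_sum (f := fun c : ℤ => |c|) (fun _ _ => abs_nonneg _) hm
    omega
  have hVb : ∀ y ∈ range Y, (v y : ℤ) ≤ R := fun y hy => by
    have := single_le_sum (f := fun y : ℕ => (v y : ℤ)) (fun _ _ => Int.natCast_nonneg _) hy
    omega
  have hfv : ∀ w : ℤ, |w| ≤ 3 * R → f ((w : ℤ) : ZMod M) = if w ∈ C then 1 else 0 := by
    intro w hw
    rw [hf]
    simp only
    by_cases hwC : w ∈ C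
    · rw [if_pos hwC, if_pos (mem_image.2 ⟨w, hwC, rfl⟩)]
    · rw [if_neg hwC, if_neg]
      intro h
      obtain ⟨c, hc, hcw⟩ := mem_image.1 h
      have h1 : (M : ℤ) ∣ w - c := (ZMod.intCast_eq_intCast_iff_dvd_sub c w M).1 hcw
      have h2 := hCb c hc
      have h3 : |w - c| < M := by
        have := abs_sub w c
        omega
      have h4 := Int.eq_zero_of_abs_lt_dvd h1 h3
      have h5 : w = c := by omega
      exact hwC (h5 ▸ hc)
  have hsm := smooth_gen hm M f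
  have hfs : ∑ z, ‖f z‖ ^ 2 ≤ (#C : ℝ) := by
    have h1 : ∀ z : ZMod M, ‖f z‖ ^ 2 = if z ∈ C.image (fun c : ℤ => (c : ZMod M)) then (1 : ℝ) else 0 := by
      intro z
      rw [hf]
      simp only
      split_ifs <;> simp
    rw [sum_congr rfl fun z _ => h1 z, sum_boole]
    have h2 : #((univ : Finset (ZMod M)).filter (fun z => z ∈ C.image (fun c : ℤ => (c : ZMod M)))) ≤ #C := by
      refine (card_le_card fun z hz => ?_).trans (card_image_le (f := fun c : ℤ => (c : ZMod M)))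
      exact (mem_filter.1 hz).2
    exact_mod_cast h2
  set E : ZMod M → ℂ := fun n => ∑ x ∈ range Y, (f (n - ((v x : ℕ) : ZMod M)) -
        (1 / (U : ℂ)) * ∑ u ∈ range U, f (n - ((v x : ℕ) : ZMod M) - ((Q * u : ℕ) : ZMod M))) with hE
  have hEv : ∀ m ∈ T, ‖E ((m : ℤ) : ZMod M)‖ ^ 2 = ((#((range Y).filter (fun y => m - (v y : ℤ) ∈ C)) : ℝ) -
      (1 / (U : ℝ)) * ∑ y ∈ range Y, (#((range U).filter (fun u => m - (v y : ℤ) - (Q * u : ℕ) ∈ C)) : ℝ)) ^ 2 := by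
    intro m hmT
    have h1 : E ((m : ℤ) : ZMod M) = (((#((range Y).filter (fun y => m - (v y : ℤ) ∈ C)) : ℝ) -
      (1 / (U : ℝ)) * ∑ y ∈ range Y, (#((range U).filter (fun u => m - (v y : ℤ) - (Q * u : ℕ) ∈ C)) : ℝ) : ℝ) : ℂ) := by
      rw [hE]
      simp only
      rw [sum_sub_distrib, ← mul_sum]
      push_cast
      congr 1
      · rw [card_filter]
        push_cast
        refine sum_congr rfl fun y hy => ?_
        have e : ((m : ℤ) : ZMod M) - ((v y : ℕ) : ZMod M) = ((m - (v y : ℤ) : ℤ) : ZMod M) := by push_cast; rfl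
        rw [e, hfv]
        · have h2 := hTb m hmT
          have h3 := hVb y hy
          have h4 := abs_sub m (v y : ℤ)
          rw [Nat.abs_cast] at h4
          omega
      · congr 1
        refine sum_congr rfl fun y hy => ?_
        rw [card_filter]
        push_cast
        refine sum_congr rfl fun u hu => ?_
        have e : ((m : ℤ) : ZMod M) - ((v y : ℕ) : ZMod M) - (Q : ZMod M) * (u : ZMod M) =
            ((m - (v y : ℤ) - (Q * u : ℕ) : ℤ) : ZMod M) := by push_cast; rfl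
        rw [e, hfv]
        · push_cast
          rfl
        · have h2 := hTb m hmT
          have h3 := hVb y hy
          have h4 := abs_sub (m - (v y : ℤ)) ((Q * u : ℕ) : ℤ)
          have h5 := abs_sub m (v y : ℤ)
          rw [Nat.abs_cast] at h4 h5
          have h6 : Q * u ≤ Q * U := Nat.mul_le_mul_left _ (mem_range.1 hu).le
          have h7 : ((Q * u : ℕ) : ℤ) ≤ ((Q * U : ℕ) : ℤ) := by exact_mod_cast h6
          omega
    rw [h1, Complex.norm_real, Real.norm_eq_abs, sq_abs]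
  have hinj : Set.InjOn (fun m : ℤ => (m : ZMod M)) (T : Set ℤ) := by
    intro a ha b hb hab
    have h1 : (M : ℤ) ∣ b - a := (ZMod.intCast_eq_intCast_iff_dvd_sub a b M).1 hab
    have h2 := hTb a ha
    have h3 := hTb b hb
    have h4 : |b - a| < M := by
      have := abs_sub b a
      omega
    have h5 := Int.eq_zero_of_abs_lt_dvd h1 h4
    omega
  calc _ = ∑ m ∈ T, ‖E ((m : ℤ) : ZMod M)‖ ^ 2 := sum_congr rfl fun m hm => (hEv m hm).symm
    _ = ∑ z ∈ T.image (fun m : ℤ => (m : ZMod M)), ‖E z‖ ^ 2 :=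
        (sum_image (f := fun z : ZMod M => ‖E z‖ ^ 2) hinj).symm
    _ ≤ ∑ z, ‖E z‖ ^ 2 := sum_le_sum_of_subset_of_nonneg (subset_univ _) fun _ _ _ => by positivity
    _ ≤ 4 * δ ^ 2 * (Y : ℝ) ^ 2 * ∑ z, ‖f z‖ ^ 2 := hsm
    _ ≤ 4 * δ ^ 2 * (Y : ℝ) ^ 2 * #C := mul_le_mul_of_nonneg_left hfs (by positivity)

end Pool.Agent.U416.WR
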